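import Mathlib

set_option autoImplicit false

namespace Pool.Agent.Helper820

/-- weight of position n -/
def w (n : ℤ) : ℚ := (2:ℚ) ^ (-n)

lemma w_pos (n : ℤ) : 0 < w n := by unfold w; positivity

lemma w_zero : w 0 = 1 := by simp [w]

lemma w_sub_one (n : ℤ) : w (n - 1) = 2 * w n := by
  unfold w
  rw [show -(n-1) = (-n) + 1 by ring, zpow_add₀ (by norm_num)]
  simp [mul_comm]

lemma w_add_one (n : ℤ) : w (n + 1) = w n / 2 := by
  have := w_sub_one (n+1)
  rw [show n + 1 - 1 = n by ring] at this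
  linarith

lemma w_add (m n : ℤ) : w (m + n) = w m * w n := by
  unfold w
  rw [show -(m+n) = (-m) + (-n) by ring, zpow_add₀ (by norm_num)]

lemma w_lt {m n : ℤ} (h : m < n) : w n < w m := by
  unfold w
  exact zpow_lt_zpow_right₀ (by norm_num) (by omega)

lemma w_le {m n : ℤ} (h : m ≤ n) : w n ≤ w m := by
  unfold w
  exact zpow_le_zpow_right₀ (by norm_num) (by omega)

lemma w_lt_iff {m n : ℤ} : w n < w m ↔ m < n := by
  constructor
  · intro h
    by_contra h'
    exact absurd (w_le (not_lt.mp h')) (not_le.mpr h)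
  · exact w_lt

lemma w_le_iff {m n : ℤ} : w n ≤ w m ↔ m ≤ n := by
  constructor
  · intro h
    by_contra h'
    exact absurd (w_lt (not_le.mp h')) (not_lt.mpr h)
  · exact w_le

lemma w_inj {m n : ℤ} (h : w m = w n) : m = n := by
  have h1 := w_le_iff.mp (le_of_eq h)
  have h2 := w_le_iff.mp (le_of_eq h.symm)
  omega

/-- x is an integer multiple of w p -/
def Dy (p : ℤ) (x : ℚ) : Prop := ∃ z : ℤ, x = z * w p

lemma Dy.mono {p q : ℤ} {x : ℚ} (h : Dy p x) (hpq : p ≤ q) : Dy q x := by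
  obtain ⟨z, rfl⟩ := h
  obtain ⟨k, hk⟩ := Int.le.dest hpq
  refine ⟨z * 2 ^ k, ?_⟩
  have : w p = 2 ^ k * w q := by
    rw [← hk, w_add]
    unfold w
    rw [zpow_neg, zpow_neg, zpow_natCast]
    field_simp
  rw [this]; push_cast; ring

lemma Dy.add {p : ℤ} {x y : ℚ} (hx : Dy p x) (hy : Dy p y) : Dy p (x + y) := by
  obtain ⟨a, rfl⟩ := hx
  obtain ⟨b, rfl⟩ := hy
  exact ⟨a + b, by push_cast; ring⟩

lemma Dy.sub {p : ℤ} {x y : ℚ} (hx : Dy p x) (hy : Dy p y) : Dy p (x - y) := by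
  obtain ⟨a, rfl⟩ := hx
  obtain ⟨b, rfl⟩ := hy
  exact ⟨a - b, by push_cast; ring⟩

lemma Dy.neg {p : ℤ} {x : ℚ} (hx : Dy p x) : Dy p (-x) := by
  obtain ⟨a, rfl⟩ := hx
  exact ⟨-a, by push_cast; ring⟩

lemma dy_w {m p : ℤ} (h : m ≤ p) : Dy p (w m) := by
  have : Dy m (w m) := ⟨1, by simp⟩
  exact this.mono h

lemma dy_zero (p : ℤ) : Dy p 0 := ⟨0, by simp⟩

lemma dy_int {p : ℤ} (hp : 0 ≤ p) (z : ℤ) : Dy p (z : ℚ) := by
  have : Dy 0 (z : ℚ) := ⟨z, by simp [w_zero]⟩
  exact this.mono hp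

lemma dy_nat {p : ℤ} (hp : 0 ≤ p) (k : ℕ) : Dy p (k : ℚ) := by
  have := dy_int hp (k : ℤ)
  simpa using this

lemma dy_one {p : ℤ} (hp : 0 ≤ p) : Dy p (1 : ℚ) := by
  have := dy_int hp (1 : ℤ)
  simpa using this

/-- a positive multiple of w p is at least w p -/
lemma Dy.le_of_pos {p : ℤ} {x : ℚ} (h : Dy p x) (hx : 0 < x) : w p ≤ x := by
  obtain ⟨z, rfl⟩ := h
  have hw := w_pos p
  have hz : 0 < (z:ℚ) := by
    by_contra hc
    have : (z:ℚ) * w p ≤ 0 := mul_nonpos_of_nonpos_of_nonneg (not_lt.mp hc) hw.le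
    linarith
  have : (1:ℤ) ≤ z := by exact_mod_cast hz
  have : (1:ℚ) ≤ z := by exact_mod_cast this
  nlinarith

lemma not_dy_w {m p : ℤ} (h : p < m) : ¬ Dy p (w m) := by
  intro hd
  have := hd.le_of_pos (w_pos m)
  have := w_lt h
  linarith

lemma Dy.eq_zero_of_lt {p : ℤ} {x : ℚ} (h : Dy p x) (h1 : x < w p) (h2 : -w p < x) : x = 0 := by
  rcases lt_trichotomy x 0 with hx | hx | hx
  · have := (h.neg).le_of_pos (by linarith)
    linarith
  · exact hx
  · have := h.le_of_pos hx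
    linarith

/-- scaling -/
lemma Dy.two_mul {p : ℤ} {x : ℚ} (h : Dy p x) : Dy (p-1) (2 * x) := by
  obtain ⟨z, rfl⟩ := h
  exact ⟨z, by rw [w_sub_one]; ring⟩

lemma Dy.half {p : ℤ} {x : ℚ} (h : Dy p x) : Dy (p+1) (x / 2) := by
  obtain ⟨z, rfl⟩ := h
  exact ⟨z, by rw [w_add_one]; ring⟩

/-- kinds of pointers -/
inductive Kd
  | Z
  | S (m : ℤ)
  | L (t : ℚ) (s : ℤ)

/-- St x k : x is tame, of kind k -/
inductive St : ℚ → Kd → Prop
  | zero : St 0 Kd.Z
  | root (k : ℕ) : St ((k:ℚ) + 1) (Kd.L k 0)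
  | cz {x : ℚ} {s n : ℤ} : St x (Kd.L 0 s) → 1 ≤ n → Dy (n-1) x → St (x - w n) (Kd.S n)
  | cs {x t : ℚ} {s m n : ℤ} : St x (Kd.L t s) → St t (Kd.S m) → 1 ≤ n → Dy (n-1) x →
      St (x - w n) (Kd.L (t - w m) (s+1))
  | cl {x t t' : ℚ} {s s' n : ℤ} : St x (Kd.L t s) → St t (Kd.L t' s') → 1 ≤ n → Dy (n-1) x →
      St (x - w n) (Kd.L (t - w (n - s)) s)

def T (x : ℚ) : Prop := ∃ k, St x k

lemma T_zero : T 0 := ⟨_, St.zero⟩

lemma T_nat (k : ℕ) : T (k:ℚ) := by
  cases k with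
  | zero => simpa using T_zero
  | succ k => exact ⟨_, by push_cast; exact St.root k⟩

/-- inversion -/
lemma St.inv {z : ℚ} {κ : Kd} (h : St z κ) :
    (z = 0 ∧ κ = Kd.Z) ∨ (∃ k : ℕ, z = k + 1 ∧ κ = Kd.L k 0) ∨
    (∃ x s n, St x (Kd.L 0 s) ∧ 1 ≤ n ∧ Dy (n-1) x ∧ z = x - w n ∧ κ = Kd.S n) ∨
    (∃ x t s m n, St x (Kd.L t s) ∧ St t (Kd.S m) ∧ 1 ≤ n ∧ Dy (n-1) x ∧ z = x - w n ∧
      κ = Kd.L (t - w m) (s+1)) ∨
    (∃ x t s t' s' n, St x (Kd.L t s) ∧ St t (Kd.L t' s') ∧ 1 ≤ n ∧ Dy (n-1) x ∧ z = x - w n ∧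
      κ = Kd.L (t - w (n - s)) s) := by
  cases h with
  | zero => exact Or.inl ⟨rfl, rfl⟩
  | root k => exact Or.inr (Or.inl ⟨k, rfl, rfl⟩)
  | cz h1 h2 h3 => exact Or.inr (Or.inr (Or.inl ⟨_, _, _, h1, h2, h3, rfl, rfl⟩))
  | cs h1 h2 h3 h4 => exact Or.inr (Or.inr (Or.inr (Or.inl ⟨_, _, _, _, _, h1, h2, h3, h4, rfl, rfl⟩)))
  | cl h1 h2 h3 h4 =>
    exact Or.inr (Or.inr (Or.inr (Or.inr ⟨_, _, _, _, _, _, h1, h2, h3, h4, rfl, rfl⟩)))

/-- exact position of a child -/
lemma child_dy {x : ℚ} {n : ℤ} (h : Dy (n-1) x) : Dy n (x - w n) :=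
  (h.mono (by omega)).sub (dy_w le_rfl)

lemma child_not_dy {x : ℚ} {n p : ℤ} (h : Dy (n-1) x) (hp : p < n) : ¬ Dy p (x - w n) := by
  intro hd
  have h1 : Dy (n-1) (x - w n) := hd.mono (by omega)
  have h2 : Dy (n-1) (w n) := by
    have := h.sub h1
    have e : x - (x - w n) = w n := by ring
    rwa [e] at this
  exact not_dy_w (by omega) h2

lemma child_le_of_dy {x : ℚ} {n p : ℤ} (h : Dy (n-1) x) (hp : Dy p (x - w n)) : n ≤ p := by
  by_contra hc
  exact child_not_dy h (by omega) hp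

/-- uniqueness of the parent -/
lemma child_inj {x x' : ℚ} {n n' : ℤ} (h : Dy (n-1) x) (h' : Dy (n'-1) x')
    (e : x - w n = x' - w n') : n = n' ∧ x = x' := by
  have h1 : n ≤ n' := child_le_of_dy h (by rw [e]; exact child_dy h')
  have h2 : n' ≤ n := child_le_of_dy h' (by rw [← e]; exact child_dy h)
  have h3 : n = n' := by omega
  subst h3
  exact ⟨rfl, by linarith⟩

lemma St.S_spec {x : ℚ} {m : ℤ} (h : St x (Kd.S m)) :
    ∃ u s, St u (Kd.L 0 s) ∧ 1 ≤ m ∧ Dy (m-1) u ∧ x = u - w m := by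
  rcases h.inv with ⟨-, h⟩ | ⟨k, -, h⟩ | ⟨x', s, n, h1, h2, h3, h4, h5⟩ | ⟨x', t, s, m', n, h1, h2, h3, h4, h5, h6⟩ |
    ⟨x', t, s, t', s', n, h1, h2, h3, h4, h5, h6⟩
  · cases h
  · cases h
  · cases h5
    exact ⟨x', s, h1, h2, h3, h4⟩
  · cases h6
  · cases h6

lemma St.S_dy {x : ℚ} {m : ℤ} (h : St x (Kd.S m)) : Dy m x := by
  obtain ⟨u, s, h1, h2, h3, rfl⟩ := h.S_spec
  exact child_dy h3

lemma St.S_not_dy {x : ℚ} {m p : ℤ} (h : St x (Kd.S m)) (hp : p < m) : ¬ Dy p x := by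
  obtain ⟨u, s, h1, h2, h3, rfl⟩ := h.S_spec
  exact child_not_dy h3 hp

lemma St.S_le {x : ℚ} {m p : ℤ} (h : St x (Kd.S m)) (hp : Dy p x) : m ≤ p := by
  by_contra hc
  exact h.S_not_dy (by omega) hp

lemma St.S_one_le {x : ℚ} {m : ℤ} (h : St x (Kd.S m)) : 1 ≤ m := by
  obtain ⟨u, s, h1, h2, h3, rfl⟩ := h.S_spec
  exact h2

/-- position invariant and nonnegativity of the shift -/
lemma St.pos_inv {x : ℚ} {κ : Kd} (h : St x κ) :
    ∀ t s, κ = Kd.L t s → 0 ≤ s ∧ ∀ p, 0 ≤ p → Dy p x → 0 ≤ p - s ∧ Dy (p - s) t := by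
  induction h with
  | zero => intro t s h; cases h
  | root k =>
    intro t s h
    cases h
    refine ⟨le_rfl, fun p hp _ => ⟨by omega, ?_⟩⟩
    exact dy_nat (by omega) k
  | cz h1 h2 h3 ih => intro t s h; cases h
  | @cs x t s m n h1 h2 h3 h4 ih1 ih2 =>
    intro t' s' h
    cases h
    obtain ⟨hs, hi⟩ := ih1 t s rfl
    refine ⟨by omega, fun p hp hd => ?_⟩
    have hnp : n ≤ p := child_le_of_dy h4 hd
    obtain ⟨h5, h6⟩ := hi (n-1) (by omega) h4
    have h7 : m ≤ n - 1 - s := h2.S_le h6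
    refine ⟨by omega, ?_⟩
    exact ((h2.S_dy).sub (dy_w le_rfl)).mono (by omega)
  | @cl x t t' s s' n h1 h2 h3 h4 ih1 ih2 =>
    intro t'' s'' h
    cases h
    obtain ⟨hs, hi⟩ := ih1 t s rfl
    refine ⟨hs, fun p hp hd => ?_⟩
    have hnp : n ≤ p := child_le_of_dy h4 hd
    obtain ⟨h5, h6⟩ := hi (n-1) (by omega) h4
    refine ⟨by omega, ?_⟩
    exact (h6.mono (by omega)).sub (dy_w (by omega))

lemma St.L_shift_nonneg {x t : ℚ} {s : ℤ} (h : St x (Kd.L t s)) : 0 ≤ s :=
  (h.pos_inv t s rfl).1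

lemma St.L_pos {x t : ℚ} {s p : ℤ} (h : St x (Kd.L t s)) (hp : 0 ≤ p) (hd : Dy p x) :
    0 ≤ p - s ∧ Dy (p - s) t :=
  (h.pos_inv t s rfl).2 p hp hd

/-- children of limit pointers whose type pointer is tame -/
lemma T_child_of {x t : ℚ} {s n : ℤ} (h : St x (Kd.L t s)) (ht : T t) (hn : 1 ≤ n)
    (hd : Dy (n-1) x) : T (x - w n) := by
  obtain ⟨κ, hκ⟩ := ht
  cases κ with
  | Z =>
    have : t = 0 := by
      rcases hκ.inv with ⟨h, -⟩ | ⟨k, -, h⟩ | ⟨x', s, n, h1, h2, h3, h4, h5⟩ |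
        ⟨x', t, s, m', n, h1, h2, h3, h4, h5, h6⟩ | ⟨x', t, s, t', s', n, h1, h2, h3, h4, h5, h6⟩
      · exact h
      · cases h
      · cases h5
      · cases h6
      · cases h6
    subst this
    exact ⟨_, St.cz h hn hd⟩
  | S m => exact ⟨_, St.cs h hκ hn hd⟩
  | L t' s' => exact ⟨_, St.cl h hκ hn hd⟩

/-- the big closure: type pointers are tame, all single lower positions can be subtracted, predecessors tame -/
lemma St.carry {x : ℚ} {κ : Kd} (h : St x κ) :
    (∀ t s, κ = Kd.L t s → T t ∧ ∀ p, 0 ≤ p → Dy p x → T (x - w p)) ∧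
    (∀ m, κ = Kd.S m → T (x - w m)) := by
  induction h with
  | zero => exact ⟨fun t s h => (by cases h), fun m h => (by cases h)⟩
  | root k =>
    refine ⟨fun t s h => ?_, fun m h => by cases h⟩
    cases h
    refine ⟨T_nat k, fun p hp hd => ?_⟩
    rcases eq_or_lt_of_le hp with h0 | h0
    · subst h0
      rw [w_zero]
      simpa using T_nat k
    · refine T_child_of (St.root k) (T_nat k) (by omega) ?_
      exact (dy_nat (by omega) k).add (dy_one (by omega))
  | @cz x s n h1 h2 h3 ih =>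
    refine ⟨fun t s h => (by cases h), fun m h => ?_⟩
    cases h
    have := (ih.1 0 s rfl).2 (n-1) (by omega) h3
    rw [w_sub_one] at this
    have e : x - w n - w n = x - 2 * w n := by ring
    rwa [e]
  | @cs x t s m n h1 h2 h3 h4 ih1 ih2 =>
    refine ⟨fun t' s' h => ?_, fun m h => (by cases h)⟩
    cases h
    have ht := ih2.2 m rfl
    refine ⟨ht, fun p hp hd => ?_⟩
    have hnp : n ≤ p := child_le_of_dy h4 hd
    rcases eq_or_lt_of_le hnp with h0 | h0
    · subst h0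
      have := (ih1.1 t s rfl).2 (n-1) (by omega) h4
      rw [w_sub_one] at this
      have e : x - w n - w n = x - 2 * w n := by ring
      rwa [e]
    · exact T_child_of (St.cs h1 h2 h3 h4) ht (by omega) ((child_dy h4).mono (by omega))
  | @cl x t t' s s' n h1 h2 h3 h4 ih1 ih2 =>
    refine ⟨fun t'' s'' h => ?_, fun m h => (by cases h)⟩
    cases h
    obtain ⟨h5, h6⟩ := h1.L_pos (p := n-1) (by omega) h4
    have ht : T (t - w (n - s)) := (ih2.1 t' s' rfl).2 (n-s) (by omega) (h6.mono (by omega))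
    refine ⟨ht, fun p hp hd => ?_⟩
    have hnp : n ≤ p := child_le_of_dy h4 hd
    rcases eq_or_lt_of_le hnp with h0 | h0
    · subst h0
      have := (ih1.1 t s rfl).2 (n-1) (by omega) h4
      rw [w_sub_one] at this
      have e : x - w n - w n = x - 2 * w n := by ring
      rwa [e]
    · exact T_child_of (St.cl h1 h2 h3 h4) ht (by omega) ((child_dy h4).mono (by omega))

lemma St.T_type {x t : ℚ} {s : ℤ} (h : St x (Kd.L t s)) : T t := (h.carry.1 t s rfl).1

lemma St.T_sub {x t : ℚ} {s p : ℤ} (h : St x (Kd.L t s)) (hp : 0 ≤ p) (hd : Dy p x) : T (x - w p) :=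
  (h.carry.1 t s rfl).2 p hp hd

lemma St.T_pred {x : ℚ} {m : ℤ} (h : St x (Kd.S m)) : T (x - w m) := h.carry.2 m rfl

lemma T_child {x t : ℚ} {s n : ℤ} (h : St x (Kd.L t s)) (hn : 1 ≤ n)
    (hd : Dy (n-1) x) : T (x - w n) := T_child_of h h.T_type hn hd

/-- type bound and nonnegativity -/
lemma St.bound {x : ℚ} {κ : Kd} (h : St x κ) :
    (∀ t s, κ = Kd.L t s → t + 1 ≤ x ∧ 0 ≤ t) ∧ (∀ m, κ = Kd.S m → w m ≤ x ∧ 1 ≤ x + w m) ∧ 0 ≤ x := by
  induction h with
  | zero => exact ⟨fun t s h => (by cases h), fun m h => (by cases h), le_rfl⟩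
  | root k =>
    refine ⟨fun t s h => ?_, fun m h => (by cases h), by positivity⟩
    cases h
    exact ⟨le_rfl, by positivity⟩
  | @cz x s n h1 h2 h3 ih =>
    have h4 := (ih.1 0 s rfl).1
    have h5 : w n ≤ 1/2 := by
      have := w_le h2
      have e : w 1 = 1/2 := by have := w_add_one 0; rw [w_zero] at this; simpa using this
      linarith
    refine ⟨fun t s h => (by cases h), fun m h => ?_, by linarith⟩
    cases h
    constructor <;> linarith
  | @cs x t s m n h1 h2 h3 h4 ih1 ih2 =>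
    have h5 := (ih1.1 t s rfl).1
    have h6 := (ih2.2.1 m rfl)
    obtain ⟨h7, h8⟩ := h1.L_pos (p := n-1) (by omega) h4
    have h9 : m ≤ n := by
      have := h2.S_le h8
      have := h1.L_shift_nonneg
      omega
    have h10 := w_le h9
    have h11 := w_pos m
    refine ⟨fun t' s' h => ?_, fun m h => (by cases h), by linarith⟩
    cases h
    constructor <;> linarith
  | @cl x t t' s s' n h1 h2 h3 h4 ih1 ih2 =>
    have h5 := (ih1.1 t s rfl).1
    have h6 := (ih2.1 t' s' rfl)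
    obtain ⟨h7, h8⟩ := h1.L_pos (p := n-1) (by omega) h4
    have h9 := h1.L_shift_nonneg
    have h10 : w n ≤ w (n-s) := w_le (by omega)
    have h11 : w (n - s) ≤ 1 := by
      have := w_le (show (0:ℤ) ≤ n - s by omega)
      rwa [w_zero] at this
    have h12 := w_pos n
    refine ⟨fun t'' s'' h => ?_, fun m h => (by cases h), by linarith⟩
    cases h
    constructor <;> linarith

lemma T.nonneg {x : ℚ} (h : T x) : 0 ≤ x := by
  obtain ⟨κ, h⟩ := h
  exact h.bound.2.2

lemma St.L_bound {x t : ℚ} {s : ℤ} (h : St x (Kd.L t s)) : t + 1 ≤ x := (h.bound.1 t s rfl).1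

lemma St.L_nonneg {x t : ℚ} {s : ℤ} (h : St x (Kd.L t s)) : 0 ≤ t := (h.bound.1 t s rfl).2

lemma St.L_one_le {x t : ℚ} {s : ℤ} (h : St x (Kd.L t s)) : 1 ≤ x := by
  have := h.L_bound
  have := h.L_nonneg
  linarith

lemma w_one : w 1 = 1/2 := by have := w_add_one 0; rw [w_zero] at this; simpa using this

lemma St.S_half_le {x : ℚ} {m : ℤ} (h : St x (Kd.S m)) : 1/2 ≤ x := by
  have h1 := (h.bound.2.1 m rfl).2
  have h2 := w_le h.S_one_le
  rw [w_one] at h2
  linarith

/-- functionality of kinds -/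
lemma St.func {x : ℚ} {κ κ' : Kd} (h : St x κ) (h' : St x κ') : κ = κ' := by
  induction h generalizing κ' with
  | zero =>
    rcases h'.inv with ⟨-, h⟩ | ⟨k, h, -⟩ | ⟨x', s, n, h1, h2, h3, h4, h5⟩ |
        ⟨x', t, s, m', n, h1, h2, h3, h4, h5, h6⟩ | ⟨x', t, s, t', s', n, h1, h2, h3, h4, h5, h6⟩
    · exact h.symm
    · exfalso; have : (0:ℚ) ≤ k := by positivity
      linarith
    · exfalso; exact child_not_dy h3 (by omega : (0:ℤ) < n) (by rw [← h4]; exact dy_zero 0)
    · exfalso; exact child_not_dy h4 (by omega : (0:ℤ) < n) (by rw [← h5]; exact dy_zero 0)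
    · exfalso; exact child_not_dy h4 (by omega : (0:ℤ) < n) (by rw [← h5]; exact dy_zero 0)
  | root k =>
    have hk : Dy 0 ((k:ℚ)+1) := (dy_nat le_rfl k).add (dy_one le_rfl)
    rcases h'.inv with ⟨h, -⟩ | ⟨k', h, h0⟩ | ⟨x', s, n, h1, h2, h3, h4, h5⟩ |
        ⟨x', t, s, m', n, h1, h2, h3, h4, h5, h6⟩ | ⟨x', t, s, t', s', n, h1, h2, h3, h4, h5, h6⟩
    · exfalso; have : (0:ℚ) ≤ k := by positivity
      linarith
    · have : (k:ℚ) = k' := by linarith
      have : k = k' := by exact_mod_cast this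
      subst this
      exact h0.symm
    · exfalso; exact child_not_dy h3 (by omega : (0:ℤ) < n) (by rw [← h4]; exact hk)
    · exfalso; exact child_not_dy h4 (by omega : (0:ℤ) < n) (by rw [← h5]; exact hk)
    · exfalso; exact child_not_dy h4 (by omega : (0:ℤ) < n) (by rw [← h5]; exact hk)
  | @cz x s n h1 h2 h3 ih =>
    rcases h'.inv with ⟨h, -⟩ | ⟨k', h, h0⟩ | ⟨x', s', n', g1, g2, g3, g4, g5⟩ |
        ⟨x', t, s', m', n', g1, g2, g3, g4, g5, g6⟩ | ⟨x', t, s', t', s'', n', g1, g2, g3, g4, g5, g6⟩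
    · exfalso; exact child_not_dy h3 (by omega : (0:ℤ) < n) (by rw [h]; exact dy_zero 0)
    · exfalso; exact child_not_dy h3 (by omega : (0:ℤ) < n)
        (by rw [h]; exact (dy_nat le_rfl k').add (dy_one le_rfl))
    · obtain ⟨e1, e2⟩ := child_inj h3 g3 g4
      subst e1; subst e2
      exact g5.symm
    · obtain ⟨e1, e2⟩ := child_inj h3 g4 g5
      subst e1; subst e2
      have := ih g1
      cases this
      have := g2.S_half_le
      exfalso; linarith
    · obtain ⟨e1, e2⟩ := child_inj h3 g4 g5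
      subst e1; subst e2
      have := ih g1
      cases this
      have := g2.L_one_le
      exfalso; linarith
  | @cs x t s m n h1 h2 h3 h4 ih1 ih2 =>
    rcases h'.inv with ⟨h, -⟩ | ⟨k', h, h0⟩ | ⟨x', s', n', g1, g2, g3, g4, g5⟩ |
        ⟨x', t1, s', m', n', g1, g2, g3, g4, g5, g6⟩ | ⟨x', t1, s', t', s'', n', g1, g2, g3, g4, g5, g6⟩
    · exfalso; exact child_not_dy h4 (by omega : (0:ℤ) < n) (by rw [h]; exact dy_zero 0)
    · exfalso; exact child_not_dy h4 (by omega : (0:ℤ) < n)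
        (by rw [h]; exact (dy_nat le_rfl k').add (dy_one le_rfl))
    · obtain ⟨e1, e2⟩ := child_inj h4 g3 g4
      subst e1; subst e2
      have := ih1 g1
      cases this
      have := h2.S_half_le
      exfalso; linarith
    · obtain ⟨e1, e2⟩ := child_inj h4 g4 g5
      subst e1; subst e2
      have := ih1 g1
      cases this
      have := ih2 g2
      cases this
      exact g6.symm
    · obtain ⟨e1, e2⟩ := child_inj h4 g4 g5
      subst e1; subst e2
      have := ih1 g1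
      cases this
      have := ih2 g2
      cases this
  | @cl x t t0 s s0 n h1 h2 h3 h4 ih1 ih2 =>
    rcases h'.inv with ⟨h, -⟩ | ⟨k', h, h0⟩ | ⟨x', s', n', g1, g2, g3, g4, g5⟩ |
        ⟨x', t1, s', m', n', g1, g2, g3, g4, g5, g6⟩ | ⟨x', t1, s', t', s'', n', g1, g2, g3, g4, g5, g6⟩
    · exfalso; exact child_not_dy h4 (by omega : (0:ℤ) < n) (by rw [h]; exact dy_zero 0)
    · exfalso; exact child_not_dy h4 (by omega : (0:ℤ) < n)
        (by rw [h]; exact (dy_nat le_rfl k').add (dy_one le_rfl))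
    · obtain ⟨e1, e2⟩ := child_inj h4 g3 g4
      subst e1; subst e2
      have := ih1 g1
      cases this
      have := h2.L_one_le
      exfalso; linarith
    · obtain ⟨e1, e2⟩ := child_inj h4 g4 g5
      subst e1; subst e2
      have := ih1 g1
      cases this
      have := ih2 g2
      cases this
    · obtain ⟨e1, e2⟩ := child_inj h4 g4 g5
      subst e1; subst e2
      have := ih1 g1
      cases this
      exact g6.symm

lemma St.L_inj {x t t' : ℚ} {s s' : ℤ} (h : St x (Kd.L t s)) (h' : St x (Kd.L t' s')) :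
    t = t' ∧ s = s' := by
  have := h.func h'
  cases this
  exact ⟨rfl, rfl⟩

lemma St.S_inj {x : ℚ} {m m' : ℤ} (h : St x (Kd.S m)) (h' : St x (Kd.S m')) : m = m' := by
  have := h.func h'
  cases this
  rfl

lemma St.Z_eq {x : ℚ} (h : St x Kd.Z) : x = 0 := by
  rcases h.inv with ⟨h, -⟩ | ⟨k, -, h⟩ | ⟨x', s, n, h1, h2, h3, h4, h5⟩ |
        ⟨x', t, s, m', n, h1, h2, h3, h4, h5, h6⟩ | ⟨x', t, s, t', s', n, h1, h2, h3, h4, h5, h6⟩
  · exact h
  · cases h
  · cases h5
  · cases h6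
  · cases h6

/-- every tame element is 0, a successor or a limit -/
lemma T.cases {x : ℚ} (h : T x) : x = 0 ∨ (∃ m, St x (Kd.S m)) ∨ (∃ t s, St x (Kd.L t s)) := by
  obtain ⟨κ, h⟩ := h
  cases κ with
  | Z => exact Or.inl h.Z_eq
  | S m => exact Or.inr (Or.inl ⟨m, h⟩)
  | L t s => exact Or.inr (Or.inr ⟨t, s, h⟩)

/-- tree property -/
lemma T.ancestor {z v : ℚ} {p : ℤ} (h : T z) (hp : 0 ≤ p) (hv : Dy p v) (h1 : v - w p < z) (h2 : z ≤ v) :
    z = v ∨ ∃ t s, St v (Kd.L t s) := by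
  obtain ⟨κ, h⟩ := h
  induction h with
  | zero =>
    left
    have : Dy p (0 - v) := (dy_zero p).sub hv
    have := this.eq_zero_of_lt (by linarith [w_pos p]) (by linarith)
    linarith
  | root k =>
    left
    have : Dy p (((k:ℚ)+1) - v) := ((dy_nat hp k).add (dy_one hp)).sub hv
    have := this.eq_zero_of_lt (by linarith [w_pos p]) (by linarith)
    linarith
  | @cz x s n g1 g2 g3 ih =>
    by_cases hn : n ≤ p
    · left
      have : Dy p (x - w n - v) := ((child_dy g3).mono hn).sub hv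
      have := this.eq_zero_of_lt (by linarith [w_pos p]) (by linarith)
      linarith
    · right
      have hx : Dy (n-1) (x - v) := g3.sub (hv.mono (by omega))
      have hxv : x ≤ v := by
        by_contra hc
        have := hx.le_of_pos (by linarith)
        rw [w_sub_one] at this
        have := w_pos n
        linarith
      rcases ih (by linarith [w_pos n]) hxv with h | h
      · subst h; exact ⟨_, _, g1⟩
      · exact h
  | @cs x t s m n g1 g2 g3 g4 ih ih' =>
    by_cases hn : n ≤ p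
    · left
      have : Dy p (x - w n - v) := ((child_dy g4).mono hn).sub hv
      have := this.eq_zero_of_lt (by linarith [w_pos p]) (by linarith)
      linarith
    · right
      have hx : Dy (n-1) (x - v) := g4.sub (hv.mono (by omega))
      have hxv : x ≤ v := by
        by_contra hc
        have := hx.le_of_pos (by linarith)
        rw [w_sub_one] at this
        have := w_pos n
        linarith
      rcases ih (by linarith [w_pos n]) hxv with h | h
      · subst h; exact ⟨_, _, g1⟩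
      · exact h
  | @cl x t t0 s s0 n g1 g2 g3 g4 ih ih' =>
    by_cases hn : n ≤ p
    · left
      have : Dy p (x - w n - v) := ((child_dy g4).mono hn).sub hv
      have := this.eq_zero_of_lt (by linarith [w_pos p]) (by linarith)
      linarith
    · right
      have hx : Dy (n-1) (x - v) := g4.sub (hv.mono (by omega))
      have hxv : x ≤ v := by
        by_contra hc
        have := hx.le_of_pos (by linarith)
        rw [w_sub_one] at this
        have := w_pos n
        linarith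
      rcases ih (by linarith [w_pos n]) hxv with h | h
      · subst h; exact ⟨_, _, g1⟩
      · exact h

/-- no tame element strictly between the predecessor and a successor -/
lemma gap {y z : ℚ} {m : ℤ} (hy : St y (Kd.S m)) (hz : T z) (h : z < y) : z ≤ y - w m := by
  by_contra hc
  rcases hz.ancestor (by have := hy.S_one_le; omega) hy.S_dy (not_le.mp hc) h.le with h1 | ⟨t, s, h1⟩
  · linarith
  · have := hy.func h1
    cases this

/-- every tame element is dyadic -/
lemma T.dy {x : ℚ} (h : T x) : ∃ p, 0 ≤ p ∧ Dy p x := by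
  obtain ⟨κ, h⟩ := h
  rcases h.inv with ⟨h, -⟩ | ⟨k, h, -⟩ | ⟨x', s, n, h1, h2, h3, h4, h5⟩ |
        ⟨x', t, s, m', n, h1, h2, h3, h4, h5, h6⟩ | ⟨x', t, s, t', s', n, h1, h2, h3, h4, h5, h6⟩
  · exact ⟨0, le_rfl, by rw [h]; exact dy_zero 0⟩
  · exact ⟨0, le_rfl, by rw [h]; exact (dy_nat le_rfl k).add (dy_one le_rfl)⟩
  · exact ⟨n, by omega, by rw [h4]; exact child_dy h3⟩
  · exact ⟨n, by omega, by rw [h5]; exact child_dy h4⟩
  · exact ⟨n, by omega, by rw [h5]; exact child_dy h4⟩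

/-- x+1 is a limit of type (x,0) -/
lemma St.add_one {x : ℚ} {κ : Kd} (h : St x κ) : St (x+1) (Kd.L x 0) := by
  induction h with
  | zero => have := St.root 0; simpa using this
  | root k => have := St.root (k+1); push_cast at this; exact this
  | @cz x s n h1 h2 h3 ih =>
    have := St.cl (n := n) ih h1 h2 (h3.add (dy_one (by omega)))
    rw [sub_zero] at this
    rw [show x - w n + 1 = x + 1 - w n by ring]
    exact this
  | @cs x t s m n h1 h2 h3 h4 ih1 ih2 =>
    have := St.cl (n := n) ih1 h1 h3 (h4.add (dy_one (by omega)))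
    rw [sub_zero] at this
    rw [show x - w n + 1 = x + 1 - w n by ring]
    exact this
  | @cl x t t' s s' n h1 h2 h3 h4 ih1 ih2 =>
    have := St.cl (n := n) ih1 h1 h3 (h4.add (dy_one (by omega)))
    rw [sub_zero] at this
    rw [show x - w n + 1 = x + 1 - w n by ring]
    exact this

lemma T.add_one {x : ℚ} (h : T x) : T (x+1) := by
  obtain ⟨κ, h⟩ := h
  exact ⟨_, h.add_one⟩

end Pool.Agent.Helper820
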