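import Pool.Agent.Helper820.FusLim

set_option autoImplicit false

namespace Pool.Agent.Helper820

lemma w_neg_one : w (-1) = 2 := by
  have := w_sub_one 0
  rw [w_zero] at this; simpa using this

/-- type zero -/
lemma zero_case {g Λ b2 : ℚ} {s e f : ℤ} (hg : St g (Kd.L 0 s)) (he : 0 ≤ e) (hde : Dy e g) (eΛ : Λ = g - w e)
    (hΛ : T Λ) (hf : e < f) (hb : T (Λ + 1 - b2)) (hb0 : 0 < b2) (hbe : b2 < w e) :
    T ((g - w f + (Λ + 1 - b2) + 1)/2) := by
  have hwe : w e = 2 * w (e+1) := by rw [w_add_one]; ring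
  have hdΛ : Dy e Λ := by rw [eΛ]; exact hde.sub (dy_w le_rfl)
  have hbd : ∃ q, Dy q b2 := by
    have := dyex_sub (dyex_add hΛ.dyex dyex_one) hb.dyex
    rwa [show Λ + 1 - (Λ + 1 - b2) = b2 by ring] at this
  have hwf := w_pos f
  have hwfe : w f ≤ w (e+1) := w_le (by omega)
  have hP : St (g - w (e+1)) (Kd.S (e+1)) := St.cz hg (by omega) (by rw [show e + 1 - 1 = e by ring]; exact hde)
  have hdP : Dy (e+1) (g - w (e+1)) := child_dy (by rw [show e + 1 - 1 = e by ring]; exact hde)
  rcases lt_trichotomy (w f + b2) (w e) with h | h | h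
  · obtain ⟨X, kX, wX, hX0, hSX⟩ := exists_str (x := g - w (e+1)) (e := e+1) (r := (w f + b2)/2) (by omega) hdP
      (dyex_half (dyex_add (dyex_w _) hbd)) (by linarith) (by linarith)
    obtain ⟨Y, kb, wY, hY0, hSY⟩ := exists_str he hdΛ hbd hb0.le hbe
    have hrun : Run (g - w (e+1)) X Λ 1 0 := by
      refine Run.suc hP ?_
      rw [show g - w (e+1) - w (e+1) = Λ by rw [eΛ, hwe]; ring]
      exact Run.refl _ _
    have hd := dom_of_cnt (c := 1) wY.sm (sh_mono wX.sm 0 1) (k := kb) (k' := kX) (fun q => by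
      rw [S_shift, hSX, hSY, w_neg_one, show (w f + b2)/2 * 2 = b2 + w f by ring]
      exact cnt_add_w hb0.le)
    rw [show (g - w f + (Λ + 1 - b2) + 1)/2 = g - w (e+1) + 1 - S X kX by rw [hSX, eΛ, hwe]; ring]
    refine travel ⟨_, hP⟩ hΛ wX wY hrun (by rw [hSY]; exact hb) ?_
    intro i hi
    obtain ⟨g1, g2⟩ := hd i hi
    refine ⟨g1, ?_⟩
    rw [sh_apply] at g2
    push_cast
    exact g2
  · rw [show (g - w f + (Λ + 1 - b2) + 1)/2 = Λ + 1 by linarith]
    exact hΛ.add_one
  · rw [show (g - w f + (Λ + 1 - b2) + 1)/2 = Λ + 1 - (w f + b2 - w e)/2 by rw [eΛ]; ring]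
    refine T_mono (b := b2) (e := e) hΛ hΛ le_rfl he hdΛ hdΛ hb hb0.le hbe
      (dyex_half (dyex_sub (dyex_add (dyex_w _) hbd) (dyex_w _))) (by linarith) (by linarith) ?_
    intro q
    have h1 : cnt q b2 = cnt q (w e - w f) + cnt q (w f + b2 - w e) := by
      conv_lhs => rw [show b2 = (w e - w f) + (w f + b2 - w e) by ring]
      exact cnt_disj (n := f) ((dy_w hf.le).sub (dy_w le_rfl)) (by linarith [w_lt hf]) (by linarith) (by linarith)
    rw [cnt_half]
    have h2 : cnt (q-1) (w f + b2 - w e) ≤ cnt q (w f + b2 - w e) := cnt_mono (by linarith) (by omega)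
    omega

lemma ceil_w {x : ℚ} (e : ℤ) : x ≤ ⌈x / w e⌉ * w e ∧ (⌈x / w e⌉ - 1) * w e < x := by
  have hw := w_pos e
  constructor
  · have := Int.le_ceil (x / w e)
    rwa [div_le_iff₀ hw] at this
  · have := Int.ceil_lt_add_one (x / w e)
    have h2 : (⌈x / w e⌉ : ℚ) - 1 < x / w e := by linarith
    rwa [lt_div_iff₀ hw] at h2

/-- the branching point of two numbers -/
lemma branch {A B : ℚ} (hlt : B < A) (hle : A ≤ B + 1) : ∃ (e : ℤ) (g : ℚ), 0 ≤ e ∧
    ((1 ≤ e ∧ Dy (e-1) g) ∨ (e = 0 ∧ Dy 0 g)) ∧ g - w e < A ∧ A ≤ g ∧ B ≤ g - w e ∧ g - 2 * w e < B := by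
  classical
  have hex : ∃ n : ℕ, ⌈A / w n⌉ ≠ ⌈B / w n⌉ := by
    obtain ⟨n, hn⟩ := exists_w_lt 0 (show 0 < A - B by linarith)
    rw [zero_add] at hn
    refine ⟨n, fun he => ?_⟩
    have h1 := (ceil_w (x := A) n).1
    have h2 := (ceil_w (x := B) n).2
    rw [he] at h1
    have : ((⌈B / w n⌉ : ℚ) - 1) * w n = ⌈B / w n⌉ * w n - w n := by ring
    linarith
  have hne := Nat.find_spec hex
  have hmin := @Nat.find_min _ _ hex
  set n := Nat.find hex with hn
  have hmono : ⌈B / w n⌉ ≤ ⌈A / w n⌉ := Int.ceil_le_ceil (div_le_div_of_nonneg_right hlt.le (w_pos _).le)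
  have hlt' : ⌈B / w n⌉ + 1 ≤ ⌈A / w n⌉ := by omega
  obtain ⟨hA1, hA2⟩ := ceil_w (x := A) n
  obtain ⟨hB1, hB2⟩ := ceil_w (x := B) n
  have hwn := w_pos (n:ℤ)
  rcases Nat.eq_zero_or_pos n with h0 | h0
  · -- e = 0
    rw [h0] at hA1 hA2 hB1 hB2 hlt'
    push_cast at hA1 hA2 hB1 hB2 hlt'
    rw [w_zero] at hA1 hA2 hB1 hB2 hlt'
    simp only [div_one, mul_one] at hA1 hA2 hB1 hB2 hlt'
    have h3 : (⌈B⌉ : ℚ) + 1 ≤ ⌈A⌉ := by exact_mod_cast hlt'
    refine ⟨0, ⌈A⌉, le_rfl, Or.inr ⟨rfl, ⟨⌈A⌉, by rw [w_zero, mul_one]⟩⟩, ?_, hA1, ?_, ?_⟩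
    · rw [w_zero]; exact hA2
    · rw [w_zero]; linarith
    · rw [w_zero]; linarith
  · obtain ⟨m, hm⟩ : ∃ m, n = m + 1 := ⟨n - 1, by omega⟩
    have heq : ⌈A / w m⌉ = ⌈B / w m⌉ := by
      by_contra hc
      exact hmin (show m < n by omega) hc
    obtain ⟨hA3, hA4⟩ := ceil_w (x := A) m
    obtain ⟨hB3, hB4⟩ := ceil_w (x := B) m
    rw [heq] at hA3 hA4
    set z := ⌈B / w m⌉ with hz
    have hwm : w (m:ℤ) = 2 * w (n:ℤ) := by
      rw [hm]; push_cast; rw [w_add_one]; ring
    rw [hwm] at hA3 hA4 hB3 hB4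
    -- ceilings at level n
    have h1 : ⌈A / w n⌉ ≤ 2 * z := by
      rw [Int.ceil_le, div_le_iff₀ hwn]; push_cast; linarith
    have h2 : 2 * z - 1 ≤ ⌈B / w n⌉ := by
      have : 2 * z - 2 < ⌈B / w n⌉ := by
        rw [Int.lt_ceil, lt_div_iff₀ hwn]; push_cast; linarith
      omega
    have h3 : ⌈A / w n⌉ = 2 * z := by omega
    have h4 : ⌈B / w n⌉ = 2 * z - 1 := by omega
    rw [h3] at hA1 hA2
    rw [h4] at hB1 hB2
    push_cast at hA1 hA2 hB1 hB2
    refine ⟨n, z * w m, by omega, Or.inl ⟨by omega, ⟨z, by congr 2; omega⟩⟩, ?_, ?_, ?_, ?_⟩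
    · rw [hwm]; linarith
    · rw [hwm]; linarith
    · rw [hwm]; linarith
    · rw [hwm]; linarith

/-- the inductive step -/
lemma step_closure {a b : ℚ} (ha : T a) (hb : T b) (hab : a ≤ b) (hba : b < a + 1) (ih : IH a b) :
    T ((a + b + 1)/2) := by
  obtain ⟨e, g, he, hcase, h1, h2, h3, h4⟩ := branch (A := a) (B := b - 1) (by linarith) (by linarith)
  have hde : Dy e g := by
    rcases hcase with ⟨-, h⟩ | ⟨h, h'⟩
    · exact h.mono (by omega)
    · rw [h]; exact h'
  have hwe := w_pos e
  have hwe1 : w e ≤ 1 := by rw [← w_zero]; exact w_le he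
  set b2 := g - w e - (b - 1) with hb2
  have hb20 : 0 ≤ b2 := by linarith
  have hb2e : b2 < w e := by linarith
  have hbv : b = g - w e + 1 - b2 := by rw [hb2]; ring
  rcases eq_or_lt_of_le h2 with hag | hag
  · -- a = g
    subst hag
    rw [show (a + b + 1)/2 = a + 1 - (w e + b2)/2 by rw [hbv]; ring]
    rcases hcase with ⟨he1, hd⟩ | ⟨he0, hd⟩
    · have hw2 : w (e-1) = 2 * w e := w_sub_one e
      refine T_mono (b := w e + b2) (e := e-1) ha ha le_rfl (by omega) hd hd ?_ (by linarith) (by linarith) ?_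
        (by linarith) (by linarith) ?_
      · rw [show a + 1 - (w e + b2) = b by rw [hbv]; ring]; exact hb
      · exact dyex_half (dyex_add (dyex_w _) (by
          rw [hb2]; exact dyex_sub (dyex_sub ha.dyex (dyex_w _)) (dyex_sub hb.dyex dyex_one)))
      · intro q
        rw [cnt_half]; exact cnt_mono (by linarith) (by omega)
    · subst he0
      rw [w_zero] at *
      have : b2 = 0 := by linarith
      rw [this, add_zero]
      obtain ⟨κ, hκ⟩ := ha
      have := T_child hκ.add_one (n := 1) le_rfl (by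
        rw [show (1:ℤ) - 1 = 0 by ring]; exact hd.add (dy_one le_rfl))
      rwa [w_one] at this
  · -- a < g
    have hglim : ∃ t s, St g (Kd.L t s) := by
      rcases ha.ancestor he hde h1 h2 with h | h
      · linarith
      · exact h
    obtain ⟨t, s, hg⟩ := hglim
    obtain ⟨hes, hdt⟩ := hg.L_pos he hde
    have hs0 := hg.L_shift_nonneg
    have hgb := hg.L_bound
    have hadd : ∃ q, Dy q (g - a) := dyex_sub (T.dyex ⟨_, hg⟩) ha.dyex
    obtain ⟨q0, hq0⟩ := hadd
    obtain ⟨φ, k, hφ, hφ0, hSφ⟩ := exists_seq (n := e) (by linarith) hq0 (show g - a < w e by linarith)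
    have hk : k ≠ 0 := by
      intro h; rw [h, S_zero] at hSφ; linarith
    obtain ⟨p, rfl⟩ := Nat.exists_eq_succ_of_ne_zero hk
    rw [Nat.succ_eq_add_one] at hSφ
    have hav : a = g - S φ (p+1) := by rw [hSφ]; ring
    have wfg : Wf g φ := ⟨hφ, by omega, hde.mono (by omega)⟩
    have wft : Wf t (sh φ 0 s) := by
      refine ⟨sh_mono hφ _ _, ?_, ?_⟩
      · simp only [sh_apply, Nat.add_zero]; omega
      · simp only [sh_apply, Nat.add_zero]; exact hdt.mono (by omega)
    have hRkt : Rk p t (sh φ 0 s) := link_down p g t s φ hg wfg (by rw [← hav]; exact ha)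
    have hTΛ : T (g - w e) := hg.T_sub he hde
    rcases eq_or_lt_of_le hb20 with hb0 | hb0
    · -- b2 = 0
      have hwe2 : w e = 2 * w (e+1) := by rw [w_add_one]; ring
      have hTP : T (g - w (e+1)) := hg.T_sub (by omega) (hde.mono (by omega))
      have hdP : Dy (e+1) (g - w (e+1)) := (hde.mono (by omega)).sub (dy_w le_rfl)
      rw [show (a + b + 1)/2 = g - w (e+1) + 1 - S φ (p+1)/2 by rw [hbv, ← hb0, hav, hwe2]; ring]
      refine T_of_Rk (e := e+1) hg.T_type hTP (by linarith) wft hRkt (by omega) hdP (dyex_half (S_dyex hφ _)) ?_ ?_ ?_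
      · have := S_nonneg φ (p+1); linarith
      · have := S_lt hφ hφ0 (p+1); linarith
      · intro q
        rw [cnt_half, S_shift, cnt_mul_w]
        exact cnt_mono (S_nonneg _ _) (by omega)
    · rcases hg.T_type.cases with ht | ⟨m0, ht⟩ | ⟨u, v, ht⟩
      · -- type zero
        subst ht
        have hp0 := Rk_zero_eq hRkt
        subst hp0
        have hS1 : S φ (0+1) = w (φ 0) := by rw [S_succ, S_zero, zero_add]
        rw [hS1] at hav
        have := zero_case (b2 := b2) hg he hde rfl hTΛ hφ0 (by rw [← hbv]; exact hb) hb0 hb2e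
        rw [← hav, ← hbv] at this
        exact this
      · -- successor type
        have he1 : 1 ≤ e ∧ Dy (e-1) g := by
          rcases hcase with h | ⟨h, h'⟩
          · exact h
          · exfalso
            subst h
            have := ht.S_le hdt
            have := ht.S_one_le
            omega
        have hus : US g t s m0 e (g - w e) (s+1) φ p b2 :=
          ⟨hg, ht, St.cs hg ht he1.1 he1.2, le_rfl, he, hde, rfl, hφ, hφ0, by rw [← hav]; exact ha,
            by rw [← hbv]; exact hb, hb0, hb2e⟩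
        have := hus.main (by rw [← hav, ← hbv]; exact ih)
        rwa [← hav, ← hbv] at this
      · -- limit type
        have hb2d : ∃ q, Dy q b2 := by
          rw [hb2]; exact dyex_sub (dyex_sub (T.dyex ⟨_, hg⟩) (dyex_w _)) (dyex_sub hb.dyex dyex_one)
        obtain ⟨q1, hq1⟩ := hb2d
        obtain ⟨Y, kY, hY, hY0, hSY⟩ := exists_seq (n := e) hb20 hq1 hb2e
        have hkY : kY ≠ 0 := by
          intro h; rw [h, S_zero] at hSY; linarith
        obtain ⟨kb, rfl⟩ := Nat.exists_eq_succ_of_ne_zero hkY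
        rw [Nat.succ_eq_add_one] at hSY
        have hls : LS g t s e (g - w e) φ p Y kb := by
          refine ⟨hg, ⟨u, v, ht⟩, he, hde, rfl, ?_, ?_, hφ, hφ0, by rw [← hav]; exact ha, hY, hY0,
            by rw [hSY, ← hbv]; exact hb, ?_⟩
          · rcases hcase with ⟨g1, g2⟩ | ⟨g1, g2⟩
            · exact St.cl hg ht g1 g2
            · subst g1
              have hs : s = 0 := by omega
              subst hs
              rcases hg.inv with ⟨-, h⟩ | ⟨k, h, h0⟩ | ⟨x', s', n', f1, f2, f3, f4, f5⟩ |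
                ⟨x', t1, s1, m', n', f1, f2, f3, f4, f5, f6⟩ | ⟨x', t1, s1, t2, s2, n', f1, f2, f3, f4, f5, f6⟩
              · cases h
              · cases h0
                cases k with
                | zero =>
                  exfalso
                  have := ht.L_one_le
                  push_cast at this
                  linarith
                | succ k =>
                  have := St.root k
                  rw [show (0:ℤ) - 0 = 0 by ring, w_zero, h]
                  push_cast
                  rw [show (k:ℚ) + 1 + 1 - 1 = k + 1 by ring, show (k:ℚ) + 1 - 1 = k by ring]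
                  exact this
              · cases f5
              · exfalso
                rw [f5] at g2
                have := child_le_of_dy f4 g2
                omega
              · exfalso
                rw [f5] at g2
                have := child_le_of_dy f4 g2
                omega
          · intro r hr0 hr1
            rcases hcase with ⟨g1, g2⟩ | ⟨g1, g2⟩
            · exact ⟨iso_down hg (by omega) g2 hr0 hr1, iso_up hg (by omega) g2 hr0 hr1⟩
            · subst g1
              have hs : s = 0 := by omega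
              subst hs
              have hgt : g = t + 1 := by
                rcases hg.inv with ⟨-, h⟩ | ⟨k, h, h0⟩ | ⟨x', s', n', f1, f2, f3, f4, f5⟩ |
                  ⟨x', t1, s1, m', n', f1, f2, f3, f4, f5, f6⟩ | ⟨x', t1, s1, t2, s2, n', f1, f2, f3, f4, f5, f6⟩
                · cases h
                · cases h0; exact h
                · cases f5
                · exfalso
                  rw [f5] at g2
                  have := child_le_of_dy f4 g2
                  omega
                · exfalso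
                  rw [f5] at g2
                  have := child_le_of_dy f4 g2
                  omega
              rw [neg_zero, w_zero, mul_one, ← hgt]
          · rw [hSY, hSφ]; linarith
        have hbv2 : g - w e + 1 - S Y (kb+1) = b := by rw [hSY, hbv]
        have := hls.main (by rw [← hav, hbv2]; exact ih)
        rwa [← hav, hbv2] at this

lemma T_isWF : ({x : ℚ | T x}).IsWF := by
  rw [Set.IsWF, Set.wellFoundedOn_iff]
  constructor
  intro x
  have key : ∀ x, T x → Acc (fun a b : ℚ => a < b ∧ a ∈ {x | T x} ∧ b ∈ {x | T x}) x := by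
    refine T_induct ?_
    intro x hx ih
    exact Acc.intro _ fun y hy => ih y hy.2.1 hy.1
  by_cases hx : T x
  · exact key x hx
  · exact Acc.intro _ fun y hy => absurd hy.2.2 hx

open scoped Pointwise in
theorem closure_T : ∀ a b, T a → T b → |a - b| < 1 → T ((a + b + 1)/2) := by
  have hwf : (({x : ℚ | T x}) + {x : ℚ | T x}).IsWF := T_isWF.add T_isWF
  rw [Set.IsWF, Set.wellFoundedOn_iff] at hwf
  have key : ∀ c : ℚ, ∀ a, T a → ∀ b, T b → a + b = c → |a - b| < 1 → T ((a + b + 1)/2) := by
    intro c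
    induction c using hwf.induction with
    | _ c IHc =>
      refine T_induct (P := fun a => ∀ b, T b → a + b = c → |a - b| < 1 → T ((a + b + 1)/2)) ?_
      intro a ha IHa b hb hc hab
      rcases lt_or_ge b a with hlt | hge
      · have := IHa b hb hlt a ha (by linarith) (by rw [abs_sub_comm]; exact hab)
        rwa [add_comm b a] at this
      · rw [abs_lt] at hab
        refine step_closure ha hb hge (by linarith) ⟨?_, ?_⟩
        · intro a' b' ha' hb' hab' hs
          refine IHc (a' + b') ⟨by rw [← hc]; exact hs, Set.add_mem_add ha' hb', ?_⟩ a' ha' b' hb' rfl hab'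
          rw [← hc]; exact Set.add_mem_add ha hb
        · intro a' b' ha' hb' hs hlt' hlt2
          refine IHa a' ha' hlt' b' hb' (by rw [hs, hc]) ?_
          rw [abs_lt]; constructor <;> linarith
  intro a b ha hb hab
  exact key _ a ha b hb rfl hab

end Pool.Agent.Helper820
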