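import Pool.Agent.Helper820.FusFinal

set_option autoImplicit false

namespace Pool.Agent.Helper820

/-- number of binary digits one -/
def pc (n : ℕ) : ℕ := (Nat.digits 2 n).sum

lemma pc_zero : pc 0 = 0 := by simp [pc]

lemma pc_eq (n : ℕ) : pc n = n % 2 + pc (n / 2) := by
  rcases Nat.eq_zero_or_pos n with h | h
  · subst h; simp [pc]
  · unfold pc
    rw [Nat.digits_def' (by norm_num) h, List.sum_cons]

lemma pc_one : pc 1 = 1 := by rw [pc_eq]; simp [pc_zero]

lemma pc_add_le : ∀ (n a b : ℕ), a + b ≤ n → pc (a + b) ≤ pc a + pc b := by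
  intro n
  induction n using Nat.strong_induction_on with
  | _ n ih =>
    intro a b hab
    rcases Nat.eq_zero_or_pos a with ha | ha
    · subst ha; simp [pc_zero]
    rcases Nat.eq_zero_or_pos b with hb | hb
    · subst hb; simp [pc_zero]
    rcases Nat.lt_or_ge (a + b) n with hlt | hge
    · exact ih (a+b) hlt a b le_rfl
    have hn : n = a + b := by omega
    rw [pc_eq (a+b), pc_eq a, pc_eq b]
    by_cases h : a % 2 + b % 2 < 2
    · have h1 : (a + b) % 2 = a % 2 + b % 2 := by omega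
      have h2 : (a + b) / 2 = a / 2 + b / 2 := by omega
      rw [h1, h2]
      have := ih (a/2 + b/2) (by omega) (a/2) (b/2) le_rfl
      omega
    · have h1 : (a + b) % 2 = 0 := by omega
      have h2 : (a + b) / 2 = (a / 2 + b / 2) + 1 := by omega
      rw [h1, h2]
      have h3 := ih (a/2 + b/2) (by omega) (a/2) (b/2) le_rfl
      rcases Nat.lt_or_ge ((a / 2 + b / 2) + 1) n with h4 | h4
      · have := ih ((a / 2 + b / 2) + 1) h4 (a/2+b/2) 1 le_rfl
        rw [pc_one] at this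
        omega
      · have ha1 : a = 1 := by omega
        have hb1 : b = 1 := by omega
        subst ha1; subst hb1
        simp [pc_zero, pc_one]

lemma pc_add (a b : ℕ) : pc (a + b) ≤ pc a + pc b := pc_add_le (a+b) a b le_rfl

lemma pc_disj (k : ℕ) : ∀ a b : ℕ, b < 2^k → pc (2^k * a + b) = pc a + pc b := by
  induction k with
  | zero =>
    intro a b hb
    have : b = 0 := by simpa using hb
    subst this; simp [pc_zero]
  | succ k ih =>
    intro a b hb
    have h1 : (2^(k+1) * a + b) % 2 = b % 2 := by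
      rw [pow_succ, show 2^k * 2 * a + b = b + 2 * (2^k * a) by ring, Nat.add_mul_mod_self_left]
    have h2 : (2^(k+1) * a + b) / 2 = 2^k * a + b / 2 := by
      rw [pow_succ, show 2^k * 2 * a + b = b + 2 * (2^k * a) by ring, Nat.add_mul_div_left _ _ (by norm_num)]
      ring
    rw [pc_eq (2^(k+1) * a + b), h1, h2, ih a (b/2) (by rw [pow_succ] at hb; omega), pc_eq b]
    ring

lemma pc_pos : ∀ n : ℕ, 1 ≤ n → 1 ≤ pc n := by
  intro n
  induction n using Nat.strong_induction_on with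
  | _ n ih =>
    intro h
    rw [pc_eq]
    rcases Nat.eq_zero_or_pos (n % 2) with h1 | h1
    · have := ih (n/2) (by omega) (by omega)
      omega
    · omega

lemma pc_two_pow_mul (k a : ℕ) : pc (2^k * a) = pc a := by
  have := pc_disj k a 0 (by positivity)
  simpa [pc_zero] using this

lemma pc_two_pow (k : ℕ) : pc (2^k) = 1 := by
  have := pc_two_pow_mul k 1
  simpa [pc_one] using this

/-- number of binary digits of r at positions at most q -/
def cnt (q : ℤ) (r : ℚ) : ℕ := pc ⌊r / w q⌋₊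

lemma w_div (m n : ℤ) : w m / w n = w (m - n) := by
  rw [div_eq_iff (w_pos n).ne', ← w_add]; congr 1; ring

lemma w_neg_nat (k : ℕ) : w (-(k:ℤ)) = ((2^k : ℕ) : ℚ) := by
  unfold w; rw [neg_neg, zpow_natCast]; push_cast; rfl

lemma cnt_zero (q : ℤ) : cnt q 0 = 0 := by simp [cnt, pc_zero]

lemma cnt_eq_zero {q : ℤ} {r : ℚ} (h : r < w q) : cnt q r = 0 := by
  unfold cnt
  rw [Nat.floor_eq_zero.mpr, pc_zero]
  rw [div_lt_one (w_pos q)]; exact h

lemma cnt_pos {q : ℤ} {r : ℚ} (h : w q ≤ r) : 1 ≤ cnt q r := by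
  unfold cnt
  apply pc_pos
  rw [Nat.one_le_floor_iff]
  rw [le_div_iff₀ (w_pos q)]; linarith

lemma cnt_add_w {q u : ℤ} {r : ℚ} (h : 0 ≤ r) : cnt q (r + w u) ≤ cnt q r + 1 := by
  unfold cnt
  rw [add_div, w_div]
  have h0 : 0 ≤ r / w q := div_nonneg h (w_pos q).le
  rcases le_or_gt u q with hu | hu
  · obtain ⟨k, hk⟩ := Int.le.dest hu
    have : w (u - q) = ((2^k : ℕ) : ℚ) := by rw [← w_neg_nat]; congr 1; omega
    rw [this, Nat.floor_add_natCast h0]
    have := pc_add ⌊r / w q⌋₊ (2^k)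
    rw [pc_two_pow] at this
    exact this
  · have h1 : w (u - q) < 1 := by rw [← w_zero]; exact w_lt (by omega)
    have h2 := w_pos (u - q)
    have h3 : ⌊r / w q⌋₊ ≤ ⌊r / w q + w (u-q)⌋₊ := Nat.floor_le_floor (by linarith)
    have h4 : ⌊r / w q + w (u-q)⌋₊ ≤ ⌊r / w q⌋₊ + 1 := by
      have : ⌊r / w q + w (u-q)⌋₊ ≤ ⌊r / w q + (1:ℕ)⌋₊ := Nat.floor_le_floor (by push_cast; linarith)
      rwa [Nat.floor_add_natCast h0] at this
    rcases Nat.lt_or_ge ⌊r / w q⌋₊ ⌊r / w q + w (u-q)⌋₊ with h5 | h5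
    · have : ⌊r / w q + w (u-q)⌋₊ = ⌊r / w q⌋₊ + 1 := by omega
      rw [this]
      have := pc_add ⌊r / w q⌋₊ 1
      rw [pc_one] at this
      exact this
    · have : ⌊r / w q + w (u-q)⌋₊ = ⌊r / w q⌋₊ := by omega
      rw [this]; omega

lemma Dy.nat {p : ℤ} {x : ℚ} (h : Dy p x) (h0 : 0 ≤ x) : ∃ z : ℕ, x = z * w p := by
  obtain ⟨z, hz⟩ := h
  have : 0 ≤ z := by
    by_contra hc
    have h1 : (z:ℚ) < 0 := by exact_mod_cast (not_le.mp hc)
    have := mul_neg_of_neg_of_pos h1 (w_pos p)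
    linarith
  obtain ⟨k, rfl⟩ := Int.eq_ofNat_of_zero_le this
  exact ⟨k, by rw [hz]; simp⟩

lemma cnt_disj {n q : ℤ} {A r : ℚ} (hA : Dy n A) (hA0 : 0 ≤ A) (hr0 : 0 ≤ r) (hr : r < w n) :
    cnt q (A + r) = cnt q A + cnt q r := by
  rcases le_or_gt n q with hq | hq
  · obtain ⟨k, hk⟩ := Int.le.dest hq
    obtain ⟨z, hz⟩ := hA.nat hA0
    have e1 : A / w q = ((2^k * z : ℕ) : ℚ) := by
      rw [hz, mul_div_assoc, w_div, show n - q = -(k:ℤ) by omega, w_neg_nat]
      push_cast; ring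
    have hr' : 0 ≤ r / w q := div_nonneg hr0 (w_pos q).le
    have h2 : ⌊r / w q⌋₊ < 2^k := by
      rw [Nat.floor_lt hr', div_lt_iff₀ (w_pos q)]
      have : ((2^k : ℕ) : ℚ) * w q = w n := by
        rw [← w_neg_nat, ← w_add]; congr 1; omega
      rw [this]; exact hr
    unfold cnt
    rw [add_div, e1, add_comm, Nat.floor_add_natCast hr', add_comm, pc_disj k z _ h2, Nat.floor_natCast,
      pc_two_pow_mul]
  · have h1 : cnt q r = 0 := cnt_eq_zero (lt_trans hr (w_lt hq))
    rw [h1, Nat.add_zero]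
    unfold cnt
    congr 1
    apply le_antisymm
    · apply Nat.le_floor
      have h2 : (⌊(A + r) / w q⌋₊ : ℚ) ≤ (A + r) / w q := Nat.floor_le (div_nonneg (by linarith) (w_pos q).le)
      rw [le_div_iff₀ (w_pos q)] at h2 ⊢
      by_contra hc
      have hd : Dy n ((⌊(A + r) / w q⌋₊ : ℚ) * w q - A) := by
        refine Dy.sub ?_ hA
        exact Dy.mono ⟨⌊(A + r) / w q⌋₊, by push_cast; rfl⟩ hq.le
      have := hd.le_of_pos (by linarith)
      linarith
    · exact Nat.floor_le_floor (div_le_div_of_nonneg_right (by linarith) (w_pos q).le)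

lemma cnt_mul_w (q c : ℤ) (r : ℚ) : cnt q (r * w c) = cnt (q - c) r := by
  unfold cnt
  congr 2
  rw [mul_div_assoc, w_div, div_eq_mul_inv]
  congr 1
  unfold w
  rw [← zpow_neg]; congr 1; ring

lemma cnt_half (q : ℤ) (r : ℚ) : cnt q (r / 2) = cnt (q - 1) r := by
  rw [← cnt_mul_w, w_one]; congr 1; ring

lemma cnt_mono {q q' : ℤ} {r : ℚ} (h : 0 ≤ r) (hq : q ≤ q') : cnt q r ≤ cnt q' r := by
  -- split r at position q
  have hfl : (⌊r / w q⌋₊ : ℚ) ≤ r / w q := Nat.floor_le (div_nonneg h (w_pos q).le)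
  have hfl2 := Nat.lt_floor_add_one (r / w q)
  rw [le_div_iff₀ (w_pos q)] at hfl
  rw [div_lt_iff₀ (w_pos q)] at hfl2
  set A : ℚ := (⌊r / w q⌋₊ : ℚ) * w q with hA
  have hdA : Dy q A := ⟨⌊r / w q⌋₊, by push_cast; rfl⟩
  have hA0 : 0 ≤ A := mul_nonneg (by positivity) (w_pos q).le
  have hr1 : r - A < w q := by linarith
  have e : r = A + (r - A) := by ring
  have hAq : ∀ q'', q ≤ q'' → cnt q'' A = pc ⌊r / w q⌋₊ := by
    intro q'' hq''
    obtain ⟨k, hk⟩ := Int.le.dest hq''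
    unfold cnt
    have : A / w q'' = ((2^k * ⌊r / w q⌋₊ : ℕ) : ℚ) := by
      rw [hA, mul_div_assoc, w_div, show q - q'' = -(k:ℤ) by omega, w_neg_nat]
      push_cast; ring
    rw [this, Nat.floor_natCast, pc_two_pow_mul]
  calc cnt q r = cnt q A := by rw [hAq q le_rfl]; rfl
    _ = cnt q' A := by rw [hAq q le_rfl, hAq q' hq]
    _ ≤ cnt q' A + cnt q' (r - A) := Nat.le_add_right _ _
    _ = cnt q' (A + (r - A)) := (cnt_disj hdA hA0 (by linarith) hr1).symm
    _ = cnt q' r := by rw [← e]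

lemma cnt_w {q n : ℤ} (h : n ≤ q) : cnt q (w n) = 1 := by
  obtain ⟨k, hk⟩ := Int.le.dest h
  unfold cnt
  rw [w_div, show n - q = -(k:ℤ) by omega, w_neg_nat, Nat.floor_natCast, pc_two_pow]

lemma cnt_w_le (q n : ℤ) : cnt q (w n) ≤ 1 := by
  have := cnt_add_w (q := q) (u := n) (r := 0) le_rfl
  rw [cnt_zero, zero_add, zero_add] at this
  exact this

lemma cnt_S_le_k {X : ℕ → ℤ} (q : ℤ) (k : ℕ) : cnt q (S X k) ≤ k := by
  induction k with
  | zero => rw [S_zero, cnt_zero]
  | succ k ih =>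
    rw [S_succ]
    have := cnt_add_w (q := q) (u := X k) (S_nonneg X k)
    omega

lemma S_split {X : ℕ → ℤ} {i k : ℕ} (h : i ≤ k) : S X k = S X i + S (sh X i 0) (k - i) := by
  rw [← S_add]; congr 1; omega

lemma cnt_S_le {X : ℕ → ℤ} (hX : StrictMono X) {q : ℤ} {i k : ℕ} (h : k ≤ i ∨ q < X i) : cnt q (S X k) ≤ i := by
  rcases le_or_gt k i with h1 | h1
  · exact le_trans (cnt_S_le_k q k) h1
  · have h2 : q < X i := by
      rcases h with h | h
      · omega
      · exact h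
    rw [S_split h1.le]
    have hlt : S (sh X i 0) (k - i) < w (X i - 1) := S_lt (sh_mono hX _ _) (by simp only [sh_apply, Nat.zero_add]; omega) _
    rw [cnt_disj (S_dy' hX i) (S_nonneg _ _) (S_nonneg _ _) hlt]
    rw [cnt_eq_zero (lt_of_lt_of_le hlt (w_le (by omega))), Nat.add_zero]
    exact cnt_S_le_k q i

lemma cnt_S_ge {X : ℕ → ℤ} (hX : StrictMono X) {q : ℤ} {i k : ℕ} (h : i < k) (hq : X i ≤ q) : i + 1 ≤ cnt q (S X k) := by
  have key : ∀ j, X j ≤ q → cnt q (S X (j+1)) = j + 1 := by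
    intro j
    induction j with
    | zero => intro h; rw [S_succ, S_zero, zero_add, cnt_w h]
    | succ j ih =>
      intro hj
      have hlt := hX (show j < j + 1 by omega)
      rw [S_succ, cnt_disj (S_dy' hX (j+1)) (S_nonneg _ _) (w_pos _).le (w_lt (by omega)), ih (by omega), cnt_w hj]
  rw [S_split (show i + 1 ≤ k by omega)]
  have hd : Dy (X i) (S X (i+1)) := S_dy hX (i+1) fun j hj => hX.monotone (by omega)
  have hlt : S (sh X (i+1) 0) (k - (i+1)) < w (X i) := S_lt (sh_mono hX _ _) (by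
    have := hX (show i < i + 1 by omega)
    simp only [sh_apply, Nat.zero_add]; omega) _
  rw [cnt_disj hd (S_nonneg _ _) (S_nonneg _ _) hlt, key i hq]
  omega

theorem dom_of_cnt {X Y : ℕ → ℤ} {k k' c : ℕ} (hX : StrictMono X) (hY : StrictMono Y)
    (h : ∀ q, cnt q (S Y k') ≤ cnt q (S X k) + c) : ∀ i, i + c < k' → i < k ∧ X i ≤ Y (i + c) := by
  intro i hi
  have h1 := cnt_S_ge hY hi (le_refl (Y (i+c)))
  have h2 := h (Y (i+c))
  by_contra hc
  have h3 : cnt (Y (i+c)) (S X k) ≤ i := by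
    apply cnt_S_le hX
    by_contra hc'
    apply hc
    constructor
    · omega
    · have := not_or.mp hc'; omega
  omega

/-- comparison lemma for small multiples -/
lemma cnt_small {n q : ℤ} {ε β : ℚ} (hε : Dy n ε) (hε0 : 0 < ε) (hβ0 : 0 ≤ β) (hβ : β < 3 * w n) :
    cnt q β ≤ cnt q (ε + β) := by
  have hw := w_pos n
  have hwe : w n ≤ ε := hε.le_of_pos hε0
  by_cases h1 : β < w n
  · rw [cnt_disj hε hε0.le hβ0 h1]; omega
  by_cases h2 : β < 2 * w n
  · -- β = w n + ρ
    have e1 : β = w n + (β - w n) := by ring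
    have e2 : ε + β = (ε + w n) + (β - w n) := by ring
    rw [e2, cnt_disj (hε.add (dy_w le_rfl)) (by linarith) (by linarith) (by linarith)]
    conv_lhs => rw [e1]
    rw [cnt_disj (dy_w le_rfl) hw.le (by linarith) (by linarith)]
    have : cnt q (w n) ≤ cnt q (ε + w n) := by
      rcases le_or_gt n q with h | h
      · rw [cnt_w h]; exact cnt_pos (by have := w_le h; linarith)
      · rw [cnt_eq_zero (w_lt h)]; omega
    omega
  · have e1 : β = w (n-1) + (β - w (n-1)) := by ring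
    have e2 : ε + β = (ε + w (n-1)) + (β - w (n-1)) := by ring
    have e3 := w_sub_one n
    rw [e2, cnt_disj (hε.add (dy_w (by omega))) (by linarith [w_pos (n-1)]) (by linarith) (by linarith)]
    conv_lhs => rw [e1]
    rw [cnt_disj (n := n) (dy_w (by omega)) (w_pos _).le (by linarith) (by linarith)]
    have : cnt q (w (n-1)) ≤ cnt q (ε + w (n-1)) := by
      rcases le_or_gt (n-1) q with h | h
      · rw [cnt_w h]; exact cnt_pos (by have := w_le h; linarith)
      · rw [cnt_eq_zero (w_lt h)]; omega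
    omega

lemma exists_carry {X : ℕ → ℤ} : ∀ k : ℕ, StrictMono X → ∃ l, l ≤ k ∧ S X (k+1) + w (X k) = S X l + w (X l - 1) ∧
    (l = 0 ∨ X (l-1) < X l - 1) := by
  intro k hX
  induction k with
  | zero => exact ⟨0, le_rfl, by rw [S_succ, S_zero, w_sub_one]; ring, Or.inl rfl⟩
  | succ k ih =>
    have e : S X (k+1+1) + w (X (k+1)) = S X (k+1) + w (X (k+1) - 1) := by rw [S_succ, w_sub_one]; ring
    by_cases h : X k < X (k+1) - 1
    · exact ⟨k+1, le_rfl, e, Or.inr h⟩
    · have : X (k+1) - 1 = X k := by have := hX (show k < k+1 by omega); omega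
      obtain ⟨l, h1, h2, h3⟩ := ih
      exact ⟨l, by omega, by rw [e, this, h2], h3⟩

/-- concatenation -/
def app (X : ℕ → ℤ) (j : ℕ) (Y : ℕ → ℤ) : ℕ → ℤ := fun i => if i < j then X i else Y (i - j)

lemma app_lt {X Y : ℕ → ℤ} {j i : ℕ} (h : i < j) : app X j Y i = X i := by simp [app, h]

lemma app_ge {X Y : ℕ → ℤ} {j i : ℕ} : app X j Y (i + j) = Y i := by
  have : ¬ (i + j < j) := by omega
  simp [app, this]

lemma app_sm {X Y : ℕ → ℤ} {j : ℕ} (hX : StrictMono X) (hY : StrictMono Y) (h : ∀ i, i < j → X i < Y 0) :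
    StrictMono (app X j Y) := by
  intro a b hab
  rcases Nat.lt_or_ge a j with ha | ha
  · rw [app_lt ha]
    rcases Nat.lt_or_ge b j with hb | hb
    · rw [app_lt hb]; exact hX hab
    · obtain ⟨c, rfl⟩ : ∃ c, b = c + j := ⟨b - j, by omega⟩
      rw [app_ge]
      have := hY.monotone (Nat.zero_le c)
      have := h a ha
      omega
  · obtain ⟨c, rfl⟩ : ∃ c, a = c + j := ⟨a - j, by omega⟩
    obtain ⟨d, rfl⟩ : ∃ d, b = d + j := ⟨b - j, by omega⟩
    rw [app_ge, app_ge]
    exact hY (by omega)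

lemma S_app {X Y : ℕ → ℤ} {j k : ℕ} : S (app X j Y) (j + k) = S X j + S Y k := by
  rw [S_add]
  congr 1
  · exact S_congr fun i hi => app_lt hi
  · apply S_congr
    intro i _
    rw [sh_apply, app_ge, sub_zero]

/-- Rk only depends on the first digits -/
lemma Rk_congr : ∀ (k : ℕ) (x : ℚ) (X Y : ℕ → ℤ), (∀ i, i + 1 < k → X i = Y i) → Rk k x X → Rk k x Y := by
  intro k
  induction k with
  | zero => intros; trivial
  | succ k ih =>
    intro x X Y h hr
    rcases hr with ⟨m, h1, h2⟩ | ⟨t, s, h1, h2⟩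
    · exact Or.inl ⟨m, h1, ih _ _ _ (fun i hi => by simp only [sh_apply]; rw [h (i+1) (by omega)]) h2⟩
    · refine Or.inr ⟨t, s, h1, ?_⟩
      cases k with
      | zero => trivial
      | succ k =>
        rw [← h 0 (by omega)]
        exact ih _ _ _ (fun i hi => by simp only [sh_apply]; rw [h (i+1) (by omega)]) h2

end Pool.Agent.Helper820
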