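import Pool.Agent.Helper820.FusIso

set_option autoImplicit false

namespace Pool.Agent.Helper820

lemma sh_cs0 (d : ℤ) (X : ℕ → ℤ) : sh (cs d X) 1 0 = X := by
  rw [sh_cs, sh_zero]

lemma S_cs (d : ℤ) (X : ℕ → ℤ) (k : ℕ) : S (cs d X) (k+1) = w d + S X k := by
  rw [S_front, sh_cs0]; rfl

lemma exists_seq_aux : ∀ (N : ℕ) (n p : ℤ) (r : ℚ), p ≤ n + N → 0 ≤ r → Dy p r → r < w n →
    ∃ (X : ℕ → ℤ) (k : ℕ), StrictMono X ∧ n < X 0 ∧ S X k = r := by
  intro N
  induction N with
  | zero =>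
    intro n p r hp h0 hd hr
    have hz : r = 0 := (hd.mono (show p ≤ n by simpa using hp)).eq_zero_of_lt hr (by linarith [w_pos n])
    refine ⟨fun i => n + 1 + i, 0, ?_, by simp, by rw [S_zero, hz]⟩
    intro i j hij; simp only; omega
  | succ N ih =>
    intro n p r hp h0 hd hr
    by_cases hlt : r < w (n+1)
    · obtain ⟨X, k, h1, h2, h3⟩ := ih (n+1) p r (by push_cast at hp ⊢; omega) h0 hd hlt
      exact ⟨X, k, h1, by omega, h3⟩
    · have hr2 : w n = 2 * w (n+1) := by rw [w_add_one]; ring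
      by_cases hnp : n + 1 ≤ p
      · obtain ⟨X, k, h1, h2, h3⟩ := ih (n+1) p (r - w (n+1)) (by push_cast at hp ⊢; omega) (by linarith)
          (hd.sub (dy_w hnp)) (by linarith)
        refine ⟨cs (n+1) X, k+1, cs_sm h1 h2, ?_, by rw [S_cs, h3]; ring⟩
        show n < n + 1
        omega
      · have hz : r = 0 := (hd.mono (show p ≤ n by omega)).eq_zero_of_lt hr (by linarith [w_pos n])
        exfalso
        have := w_pos (n+1)
        linarith

lemma exists_seq {n p : ℤ} {r : ℚ} (h0 : 0 ≤ r) (hd : Dy p r) (hr : r < w n) :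
    ∃ (X : ℕ → ℤ) (k : ℕ), StrictMono X ∧ n < X 0 ∧ S X k = r :=
  exists_seq_aux (p - n).toNat n p r (by omega) h0 hd hr

/-- consecutive elements -/
lemma consec {x y : ℚ} (hx : T x) (hy : T y) (hxy : x < y) (hc : ∀ z, T z → ¬ (x < z ∧ z < y)) :
    ∃ m, St y (Kd.S m) ∧ x = y - w m := by
  rcases hy.cases with h0 | ⟨m, hm⟩ | ⟨t, s, hL⟩
  · have := hx.nonneg
    exfalso; linarith
  · refine ⟨m, hm, ?_⟩
    have h1 := gap hm hx hxy
    have h2 := hc _ hm.T_pred
    by_contra hne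
    exact h2 ⟨lt_of_le_of_ne h1 hne, by linarith [w_pos m]⟩
  · exfalso
    obtain ⟨p, hp, hd⟩ := hy.dy
    obtain ⟨n, hn⟩ := exists_w_lt p (show 0 < y - x by linarith)
    exact hc _ (hL.T_sub (p := p + n) (by omega) (hd.mono (by omega))) ⟨by linarith, by linarith [w_pos (p+n)]⟩

/-- main structural step -/
lemma step_S {y q : ℚ} {m d : ℤ} (hy : St y (Kd.S m)) (hd : m < d) (hq : T q) (h1 : w d ≤ y + 1 - q)
    (h2 : y + 1 - q < w (d-1)) : T (y - w m + 1 - 2 * (y + 1 - q - w d)) := by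
  obtain ⟨p1, hp1, hd1⟩ := hq.dy
  have hm1 := hy.S_one_le
  have hdyr : Dy (max p1 m) (y + 1 - q) :=
    ((hy.S_dy.mono (by omega)).add (dy_one (by omega))).sub (hd1.mono (by omega))
  obtain ⟨X, k, hX, hX0, hS⟩ := exists_seq (n := d-1) (by linarith [w_pos d]) hdyr h2
  have hk : k ≠ 0 := by
    intro hk; subst hk
    rw [S_zero] at hS
    have := w_pos d; linarith
  obtain ⟨k', rfl⟩ := Nat.exists_eq_succ_of_ne_zero hk
  have hX0' : X 0 = d := by
    by_contra hne
    have := S_lt hX (show d < X 0 by omega) (k'+1)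
    rw [Nat.succ_eq_add_one] at hS
    linarith
  have hw : Wf y X := ⟨hX, by omega, hy.S_dy.mono (by omega)⟩
  have hr : Rk k' y X := by
    rw [← T_iff ⟨_, hy⟩ hw]
    rw [Nat.succ_eq_add_one] at hS
    rw [hS, show y + 1 - (y + 1 - q) = q by ring]
    exact hq
  have hval : y + 1 - q - w d = S (sh X 1 0) k' := by
    rw [← hS, Nat.succ_eq_add_one, S_front, hX0']; ring
  rw [hval]
  cases k' with
  | zero =>
    rw [S_zero, mul_zero, sub_zero]
    exact hy.T_pred.add_one
  | succ k'' =>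
    rw [Rk_succ_iff hy, ← T_iff hy.T_pred (hw.suc hy)] at hr
    have e : S (sh X 1 1) (k''+1) = 2 * S (sh X 1 0) (k''+1) := by
      have : sh X 1 1 = sh (sh X 1 0) 0 1 := by rw [sh_sh]; rfl
      rw [this, S_shift]
      have : w (-1) = 2 := by have := w_sub_one 0; rw [w_zero] at this; simpa using this
      rw [this]; ring
    rwa [e] at hr

/-- every tame number is fusible -/
lemma T_sub_F (A : Set ℚ) (h0 : (0:ℚ) ∈ A) (hA : ∀ a ∈ A, ∀ b ∈ A, |a - b| < 1 → (a + b + 1) / 2 ∈ A) :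
    ∀ x, T x → x ∈ A := by
  refine T_induct (P := fun x => x ∈ A) ?_
  intro x hx IH
  rcases eq_or_lt_of_le hx.nonneg with h | hx0
  · rw [← h]; exact h0
  -- minimal y with x ≤ y + 1
  have hmin : ∃ y, T y ∧ x ≤ y + 1 ∧ ∀ z, T z → z < y → z + 1 < x := by
    have key : ∀ y, T y → x ≤ y + 1 → ∃ y', T y' ∧ x ≤ y' + 1 ∧ ∀ z, T z → z < y' → z + 1 < x := by
      refine T_induct (P := fun y => x ≤ y + 1 → ∃ y', T y' ∧ x ≤ y' + 1 ∧ ∀ z, T z → z < y' → z + 1 < x) ?_
      intro y hy ih hxy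
      by_cases hc : ∃ z, T z ∧ z < y ∧ x ≤ z + 1
      · obtain ⟨z, hz, hzy, hxz⟩ := hc
        exact ih z hz hzy hxz
      · push_neg at hc
        exact ⟨y, hy, hxy, hc⟩
    exact key x hx (by linarith)
  obtain ⟨y, hy, hxy, hmy⟩ := hmin
  have fuse : ∀ a b, T a → T b → a < x → b < x → (a + b + 1) / 2 = x → x ∈ A := by
    intro a b ha hb hax hbx he
    have h3 : |a - b| < 1 := by
      rw [abs_lt]
      constructor <;> linarith
    have := hA a (IH a ha hax) b (IH b hb hbx) h3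
    rwa [he] at this
  rcases eq_or_lt_of_le hxy with he | hlt
  · -- x = y + 1
    obtain ⟨κ, hκ⟩ := hy
    have hyy := hκ.add_one
    rcases hκ.inv with ⟨h, -⟩ | ⟨k, h, -⟩ | ⟨x', s, n, h1, h2, h3, h4, h5⟩ |
        ⟨x', t, s, m', n, h1, h2, h3, h4, h5, h6⟩ | ⟨x', t, s, t', s', n, h1, h2, h3, h4, h5, h6⟩
    · have hT : T (y + 1 - w 1) := T_child hyy le_rfl (by rw [h]; exact (dy_zero _).add (dy_one (by norm_num)))
      rw [w_one] at hT
      exact fuse _ _ hT hT (by linarith) (by linarith) (by rw [he]; ring)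
    · have hT : T (y + 1 - w 1) := T_child hyy le_rfl (by
        rw [h]; exact ((dy_nat (by norm_num) k).add (dy_one (by norm_num))).add (dy_one (by norm_num)))
      rw [w_one] at hT
      exact fuse _ _ hT hT (by linarith) (by linarith) (by rw [he]; ring)
    · have hT : T (y + 1 - w n) := hyy.T_sub (by omega) (by rw [h4]; exact (child_dy h3).add (dy_one (by omega)))
      have hn : w n ≤ 1/2 := by rw [← w_one]; exact w_le h2
      have := w_pos n
      exact fuse x' _ ⟨_, h1⟩ hT (by linarith) (by linarith) (by rw [he, h4]; ring)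
    · have hT : T (y + 1 - w n) := hyy.T_sub (by omega) (by rw [h5]; exact (child_dy h4).add (dy_one (by omega)))
      have hn : w n ≤ 1/2 := by rw [← w_one]; exact w_le h3
      have := w_pos n
      exact fuse x' _ ⟨_, h1⟩ hT (by linarith) (by linarith) (by rw [he, h5]; ring)
    · have hT : T (y + 1 - w n) := hyy.T_sub (by omega) (by rw [h5]; exact (child_dy h4).add (dy_one (by omega)))
      have hn : w n ≤ 1/2 := by rw [← w_one]; exact w_le h3
      have := w_pos n
      exact fuse x' _ ⟨_, h1⟩ hT (by linarith) (by linarith) (by rw [he, h5]; ring)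
  · -- x < y + 1
    obtain ⟨p1, hp1, hd1⟩ := hx.dy
    rcases hy.cases with h0' | ⟨m, hm⟩ | ⟨t, s, hL⟩
    · -- y = 0
      subst h0'
      have hdyr : Dy p1 (0 + 1 - x) := ((dy_zero _).add (dy_one hp1)).sub hd1
      obtain ⟨X, k, hX, hX0, hS⟩ := exists_seq (n := 0) (by linarith) hdyr (by rw [w_zero]; linarith)
      have hk : k ≠ 0 := by
        intro hk; subst hk
        rw [S_zero] at hS; linarith
      obtain ⟨k', rfl⟩ := Nat.exists_eq_succ_of_ne_zero hk
      have hw : Wf 0 X := ⟨hX, by omega, dy_zero _⟩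
      rw [Nat.succ_eq_add_one] at hS
      have hr : Rk k' 0 X := by
        rw [← T_iff T_zero hw, hS, show (0:ℚ) + 1 - (0 + 1 - x) = x by ring]
        exact hx
      have := Rk_zero_eq hr
      subst this
      rw [zero_add, S_succ, S_zero, zero_add] at hS
      have hT : T (0 + 1 - w (X 0 - 1)) := by
        rcases eq_or_lt_of_le (show 0 ≤ X 0 - 1 by omega) with h | h
        · rw [← h, w_zero]; simpa using T_zero
        · exact T_child (St.zero.add_one) (by omega) ((dy_zero _).add (dy_one (by omega)))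
      rw [w_sub_one] at hT
      have := w_pos (X 0)
      exact fuse _ 0 hT T_zero (by linarith) hx0 (by linarith)
    · -- successor
      obtain ⟨u, s, g1, g2, g3, g4⟩ := hm.S_spec
      have hlow := hmy _ hm.T_pred (by linarith [w_pos m])
      have hdyr : Dy (max p1 m) (y + 1 - x) :=
        ((hm.S_dy.mono (by omega)).add (dy_one (by omega))).sub (hd1.mono (by omega))
      obtain ⟨X, k, hX, hX0, hS⟩ := exists_seq (n := m) (by linarith) hdyr (by linarith)
      have hk : k ≠ 0 := by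
        intro hk; subst hk
        rw [S_zero] at hS; linarith
      obtain ⟨k', rfl⟩ := Nat.exists_eq_succ_of_ne_zero hk
      rw [Nat.succ_eq_add_one] at hS
      have hlt2 : y + 1 - x < w (X 0 - 1) := by
        rw [← hS]; exact S_lt hX (by omega) _
      have hle2 : w (X 0) ≤ y + 1 - x := by
        rw [← hS, S_front]; linarith [S_nonneg (sh X 1 0) k']
      have hz := step_S hm hX0 hx hle2 hlt2
      have hs : T (u - w (X 0 - 1)) := g1.T_sub (by omega) (g3.mono (by omega))
      have hw1 : w (X 0 - 1) ≤ w m := w_le (by omega)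
      have hw2 : w m ≤ 1/2 := by rw [← w_one]; exact w_le g2
      have hw3 := w_pos (X 0 - 1)
      have hw4 := w_pos (X 0)
      have hw5 : w (X 0 - 1) = 2 * w (X 0) := w_sub_one _
      exact fuse _ _ hs hz (by linarith) (by linarith) (by rw [hw5, g4]; ring)
    · exfalso
      obtain ⟨p, hp, hd⟩ := hy.dy
      obtain ⟨n, hn⟩ := exists_w_lt p (show 0 < y + 1 - x by linarith)
      have := hmy _ (hL.T_sub (p := p + n) (by omega) (hd.mono (by omega))) (by linarith [w_pos (p+n)])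
      linarith

lemma w_pow (m : ℤ) (n : ℕ) : w m / 2^n = w (m + n) := by
  rw [w_add]
  unfold w
  rw [zpow_neg (2:ℚ) (n:ℤ), zpow_natCast]
  rfl

theorem final (hcl : ∀ a b, T a → T b → |a-b| < 1 → T ((a+b+1)/2)) :
    ∀ F : ℚ → Prop,
      (∀ q : ℚ, F q ↔ ∀ S : Set ℚ, (0 : ℚ) ∈ S →
          (∀ a ∈ S, ∀ b ∈ S, |a - b| < 1 → (a + b + 1) / 2 ∈ S) → q ∈ S) →
      ∀ x y : ℚ, F x → F y → x < y → (∀ z : ℚ, F z → ¬ (x < z ∧ z < y)) →
        ∀ n : ℕ, ∀ q : ℚ, F q →
          y + 1 - (y - x) / 2 ^ n ≤ q → q < y + 1 - (y - x) / 2 ^ (n + 1) →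
          F (2 * q - 1 - x - (2 - 1 / 2 ^ n) * (y - x)) := by
  intro F hF
  have hFT : ∀ q, F q ↔ T q := by
    intro q
    constructor
    · intro h
      exact (hF q).mp h {x | T x} T_zero (fun a ha b hb hab => hcl a b ha hb hab)
    · intro h
      rw [hF]
      intro S h0 hS
      exact T_sub_F S h0 hS q h
  intro x y hx hy hxy hc n q hq hq1 hq2
  rw [hFT] at hx hy hq ⊢
  obtain ⟨m, hm, hxm⟩ := consec hx hy hxy (fun z hz => hc z ((hFT z).mpr hz))
  have hyx : y - x = w m := by rw [hxm]; ring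
  rw [hyx] at hq1 hq2 ⊢
  rw [w_pow] at hq1 hq2
  have hm1 := hm.S_one_le
  have e1 : (2 - 1 / 2 ^ n) * w m = 2 * w m - w (m + n) := by
    rw [← w_pow]; ring
  rw [e1]
  have hdx : Dy m x := by rw [hxm]; exact hm.S_dy.sub (dy_w le_rfl)
  have e4 : m + ((n+1 : ℕ) : ℤ) = m + n + 1 := by push_cast; ring
  rw [e4] at hq2
  rcases eq_or_lt_of_le hq1 with he | hlt
  · rw [← he, show 2 * (y + 1 - w (m+n)) - 1 - x - (2 * w m - w (m+n)) = x + 1 - w (m + n) by rw [hxm]; ring]
    obtain ⟨κ, hκ⟩ := hx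
    exact hκ.add_one.T_sub (by omega) ((hdx.mono (by omega)).add (dy_one (by omega)))
  · have := step_S (d := m + n + 1) hm (by omega) hq (by linarith) (by
      rw [show m + (n:ℤ) + 1 - 1 = m + n by ring]; linarith)
    rw [w_add_one] at this
    rw [show 2 * q - 1 - x - (2 * w m - w (m+n)) = y - w m + 1 - 2 * (y + 1 - q - w (m+n)/2) by rw [hxm]; ring]
    exact this

end Pool.Agent.Helper820
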