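import Pool.Agent.Helper820.FusRun

set_option autoImplicit false

namespace Pool.Agent.Helper820

/-- inclusion of tame structures of types -/
def Inc (t1 : ℚ) (s1 : ℤ) (t2 : ℚ) (s2 : ℤ) (x : ℤ) : Prop :=
  ∀ (X : ℕ → ℤ) (k : ℕ), StrictMono X → x < X 0 → Rk k t1 (sh X 0 s1) → Rk k t2 (sh X 0 s2)

lemma Inc.refl (t : ℚ) (s x : ℤ) : Inc t s t s x := fun _ _ _ _ h => h

lemma Inc.trans {t1 t2 t3 : ℚ} {s1 s2 s3 x : ℤ} (h : Inc t1 s1 t2 s2 x) (h' : Inc t2 s2 t3 s3 x) :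
    Inc t1 s1 t3 s3 x := fun X k h1 h2 h3 => h' X k h1 h2 (h X k h1 h2 h3)

lemma Inc.mono {t1 t2 : ℚ} {s1 s2 x y : ℤ} (h : Inc t1 s1 t2 s2 x) (hxy : x ≤ y) : Inc t1 s1 t2 s2 y :=
  fun X k h1 h2 h3 => h X k h1 (by omega) h3

/-- prepend -/
def cs (d : ℤ) (X : ℕ → ℤ) : ℕ → ℤ
  | 0 => d
  | i+1 => X i

lemma cs_sm {d : ℤ} {X : ℕ → ℤ} (hX : StrictMono X) (hd : d < X 0) : StrictMono (cs d X) := by
  apply strictMono_nat_of_lt_succ
  intro n
  cases n with
  | zero => exact hd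
  | succ n => exact hX (by omega)

lemma sh_cs (d : ℤ) (X : ℕ → ℤ) (c : ℤ) : sh (cs d X) 1 c = sh X 0 c := by
  funext i; rfl

lemma Inc.zero {t1 t2 : ℚ} {s1 s2 x : ℤ} (h : Inc t1 s1 t2 s2 x) (h1 : T t1) (h2 : t2 = 0) : t1 = 0 := by
  by_contra hc
  have := h (fun i => x + 1 + i) 1 (by intro i j hij; simp; omega) (by simp) (Rk_one h1 hc _)
  rw [h2] at this
  exact not_Rk_zero this

lemma Inc.child {t1 t2 t1' t2' : ℚ} {s1 s2 s1' s2' x d : ℤ} (h : Inc t1 s1 t2 s2 x) (hd : x < d)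
    (h1 : Ch t1 s1 d t1' s1') (h2 : Ch t2 s2 d t2' s2') : Inc t1' s1' t2' s2' d := by
  intro X k hX hdX hr
  have hr1 : Rk (k+1) t1 (sh (cs d X) 0 s1) := by
    rcases h1 with ⟨m, g1, g2, g3⟩ | ⟨⟨u, v, g1⟩, g2, g3⟩
    · refine Or.inl ⟨m, g1, ?_⟩
      rw [sh_sh, show 0 + 1 = 1 by rfl, sh_cs, ← g2, ← g3]
      exact hr
    · refine Or.inr ⟨u, v, g1, ?_⟩
      rw [sh_sh, show 0 + 1 = 1 by rfl, sh_cs, show (sh (cs d X) 0 s1) 0 = d - s1 by rfl, ← g2, add_zero, ← g3]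
      exact hr
  have hr2 := h (cs d X) (k+1) (cs_sm hX hdX) (by exact hd) hr1
  rcases hr2 with ⟨m, g1, g2⟩ | ⟨u, v, g1, g2⟩
  · obtain ⟨e1, e2⟩ := h2.func (Or.inl ⟨m, g1, rfl, rfl⟩)
    rw [sh_sh, show 0 + 1 = 1 by rfl, sh_cs] at g2
    rw [e1, e2]; exact g2
  · obtain ⟨e1, e2⟩ := h2.func (Or.inr ⟨⟨u, v, g1⟩, rfl, rfl⟩)
    rw [sh_sh, show 0 + 1 = 1 by rfl, sh_cs, show (sh (cs d X) 0 s2) 0 = d - s2 by rfl, add_zero] at g2
    rw [e1, e2]; exact g2

lemma Pw.mono {t : ℚ} {s x y : ℤ} (h : Pw t s x) (hxy : x ≤ y) : Pw t s y := by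
  refine ⟨h.1, by have := h.2.1; omega, ?_⟩
  rcases h.2.2 with g | ⟨m, g1, g2⟩
  · exact Or.inl (g.mono (by omega))
  · exact Or.inr ⟨m, g1, g2.mono (by omega)⟩

lemma Ch.pk' {t t' : ℚ} {s d s' : ℤ} (h : Ch t s d t' s') (hp : Pw t s (d-1)) : Pk t' s' d := by
  rcases hp.2.2 with g | ⟨m, g1, g2⟩
  · exact h.pk ⟨hp.1, hp.2.1, g⟩
  · obtain ⟨e1, e2⟩ := h.func (Or.inl ⟨m, g1, rfl, rfl⟩)
    rw [e1, e2]
    have := hp.2.1
    have h1 : 1 ≤ d - s := by omega
    exact ⟨g1.T_pred, by omega, g2.mono (by omega)⟩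

/-- domination of region runs -/
theorem Lp_dom {t2 : ℚ} {s2 d2 x : ℤ} {Z : ℕ → ℤ} {n2 l2 : ℕ} (h2 : Lp t2 s2 d2 x Z n2 l2) :
    ∀ (t1 : ℚ) (s1 d1 : ℤ) (Y : ℕ → ℤ) (n1 l1 : ℕ), Lp t1 s1 d1 x Y n1 l1 → Pw t1 s1 x →
    Inc t1 s1 t2 s2 x → d1 ≤ d2 → StrictMono Y → StrictMono Z → d1 < Y 0 → d2 < Z 0 → (∀ i, Y i ≤ Z i) →
    n1 ≤ n2 ∧ l1 ≤ l2 ∧ ∀ i, Y (i+n1) - ((n1:ℤ)-l1) ≤ Z (i+n2) - ((n2:ℤ)-l2) := by
  induction h2 with
  | @nil t2 s2 d2 x Z h =>
    intro t1 s1 d1 Y n1 l1 h1 hP hI hd hY hZ hdY hdZ hYZ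
    cases h1 with
    | nil h' => exact ⟨le_rfl, le_rfl, fun i => by simpa using hYZ i⟩
    | suc h' h'' _ => omega
    | lim h' _ _ _ => omega
  | @suc t2 s2 d2 x Z n2 l2 e2 hlt hrest ih =>
    intro t1 s1 d1 Y n1 l1 h1 hP hI hd hY hZ hdY hdZ hYZ
    have hZs : ∀ i, Z i ≤ Z (i+1) - 1 := fun i => by
      have := hZ (show i < i+1 by omega); omega
    rcases eq_or_lt_of_le hd with he | hl
    · subst he
      cases h1 with
      | nil h' => omega
      | @suc _ _ _ _ _ n l h' h'' h3 =>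
        obtain ⟨g1, g2, g3⟩ := ih t1 s1 _ (sh Y 1 1) _ _ h3 hP hI le_rfl (sh_mono hY _ _) (sh_mono hZ _ _)
          (by have := hY (show 0 < 1 by omega); simp only [sh_apply, Nat.zero_add]; omega)
          (by have := hZ (show 0 < 1 by omega); simp only [sh_apply, Nat.zero_add]; omega)
          (fun i => by simp only [sh_apply]; have := hYZ (i+1); omega)
        refine ⟨by omega, g2, fun i => ?_⟩
        have := g3 i
        simp only [sh_apply] at this
        rw [show i + n + 1 = i + (n+1) by ring, show i + n2 + 1 = i + (n2+1) by ring] at this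
        push_cast; omega
      | lim h' hc _ _ => exact absurd (hI.zero hP.1 e2) hc.ne_zero
    · obtain ⟨g1, g2, g3⟩ := ih t1 s1 _ Y _ _ h1 hP hI (by omega) hY (sh_mono hZ _ _) hdY
        (by have := hZ (show 0 < 1 by omega); simp only [sh_apply, Nat.zero_add]; omega)
        (fun i => by simp only [sh_apply]; have := hYZ i; have := hZs i; omega)
      refine ⟨by omega, g2, fun i => ?_⟩
      have := g3 i
      simp only [sh_apply] at this
      rw [show i + n2 + 1 = i + (n2+1) by ring] at this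
      push_cast; omega
  | @lim t2 s2 d2 x t2' s2' Z m1 k1 m2 k2 hlt hc2 hsub hrest ih1 ih2 =>
    intro t1 s1 d1 Y n1 l1 h1 hP hI hd hY hZ hdY hdZ hYZ
    have hkm : k1 ≤ m1 := hsub.le
    have hZZ : ∀ i, Z i ≤ Z (i+(m1+1)) - ((m1:ℤ)-k1) := fun i => by
      have := sm_add hZ i (m1+1)
      push_cast at this; omega
    have hZZ1 : ∀ i, Z (i+1) ≤ Z (i+(m1+1)) - ((m1:ℤ)-k1) := fun i => by
      have := sm_add hZ (i+1) m1
      rw [show i + 1 + m1 = i + (m1+1) by ring] at this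
      omega
    have hd20 : d2 - 1 < (sh Z (m1+1) ((m1:ℤ)-k1)) 0 := by
      have := hZZ 0
      simp only [sh_apply] at *; omega
    rcases eq_or_lt_of_le hd with he | hl
    · subst he
      cases h1 with
      | nil h' => omega
      | @suc _ _ _ _ _ n l h' h'' h3 =>
        obtain ⟨g1, g2, g3⟩ := ih2 t1 s1 _ (sh Y 1 1) _ _ h3 hP hI le_rfl (sh_mono hY _ _) (sh_mono hZ _ _)
          (by have := hY (show 0 < 1 by omega); simp only [sh_apply, Nat.zero_add]; omega)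
          hd20
          (fun i => by
            simp only [sh_apply]
            have := hYZ (i+1)
            have := hZZ1 i
            omega)
        refine ⟨by omega, by omega, fun i => ?_⟩
        have := g3 i
        simp only [sh_apply] at this
        rw [show i + n + 1 = i + (n+1) by ring, show i + m2 + (m1+1) = i + (m1+1+m2) by ring] at this
        push_cast; omega
      | @lim _ _ _ _ t1' s1' _ a1 b1 a2 b2 h' hc1 hs1 hr1 =>
        have hpk := hc1.pk' (hP.mono (by omega))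
        obtain ⟨g1, g2, g3⟩ := ih1 t1' s1' _ (sh Y 1 0) _ _ hs1 hpk.pw (hI.child hlt hc1 hc2) (hYZ 0)
          (sh_mono hY _ _) (sh_mono hZ _ _)
          (by have := hY (show 0 < 1 by omega); simp only [sh_apply, Nat.zero_add]; omega)
          (by have := hZ (show 0 < 1 by omega); simp only [sh_apply, Nat.zero_add]; omega)
          (fun i => by simp only [sh_apply]; have := hYZ (i+1); omega)
        have hab := hs1.le
        have hd10 : d1 - 1 < (sh Y (a1+1) ((a1:ℤ)-b1)) 0 := by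
          have := sm_add hY 0 (a1+1)
          simp only [sh_apply]; push_cast at this; omega
        obtain ⟨f1, f2, f3⟩ := ih2 t1 s1 _ (sh Y (a1+1) ((a1:ℤ)-b1)) _ _ hr1 hP hI le_rfl
          (sh_mono hY _ _) (sh_mono hZ _ _) hd10 hd20
          (fun i => by
            have := g3 i
            simp only [sh_apply] at this ⊢
            rw [show i + a1 + 1 = i + (a1+1) by ring, show i + m1 + 1 = i + (m1+1) by ring] at this
            omega)
        refine ⟨by omega, by omega, fun i => ?_⟩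
        have := f3 i
        simp only [sh_apply] at this
        rw [show i + a2 + (a1+1) = i + (a1+1+a2) by ring, show i + m2 + (m1+1) = i + (m1+1+m2) by ring] at this
        push_cast; omega
    · obtain ⟨g1, g2, g3⟩ := ih2 t1 s1 _ Y _ _ h1 hP hI (by omega) hY (sh_mono hZ _ _) hdY hd20
        (fun i => by simp only [sh_apply]; have := hYZ i; have := hZZ i; omega)
      refine ⟨by omega, by omega, fun i => ?_⟩
      have := g3 i
      simp only [sh_apply] at this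
      rw [show i + m2 + (m1+1) = i + (m1+1+m2) by ring] at this
      push_cast; omega

/-- one step from a successor, read backwards -/
lemma Rk_succ_iff {u : ℚ} {m : ℤ} (h : St u (Kd.S m)) {k : ℕ} {X : ℕ → ℤ} :
    Rk (k+1) u X ↔ Rk k (u - w m) (sh X 1 1) := by
  constructor
  · rintro (⟨m', g1, g2⟩ | ⟨t, s, g1, g2⟩)
    · have := h.S_inj g1
      subst this
      exact g2
    · have := h.func g1
      cases this
  · intro g
    exact Or.inl ⟨m, h, g⟩

lemma Rk_lim_iff {u t : ℚ} {s : ℤ} (h : St u (Kd.L t s)) {k : ℕ} {X : ℕ → ℤ} :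
    Rk (k+1) u X ↔ Rk k (u - w (X 0)) (sh X 1 0) := by
  constructor
  · rintro (⟨m', g1, g2⟩ | ⟨t, s, g1, g2⟩)
    · have := h.func g1
      cases this
    · exact g2
  · intro g
    exact Or.inr ⟨t, s, h, g⟩

/-- growth hypothesis: all children of the second type contain the successors of the children of the first type -/
def Gr (t1 : ℚ) (s1 : ℤ) (t2 : ℚ) (s2 : ℤ) (x : ℤ) : Prop :=
  t2 ≠ 0 ∧ ∀ (d : ℤ) (t1' : ℚ) (s1' : ℤ) (t2' : ℚ) (s2' : ℤ) (u : ℚ) (m : ℤ), x < d → Ch t1 s1 d t1' s1' →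
    Ch t2 s2 d t2' s2' → St u (Kd.S m) → u - w m = t1' → Inc u s1' t2' s2' d

/-- Rk from v to its successor u -/
lemma Inc_next {v u : ℚ} {m s x : ℤ} (hp : Pk v s x) (hu : St u (Kd.S m)) (e : u - w m = v) :
    Inc v s u s x := by
  intro X k hX hx hr
  cases k with
  | zero => trivial
  | succ k =>
    rw [Rk_succ_iff hu, e, sh_sh, show 0 + 1 = 1 by rfl]
    have hX1 := hX (show 0 < 1 by omega)
    have hnn := hp.nn
    have hw2 : Wf v (sh X 1 (s+1)) :=
      ⟨sh_mono hX _ _, by simp only [sh_apply, Nat.zero_add]; omega,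
        by simp only [sh_apply, Nat.zero_add]; exact hp.dy.mono (by omega)⟩
    have hw1 : Wf v (sh X 0 s) :=
      ⟨sh_mono hX _ _, by simp only [sh_apply, Nat.zero_add]; omega,
        by simp only [sh_apply, Nat.zero_add]; exact hp.dy.mono (by omega)⟩
    refine Rk_dom k v v (sh X 0 s) (sh X 1 (s+1)) hp.tame hp.tame hw1 hw2 le_rfl ?_ hr.pred
    intro i _
    have := hX (show i < i + 1 by omega)
    simp only [sh_apply, Nat.add_zero]; omega

lemma Gr_next {v u : ℚ} {m s x : ℤ} (hp : Pk v s x) (hu : St u (Kd.S m)) (e : u - w m = v) :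
    Gr v s u s x := by
  refine ⟨by have := hu.S_half_le; intro h0; linarith, ?_⟩
  intro d t1' s1' t2' s2' u' m' hd h1 h2 hu' e'
  obtain ⟨f1, f2⟩ := h2.func (Or.inl ⟨m, hu, rfl, rfl⟩)
  rw [e] at f1
  subst f1; subst f2
  rcases h1 with ⟨m1, g1, g2, g3⟩ | ⟨⟨a, b, g1⟩, g2, g3⟩
  · have : u' = t2' := next_unique hu' g1 (by rw [e', g2])
    rw [this, g3]
    exact Inc.refl _ _ _
  · intro X k hX hdX hr
    cases k with
    | zero => trivial
    | succ k =>
      rw [Rk_succ_iff hu', e', sh_sh] at hr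
      rw [Rk_lim_iff g1, sh_sh, sh_apply]
      have hX1 := hX (show 0 < 1 by omega)
      have hnn := hp.nn
      have hd1 := hp.dy
      subst g3
      rw [show (0 + 1 : ℕ) = 1 by rfl, show (0 + 0 : ℕ) = 0 by rfl] at *
      rw [add_zero]
      have hT1 : T t1' := by rw [g2]; exact g1.T_sub (by omega) (hd1.mono (by omega))
      have hT2 : T (t2' - w (X 0 - (s1' + 1))) := g1.T_sub (by omega) (hd1.mono (by omega))
      refine Rk_dom k t1' (t2' - w (X 0 - (s1' + 1))) (sh X 1 (s1'+1)) (sh X 1 (s1'+1)) hT1 hT2 ?_ ?_ ?_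
        (fun i _ => le_rfl) hr
      · refine ⟨sh_mono hX _ _, by simp only [sh_apply, Nat.zero_add]; omega, ?_⟩
        simp only [sh_apply, Nat.zero_add]
        rw [g2]
        exact (hd1.mono (by omega)).sub (dy_w (by omega))
      · refine ⟨sh_mono hX _ _, by simp only [sh_apply, Nat.zero_add]; omega, ?_⟩
        simp only [sh_apply, Nat.zero_add]
        exact (hd1.mono (by omega)).sub (dy_w (by omega))
      · rw [g2]
        have : w (X 0 - (s1' + 1)) ≤ w (d - s1') := w_le (by omega)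
        linarith

theorem Lp_grow {t1 : ℚ} {s1 d1 x : ℤ} {Y : ℕ → ℤ} {n1 l1 : ℕ} (h1 : Lp t1 s1 d1 x Y n1 l1) :
    ∀ (t2 : ℚ) (s2 d2 : ℤ) (Z : ℕ → ℤ) (n2 l2 : ℕ), Lp t2 s2 d2 x Z n2 l2 → Pk t1 s1 x →
    Gr t1 s1 t2 s2 x → d1 ≤ d2 → StrictMono Y → StrictMono Z → d1 < Y 0 → d2 < Z 0 → (∀ i, Y i ≤ Z i) →
    n1 ≤ l2 ∧ ∀ i, Y (i+n1) - ((n1:ℤ)-l1) ≤ Z (i+n2) - ((n2:ℤ)-l2) := by
  induction h1 with
  | @nil t1 s1 d1 x Y h =>
    intro t2 s2 d2 Z n2 l2 h2 hP hG hd hY hZ hdY hdZ hYZ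
    refine ⟨by omega, fun i => ?_⟩
    have := sm_add hZ i n2
    have := h2.le
    have := hYZ i
    simp only [Nat.add_zero]; push_cast; omega
  | @suc t1 s1 d1 x Y n l h0 hlt hrest ih =>
    intro t2 s2 d2 Z n2 l2 h2 hP hG hd hY hZ hdY hdZ hYZ
    obtain ⟨a1, b1, a2, b2, g1, g2, g3, g4⟩ := h2.split d1 (by omega) hd
    subst g3; subst g4
    cases g2 with
    | nil h' => omega
    | suc h' _ _ => exact absurd h' hG.1
    | @lim _ _ _ _ t2' s2' _ m1 k1 m2 k2 hlt' hc2 hsub hr2 =>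
      have hab := g1.le
      have hkm := hsub.le
      rw [sh_sh] at hr2
      have hZZ : ∀ i, Z i ≤ Z (i+(a1+(m1+1))) - ((a1:ℤ)-b1+((m1:ℤ)-k1)) := fun i => by
        have := sm_add hZ i (a1+(m1+1))
        push_cast at this; omega
      have hZZ1 : ∀ i, Z (i+1) ≤ Z (i+(a1+(m1+1))) - ((a1:ℤ)-b1+((m1:ℤ)-k1)) := fun i => by
        have := sm_add hZ (i+1) (a1+m1)
        rw [show i + 1 + (a1 + m1) = i + (a1+(m1+1)) by ring] at this
        push_cast at this; omega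
      obtain ⟨f1, f2⟩ := ih t2 s2 _ _ _ _ hr2 hP hG le_rfl (sh_mono hY 1 1) (sh_mono hZ _ _)
        (by have := hY (show 0 < 1 by omega); simp only [sh_apply, Nat.zero_add]; omega)
        (by have := hZZ 0; simp only [sh_apply] at *; omega)
        (fun i => by
          simp only [sh_apply]
          have := hYZ (i+1)
          have := hZZ1 i
          omega)
      refine ⟨by omega, fun i => ?_⟩
      have := f2 i
      simp only [sh_apply] at this
      rw [show i + n + 1 = i + (n+1) by ring, show i + m2 + (a1 + (m1+1)) = i + (a1 + (m1+1+m2)) by ring] at this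
      push_cast; omega
  | @lim t1 s1 d1 x t1' s1' Y p1 q1 p2 q2 hlt hc1 hs1 hr1 ih1 ih2 =>
    intro t2 s2 d2 Z n2 l2 h2 hP hG hd hY hZ hdY hdZ hYZ
    obtain ⟨a1, b1, a2, b2, g1, g2, g3, g4⟩ := h2.split d1 (by omega) hd
    subst g3; subst g4
    cases g2 with
    | nil h' => omega
    | suc h' _ _ => exact absurd h' hG.1
    | @lim _ _ _ _ t2' s2' _ m1 k1 m2 k2 hlt' hc2 hsub hr2 =>
      have hab := g1.le
      have hkm := hsub.le
      have hpq := hs1.le
      rw [sh_sh] at hr2 hsub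
      rw [sh_apply] at hsub
      have hpk' := hc1.pk (hP.mono (by omega))
      obtain ⟨u, m, hu, he⟩ := exists_next hpk'.tame
      have hZ0 : Y 0 ≤ Z (0 + a1) - ((a1:ℤ)-b1) := by
        have := sm_add hZ 0 a1
        have := hYZ 0
        omega
      have hZm := hZ (show 0 + a1 < a1 + 1 by omega)
      have hYm := hY (show 0 < 1 by omega)
      have hinc : Inc u s1' t2' s2' d1 := hG.2 d1 t1' s1' t2' s2' u m hlt hc1 hc2 hu he
      have hinc2 : Inc t1' s1' t2' s2' d1 := (Inc_next hpk' hu he).trans hinc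
      have hpw : Pw u s1' d1 := ⟨⟨_, hu⟩, hpk'.nn, Or.inr ⟨m, hu, by rw [he]; exact hpk'.dy⟩⟩
      obtain ⟨n3, l3, h3⟩ := Lp_exists' (d := Z (0 + a1) - ((a1:ℤ)-b1)) (X := sh Z (a1+1) ((a1:ℤ)-b1+0)) hpw
        (by omega) (sh_mono hZ _ _) (by simp only [sh_apply, Nat.zero_add]; rw [Nat.zero_add] at hZm; omega)
      have hYZ' : ∀ i, sh Y 1 0 i ≤ sh Z (a1+1) ((a1:ℤ)-b1+0) i := fun i => by
        simp only [sh_apply]
        have := hYZ (i+1)
        have := sm_add hZ (i+1) a1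
        rw [show i + 1 + a1 = i + (a1+1) by ring] at this
        omega
      have hdZ' : Z (0 + a1) - ((a1:ℤ)-b1) < (sh Z (a1+1) ((a1:ℤ)-b1+0)) 0 := by
        simp only [sh_apply, Nat.zero_add]; rw [Nat.zero_add] at hZm; omega
      obtain ⟨c1, c2⟩ := ih1 u s1' _ _ _ _ h3 hpk' (Gr_next hpk' hu he) hZ0 (sh_mono hY 1 0) (sh_mono hZ _ _)
        (by simp only [sh_apply, Nat.zero_add]; omega) hdZ' hYZ'
      have hsub' := hsub
      obtain ⟨e1, e2, e3⟩ := Lp_dom hsub u s1' _ _ _ _ h3 hpw hinc le_rfl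
        (sh_mono hZ _ _) (sh_mono hZ _ _) hdZ' hdZ' (fun i => le_rfl)
      obtain ⟨e4, e5, e6⟩ := Lp_dom hsub t1' s1' _ _ _ _ hs1 hpk'.pw hinc2 hZ0
        (sh_mono hY 1 0) (sh_mono hZ _ _) (by simp only [sh_apply, Nat.zero_add]; omega) hdZ' hYZ'
      have hd10 : d1 - 1 < (sh Y (p1+1) ((p1:ℤ)-q1)) 0 := by
        have := sm_add hY 0 (p1+1)
        simp only [sh_apply]; push_cast at this; omega
      have hd20 : d1 - 1 < (sh Z (a1+(m1+1)) ((a1:ℤ)-b1+((m1:ℤ)-k1))) 0 := by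
        have := sm_add hZ 0 (a1+(m1+1))
        simp only [sh_apply]; push_cast at this; omega
      obtain ⟨f1, f2⟩ := ih2 t2 s2 _ _ _ _ hr2 hP hG le_rfl (sh_mono hY _ _) (sh_mono hZ _ _) hd10 hd20
        (fun i => by
          have := e6 i
          simp only [sh_apply] at this ⊢
          rw [show i + p1 + 1 = i + (p1+1) by ring, show i + m1 + (a1 + 1) = i + (a1 + (m1+1)) by ring] at this
          omega)
      refine ⟨by omega, fun i => ?_⟩
      have := f2 i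
      simp only [sh_apply] at this
      rw [show i + p2 + (p1+1) = i + (p1+1+p2) by ring, show i + m2 + (a1 + (m1+1)) = i + (a1 + (m1+1+m2)) by ring] at this
      push_cast; omega

end Pool.Agent.Helper820
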