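import Pool.Agent.Helper820.FusLL

set_option autoImplicit false

namespace Pool.Agent.Helper820

/-- value of the first k digits of a string -/
def S (X : ℕ → ℤ) (k : ℕ) : ℚ := ∑ i ∈ Finset.range k, w (X i)

lemma S_zero (X : ℕ → ℤ) : S X 0 = 0 := by simp [S]

lemma S_succ (X : ℕ → ℤ) (k : ℕ) : S X (k+1) = S X k + w (X k) := by
  simp [S, Finset.sum_range_succ]

lemma S_add (X : ℕ → ℤ) (j k : ℕ) : S X (j+k) = S X j + S (sh X j 0) k := by
  induction k with
  | zero => simp [S_zero]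
  | succ k ih =>
    rw [← Nat.add_assoc, S_succ, ih, S_succ, sh_apply, sub_zero, Nat.add_comm k j]
    ring

lemma S_front (X : ℕ → ℤ) (k : ℕ) : S X (k+1) = w (X 0) + S (sh X 1 0) k := by
  rw [Nat.add_comm, S_add]
  simp [S]

lemma S_shift (X : ℕ → ℤ) (k : ℕ) (c : ℤ) : S (sh X 0 c) k = S X k * w (-c) := by
  induction k with
  | zero => simp [S_zero]
  | succ k ih =>
    rw [S_succ, S_succ, ih, sh_apply, Nat.add_zero, sub_eq_add_neg, w_add]
    ring

lemma S_nonneg (X : ℕ → ℤ) (k : ℕ) : 0 ≤ S X k := Finset.sum_nonneg fun i _ => (w_pos _).le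

lemma S_lt {X : ℕ → ℤ} (hX : StrictMono X) {n : ℤ} (hn : n < X 0) (k : ℕ) : S X k < w n := by
  induction k generalizing X n with
  | zero => rw [S_zero]; exact w_pos n
  | succ k ih =>
    rw [S_front]
    have h1 := ih (sh_mono hX 1 0) (n := X 0) (by
      have := hX (show 0 < 1 by omega)
      simp only [sh_apply, Nat.zero_add]; omega)
    have h2 : w (X 0) ≤ w (n+1) := w_le (by omega)
    rw [w_add_one] at h2
    linarith

lemma S_dy {X : ℕ → ℤ} (hX : StrictMono X) {p : ℤ} (k : ℕ) (hp : ∀ i, i < k → X i ≤ p) : Dy p (S X k) := by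
  induction k with
  | zero => rw [S_zero]; exact dy_zero p
  | succ k ih =>
    rw [S_succ]
    exact (ih fun i hi => hp i (by omega)).add (dy_w (hp k (by omega)))

lemma S_dy' {X : ℕ → ℤ} (hX : StrictMono X) (k : ℕ) : Dy (X k - 1) (S X k) :=
  S_dy hX k fun i hi => by have := hX hi; omega

lemma S_le_of_le {X : ℕ → ℤ} {j k : ℕ} (h : j ≤ k) : S X j ≤ S X k := by
  obtain ⟨m, rfl⟩ := Nat.exists_eq_add_of_le h
  rw [S_add]
  have := S_nonneg (sh X j 0) m
  linarith

lemma S_congr {X Y : ℕ → ℤ} {k : ℕ} (h : ∀ i, i < k → X i = Y i) : S X k = S Y k := by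
  unfold S
  apply Finset.sum_congr rfl
  intro i hi
  rw [h i (Finset.mem_range.mp hi)]

lemma Dy.mul_w {p c : ℤ} {x : ℚ} (h : Dy p x) : Dy (p+c) (x * w c) := by
  obtain ⟨z, rfl⟩ := h
  exact ⟨z, by rw [w_add]; ring⟩

def Kd.shift (c : ℤ) : Kd → Kd
  | Kd.Z => Kd.Z
  | Kd.S m => Kd.S (m+c)
  | Kd.L t s => Kd.L t (s+c)

/-- isomorphism of the trees below two pointers with the same type -/
theorem iso {g1 g2 t : ℚ} {s1 s2 p1 p2 : ℤ} (h1 : St g1 (Kd.L t s1)) (h2 : St g2 (Kd.L t s2))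
    (hp1 : 0 ≤ p1) (hd1 : Dy p1 g1) (hp2 : 0 ≤ p2) (hd2 : Dy p2 g2) (hp : p2 ≤ p1 + (s2 - s1)) {z : ℚ} {κ : Kd} (hz : St z κ) :
    g1 - w p1 < z → z ≤ g1 → St (g2 - (g1 - z) * w (s2 - s1)) (Kd.shift (s2-s1) κ) := by
  have base : ∀ κ, St g1 κ → St (g2 - (g1 - g1) * w (s2 - s1)) (Kd.shift (s2-s1) κ) := by
    intro κ hκ
    have := h1.func hκ
    rw [← this]
    simp only [sub_self, zero_mul, sub_zero, Kd.shift]
    rw [show s1 + (s2 - s1) = s2 by ring]
    exact h2
  have same : ∀ z κ, St z κ → Dy p1 z → g1 - w p1 < z → z ≤ g1 →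
      St (g2 - (g1 - z) * w (s2 - s1)) (Kd.shift (s2-s1) κ) := by
    intro z κ hz hd ha hb
    have := (hd.sub hd1).eq_zero_of_lt (by linarith [w_pos p1]) (by linarith)
    have e : z = g1 := by linarith
    subst e
    exact base κ hz
  have up : ∀ (x : ℚ) (n : ℤ), Dy (n-1) x → p1 < n → g1 - w p1 < x - w n → x - w n ≤ g1 →
      g1 - w p1 < x ∧ x ≤ g1 ∧ 1 ≤ n + (s2 - s1) ∧ Dy (n + (s2-s1) - 1) (g2 - (g1 - x) * w (s2 - s1)) := by
    intro x n hx hn ha hb
    have hxd : Dy (n-1) (x - g1) := hx.sub (hd1.mono (by omega))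
    refine ⟨by linarith [w_pos n], ?_, by omega, ?_⟩
    · by_contra hc
      have := hxd.le_of_pos (by linarith)
      rw [w_sub_one] at this
      have := w_pos n
      linarith
    · refine (hd2.mono (by omega)).sub ?_
      have : Dy (n-1) (g1 - x) := (hd1.mono (by omega)).sub hx
      have := this.mul_w (c := s2 - s1)
      rwa [show n - 1 + (s2 - s1) = n + (s2 - s1) - 1 by ring] at this
  have conv : ∀ (x : ℚ) (n : ℤ), g2 - (g1 - (x - w n)) * w (s2 - s1) =
      (g2 - (g1 - x) * w (s2 - s1)) - w (n + (s2 - s1)) := by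
    intro x n; rw [w_add]; ring
  induction hz with
  | zero => intro ha hb; exact same _ _ St.zero (dy_zero p1) ha hb
  | root k => intro ha hb; exact same _ _ (St.root k) ((dy_nat hp1 k).add (dy_one hp1)) ha hb
  | @cz x s n g1' g2' g3' ih =>
    intro ha hb
    by_cases hn : n ≤ p1
    · exact same _ _ (St.cz g1' g2' g3') ((child_dy g3').mono hn) ha hb
    · obtain ⟨u1, u2, u3, u4⟩ := up x n g3' (by omega) ha hb
      rw [conv]
      exact St.cz (ih u1 u2) u3 u4
  | @cs x t' s m n g1' g2' g3' g4' ih1 ih2 =>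
    intro ha hb
    by_cases hn : n ≤ p1
    · exact same _ _ (St.cs g1' g2' g3' g4') ((child_dy g4').mono hn) ha hb
    · obtain ⟨u1, u2, u3, u4⟩ := up x n g4' (by omega) ha hb
      rw [conv]
      have := St.cs (ih1 u1 u2) g2' u3 u4
      simp only [Kd.shift] at this ⊢
      rw [show s + 1 + (s2 - s1) = s + (s2 - s1) + 1 by ring]
      exact this
  | @cl x t' t'' s s'' n g1' g2' g3' g4' ih1 ih2 =>
    intro ha hb
    by_cases hn : n ≤ p1
    · exact same _ _ (St.cl g1' g2' g3' g4') ((child_dy g4').mono hn) ha hb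
    · obtain ⟨u1, u2, u3, u4⟩ := up x n g4' (by omega) ha hb
      rw [conv]
      have := St.cl (ih1 u1 u2) g2' u3 u4
      simp only [Kd.shift] at this ⊢
      rw [show n - s = n + (s2 - s1) - (s + (s2 - s1)) by ring]
      exact this

/-- below g of type (t,s) versus below t+1 -/
lemma iso_down {g t r : ℚ} {s p : ℤ} (h : St g (Kd.L t s)) (hp : 0 ≤ p) (hd : Dy p g) (h0 : 0 ≤ r) (hr : r < w p)
    (hT : T (g - r)) : T (t + 1 - r * w (-s)) := by
  obtain ⟨κ, hκ⟩ := hT
  have hpos := h.L_pos hp hd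
  obtain ⟨κt, ht⟩ := h.T_type
  have h2 := ht.add_one
  have := iso (p1 := p) (p2 := p - s) h h2 hp hd hpos.1 (hpos.2.add (dy_one hpos.1)) (by omega) hκ
    (by linarith) (by linarith)
  rw [show (0:ℤ) - s = -s by ring, show g - (g - r) = r by ring] at this
  exact ⟨_, this⟩

lemma iso_up {g t r : ℚ} {s p : ℤ} (h : St g (Kd.L t s)) (hp : 0 ≤ p) (hd : Dy p g) (h0 : 0 ≤ r) (hr : r < w p)
    (hT : T (t + 1 - r * w (-s))) : T (g - r) := by
  obtain ⟨κ, hκ⟩ := hT
  have hpos := h.L_pos hp hd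
  obtain ⟨κt, ht⟩ := h.T_type
  have h2 := ht.add_one
  have h3 : r * w (-s) < w (p - s) := by
    rw [sub_eq_add_neg, w_add]
    exact mul_lt_mul_of_pos_right hr (w_pos _)
  have := iso (p1 := p - s) (p2 := p) h2 h hpos.1 (hpos.2.add (dy_one hpos.1)) hp hd (by omega) hκ
    (by linarith) (by have := mul_nonneg h0 (w_pos (-s)).le; linarith)
  rw [show s - 0 = s by ring, show (t + 1 - (t + 1 - r * w (-s))) * w s = r * (w (-s) * w s) by ring,
    ← w_add, show -s + s = 0 by ring, w_zero, mul_one] at this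
  exact ⟨_, this⟩

/-- link between runs of the type machine and tame numbers -/
lemma link_up : ∀ (k : ℕ) (g t : ℚ) (s : ℤ) (X : ℕ → ℤ), St g (Kd.L t s) → Wf g X → Rk k t (sh X 0 s) →
    T (g - S X (k+1)) := by
  intro k
  induction k with
  | zero =>
    intro g t s X h hw _
    rw [S_succ, S_zero, zero_add]
    exact T_child h hw.pos hw.dy
  | succ k ih =>
    intro g t s X h hw hr
    rw [S_front, show g - (w (X 0) + S (sh X 1 0) (k+1)) = g - w (X 0) - S (sh X 1 0) (k+1) by ring]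
    rcases hr with ⟨m, g1, g2⟩ | ⟨u, v, g1, g2⟩
    · refine ih _ _ _ _ (St.cs h g1 hw.pos hw.dy) hw.lim ?_
      rw [sh_sh] at g2 ⊢
      rw [show 1 + 0 = 0 + 1 by rfl, show 0 + (s+1) = s + 1 by ring]
      exact g2
    · refine ih _ _ _ _ (St.cl h g1 hw.pos hw.dy) hw.lim ?_
      rw [sh_sh] at g2 ⊢
      rw [show 1 + 0 = 0 + 1 by rfl, show 0 + s = s + 0 by ring]
      exact g2

lemma link_down : ∀ (k : ℕ) (g t : ℚ) (s : ℤ) (X : ℕ → ℤ), St g (Kd.L t s) → Wf g X → T (g - S X (k+1)) →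
    Rk k t (sh X 0 s) := by
  intro k
  induction k with
  | zero => intro g t s X h hw _; trivial
  | succ k ih =>
    intro g t s X h hw hT
    rw [S_front, show g - (w (X 0) + S (sh X 1 0) (k+1)) = g - w (X 0) - S (sh X 1 0) (k+1) by ring] at hT
    have hX1 := hw.sm (show 0 < 1 by omega)
    have hpos : 0 < S (sh X 1 0) (k+1) := by
      rw [S_front]
      have := S_nonneg (sh (sh X 1 0) 1 0) k
      have := w_pos ((sh X 1 0) 0)
      linarith
    have hlt := S_lt (sh_mono hw.sm 1 0) (n := X 0) (by simp only [sh_apply, Nat.zero_add]; omega) (k+1)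
    rcases hT.ancestor (v := g - w (X 0)) (p := X 0) (by have := hw.pos; omega) (child_dy hw.dy) (by linarith)
      (by linarith) with h1 | ⟨t', s', h1⟩
    · exfalso; linarith
    · rcases h.T_type.cases with h0 | ⟨m, hm⟩ | ⟨u, v, hL⟩
      · exfalso
        subst h0
        have := (St.cz h hw.pos hw.dy).func h1
        cases this
      · have hc := St.cs h hm hw.pos hw.dy
        have := ih _ _ _ _ hc hw.lim hT
        refine Or.inl ⟨m, hm, ?_⟩
        rw [sh_sh] at this ⊢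
        rw [show 1 + 0 = 0 + 1 by rfl, show 0 + (s+1) = s + 1 by ring] at this
        exact this
      · have hc := St.cl h hL hw.pos hw.dy
        have := ih _ _ _ _ hc hw.lim hT
        refine Or.inr ⟨u, v, hL, ?_⟩
        rw [sh_sh] at this ⊢
        rw [show 1 + 0 = 0 + 1 by rfl, show 0 + s = s + 0 by ring] at this
        exact this

lemma Wf.add_one {x : ℚ} {X : ℕ → ℤ} (h : Wf x X) : Wf (x+1) X :=
  ⟨h.sm, h.pos, h.dy.add (dy_one (by have := h.pos; omega))⟩

/-- membership by the machine -/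
lemma T_iff {x : ℚ} {X : ℕ → ℤ} (hx : T x) (hw : Wf x X) (k : ℕ) : T (x + 1 - S X (k+1)) ↔ Rk k x X := by
  obtain ⟨κ, h⟩ := hx
  constructor
  · intro hT
    have := link_down k (x+1) x 0 X h.add_one hw.add_one hT
    rwa [sh_zero] at this
  · intro hr
    exact link_up k (x+1) x 0 X h.add_one hw.add_one (by rwa [sh_zero])

end Pool.Agent.Helper820
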