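import Pool.Agent.Helper820.FusGrow

set_option autoImplicit false

namespace Pool.Agent.Helper820

lemma w_two : w 2 = 1/4 := by have := w_add_one 1; rw [w_one] at this; norm_num at this; exact this

lemma child_L {t u : ℚ} {v n : ℤ} (h : St t (Kd.L u v)) (hu : u ≠ 0) (hn : 1 ≤ n) (hd : Dy (n-1) t) :
    ∃ a b, St (t - w n) (Kd.L a b) := by
  rcases h.T_type.cases with h0 | ⟨m, hm⟩ | ⟨a, b, hL⟩
  · exact absurd h0 hu
  · exact ⟨_, _, St.cs h hm hn hd⟩
  · exact ⟨_, _, St.cl h hL hn hd⟩

lemma Gr_type {t u : ℚ} {v s e : ℤ} (h : St t (Kd.L u v)) (hp : Pk t s (e-1)) :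
    Gr u (v+(1+s)) (t - w (e-s)) s (e+1) := by
  have hnn := hp.nn
  have hw1 : w (e - s) ≤ 1/2 := by
    rw [← w_one]; exact w_le (by omega)
  have ht1 := h.L_one_le
  have hb := h.L_bound
  have hv0 := h.L_shift_nonneg
  have hpos := h.L_pos hp.nn hp.dy
  refine ⟨by intro h0; linarith, ?_⟩
  intro d u' su' t2' s2' z m hd hc1 hc2 hz hze
  have hu0 := hc1.ne_zero
  obtain ⟨a, b, hL⟩ := child_L (n := e - s) h hu0 (by omega) (by
    have := hp.dy; rwa [show e - s - 1 = e - 1 - s by ring])
  obtain ⟨f1, f2⟩ := hc2.func (Or.inr ⟨⟨a, b, hL⟩, rfl, rfl⟩)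
  subst f1; subst f2
  have hpku : Pk u (v+(1+s2')) (d-1) := ⟨h.T_type, by omega, hpos.2.mono (by omega)⟩
  have hpk := hc1.pk hpku
  have hu'u : u' < u := by
    rcases hc1 with ⟨m1, g1, g2, g3⟩ | ⟨⟨a1, b1, g1⟩, g2, g3⟩
    · rw [g2]; linarith [w_pos m1]
    · rw [g2]; linarith [w_pos (d - (v+(1+s2')))]
  have hsu : s2' + 1 ≤ su' := by
    rcases hc1 with ⟨m1, g1, g2, g3⟩ | ⟨⟨a1, b1, g1⟩, g2, g3⟩ <;> omega
  have hzu : z ≤ u := next_le hz hze h.T_type hu'u
  have hw3 : w (d - s2') ≤ 1/4 := by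
    rw [← w_two]; exact w_le (by omega)
  have hdy1 : Dy (e - s2') (t - w (e - s2')) := (hp.dy.mono (by omega)).sub (dy_w le_rfl)
  have hT2 : T (t - w (e - s2') - w (d - s2')) := hL.T_sub (by omega) (hdy1.mono (by omega))
  have hdy2 : Dy (d - s2') (t - w (e - s2') - w (d - s2')) := (hdy1.mono (by omega)).sub (dy_w le_rfl)
  intro X k hX hdX hr
  cases k with
  | zero => trivial
  | succ k =>
    rw [Rk_succ_iff hz, hze, sh_sh] at hr
    have hX1 := hX (show 0 < 1 by omega)
    have hpn := hpk.nn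
    have hWu : Wf u' (sh X 1 (su'+1)) :=
      ⟨sh_mono hX _ _, by simp only [sh_apply, Nat.zero_add]; omega,
        by simp only [sh_apply, Nat.zero_add]; exact hpk.dy.mono (by omega)⟩
    have hWt : Wf (t - w (e - s2') - w (d - s2')) (sh X 0 s2') :=
      ⟨sh_mono hX _ _, by simp only [sh_apply, Nat.zero_add]; omega,
        by simp only [sh_apply, Nat.zero_add]; exact hdy2.mono (by omega)⟩
    have hzhalf := hz.S_half_le
    rcases hT2.cases with h0 | ⟨m2, hm2⟩ | ⟨a2, b2, hL2⟩
    · exfalso; linarith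
    · rw [Rk_succ_iff hm2]
      refine Rk_dom k u' _ (sh X 1 (su'+1)) _ hpk.tame hm2.T_pred hWu (hWt.suc hm2) ?_ ?_ hr
      · exact gap hm2 hpk.tame (by linarith [w_pos m])
      · intro i _
        simp only [sh_apply]
        rw [show i + 1 + 0 = i + 1 by ring]; omega
    · rw [Rk_lim_iff hL2]
      refine Rk_dom k u' _ (sh X 1 (su'+1)) _ hpk.tame (hWt.T_lim hL2) hWu hWt.lim ?_ ?_ hr
      · have hw4 : w ((sh X 0 s2') 0) ≤ 1/4 := by
          rw [← w_two]; exact w_le (by simp only [sh_apply, Nat.zero_add]; omega)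
        have : (1:ℚ)/2 + 1/4 + 1/4 = 1 := by norm_num
        linarith [w_pos m]
      · intro i _
        simp only [sh_apply]
        rw [show i + 1 + 0 = i + 1 by ring]; omega

theorem LL7 : ∀ t, T t → ∀ (s e : ℤ) (X : ℕ → ℤ) (t' : ℚ) (s' : ℤ) (n l : ℕ), Pk t s (e-1) → StrictMono X →
    e < X 0 → Ch t s e t' s' → Lp t' s' (X 0) e (sh X 1 0) n l → ∀ k, Rk k t (sh X 0 (1+s)) → k ≤ l + 1 := by
  refine T_induct ?_
  intro t ht IH s e X t' s' n l hp hX he hc hL k hk
  cases k with
  | zero => omega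
  | succ k =>
    have hX1 := hX (show 0 < 1 by omega)
    have hnn := hp.nn
    have hpk := hc.pk hp
    rcases hc with ⟨m, hm, e1, e2⟩ | ⟨⟨u, v, hu⟩, e1, e2⟩
    · rw [Rk_succ_iff hm, sh_sh, ← e1] at hk
      cases hL with
      | nil h' => omega
      | suc h' _ _ =>
        rw [h'] at hk
        have := Rk_zero_eq hk
        omega
      | @lim _ _ _ _ t'' s'' _ n1 l1 n2 l2 hlt hc' hL1 hL2 =>
        have := IH t' hpk.tame (by rw [e1]; linarith [w_pos m]) s' (X 0) (sh X 1 0) t'' s'' n1 l1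
          (hpk.mono (by omega)) (sh_mono hX _ _) (by simp only [sh_apply, Nat.zero_add]; omega) hc' hL1 k (by
            rw [sh_sh, e2]
            rw [show 1 + s + 1 = 0 + (1 + (s+1)) by ring] at hk
            exact hk)
        omega
    · rw [Rk_lim_iff hu, sh_sh] at hk
      have hk' : Rk k (t - w (X 0 - 1 - s)) (sh X 1 (1+s)) := by
        have e3 : (sh X 0 (1+s)) 0 = X 0 - 1 - s := by simp only [sh_apply]; ring_nf
        rw [e3] at hk
        rw [show 1 + s = 1 + s + 0 by ring]
        exact hk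
      have hpos := hu.L_pos (p := e - s) (by omega) (hp.dy.mono (by omega))
      have hpwu : Pw u v (e - s) := ⟨hu.T_type, hpos.1, Or.inl hpos.2⟩
      obtain ⟨nb, lb, hLb⟩ := Lp_exists' (d := X 0 - 1 - s) (X := sh X 1 (1+s)) hpwu (by omega) (sh_mono hX _ _)
        (by simp only [sh_apply, Nat.zero_add]; omega)
      have hrun := hLb.toRun t hu (by omega) (hp.dy.mono (by omega))
      have hLb' := hLb.shift (1+s)
      rw [sh_sh, show X 0 - 1 - s + (1+s) = X 0 by ring, show e - s + (1+s) = e + 1 by ring,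
        show 1 + s + -(1+s) = 0 by ring, show 1 + 0 = 1 by rfl] at hLb'
      obtain ⟨na, la, nc, lc, g1, g2, g3, g4⟩ := hL.split (e+1) (by omega) (by omega)
      have hGr := Gr_type hu hp
      rw [← e1, ← e2] at hGr
      have hpk1 : Pk u (v + (1 + s')) (e+1) := by
        rw [e2]
        exact ⟨hu.T_type, by omega, hpos.2.mono (by omega)⟩
      rw [← e2] at hLb'
      have hc1 := Lp_grow hLb' t' s' (X 0) (sh X 1 0) na la g1 hpk1 hGr le_rfl (sh_mono hX _ _) (sh_mono hX _ _)
        (by simp only [sh_apply, Nat.zero_add]; omega) (by simp only [sh_apply, Nat.zero_add]; omega)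
        (fun i => le_rfl)
      rcases Nat.lt_or_ge nb k with hkn | hkn
      swap
      · omega
      obtain ⟨k2, hk2⟩ : ∃ k2, k = nb + k2 := ⟨k - nb, by omega⟩
      rw [hk2] at hk'
      have hd2 := hrun.dropRk hk'
      rw [← e1, sh_sh] at hd2
      have hla := g1.le
      have hlb := hLb.le
      have hZ : StrictMono (sh (sh X 1 0) na ((na:ℤ)-la)) := sh_mono (sh_mono hX _ _) _ _
      have hZ0 : e + 1 < (sh (sh X 1 0) na ((na:ℤ)-la)) 0 := by
        have := sm_add hX 1 na
        simp only [sh_apply]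
        rw [show 0 + na + 1 = 1 + na by ring]; omega
      cases g2 with
      | nil h' => omega
      | suc h' _ _ =>
        exfalso
        have h1 := hu.L_one_le
        have h2 : w (e - s) ≤ 1/2 := by rw [← w_one]; exact w_le (by omega)
        rw [e1] at h'; linarith
      | @lim _ _ _ _ t'' s'' _ n1 l1 n2 l2 hlt hc' hL1 hL2 =>
        have hrk : Rk k2 t' (sh (sh (sh X 1 0) na ((na:ℤ)-la)) 0 (1+s')) := by
          refine Rk_dom k2 t' t' _ _ hpk.tame hpk.tame ?_ ?_ le_rfl ?_ hd2
          · have := sm_add hX 1 nb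
            refine ⟨sh_mono hX _ _, ?_, ?_⟩
            · simp only [sh_apply, Nat.zero_add]; omega
            · simp only [sh_apply, Nat.zero_add]
              exact hpk.dy.mono (by omega)
          · have := sm_add hX 1 na
            refine ⟨sh_mono hZ _ _, ?_, ?_⟩
            · simp only [sh_apply, Nat.zero_add, Nat.add_zero]
              rw [show na + 1 = 1 + na by ring]; omega
            · simp only [sh_apply, Nat.zero_add, Nat.add_zero]
              rw [show na + 1 = 1 + na by ring]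
              exact hpk.dy.mono (by omega)
          · intro i _
            have := hc1.2 i
            simp only [sh_apply, Nat.add_zero] at this ⊢
            rw [show i + (1 + nb) = i + nb + 1 by ring]
            omega
        have := IH t' hpk.tame (by rw [e1]; linarith [w_pos (e-s)]) s' (e+1) _ t'' s'' n1 l1
          (hpk.mono (by omega)) hZ hZ0 hc' hL1 k2 hrk
        omega

end Pool.Agent.Helper820
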