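import Pool.Agent.Helper820.FusMed

set_option autoImplicit false

namespace Pool.Agent.Helper820

structure LS (g t : ℚ) (s e : ℤ) (Λ : ℚ) (φ : ℕ → ℤ) (p : ℕ) (Y : ℕ → ℤ) (kb : ℕ) : Prop where
  hg : St g (Kd.L t s)
  ht : ∃ a b, St t (Kd.L a b)
  he : 0 ≤ e
  hde : Dy e g
  eΛ : Λ = g - w e
  hΛ : St Λ (Kd.L (t - w (e-s)) s)
  iso : ∀ r, 0 ≤ r → r < w (e-1) → (T (g - r) ↔ T (t + 1 - r * w (-s)))
  hφ : StrictMono φ
  hφ0 : e < φ 0
  hF : T (g - S φ (p+1))
  hY : StrictMono Y
  hY0 : e < Y 0
  hb : T (Λ + 1 - S Y (kb+1))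
  hab : w e + S Y (kb+1) ≤ S φ (p+1) + 1

variable {g t : ℚ} {s e : ℤ} {Λ : ℚ} {φ : ℕ → ℤ} {p : ℕ} {Y : ℕ → ℤ} {kb : ℕ}

lemma LS.posi (h : LS g t s e Λ φ p Y kb) : 0 ≤ e - s ∧ Dy (e-s) t := h.hg.L_pos h.he h.hde

lemma LS.wfg (h : LS g t s e Λ φ p Y kb) : Wf g φ :=
  ⟨h.hφ, by have := h.hφ0; have := h.he; omega, h.hde.mono (by have := h.hφ0; omega)⟩

lemma LS.wft (h : LS g t s e Λ φ p Y kb) : Wf t (sh φ 0 s) := by
  have h1 := h.hφ0
  have h2 := h.posi
  refine ⟨sh_mono h.hφ _ _, ?_, ?_⟩
  · simp only [sh_apply, Nat.add_zero]; omega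
  · simp only [sh_apply, Nat.add_zero]; exact h2.2.mono (by omega)

lemma LS.dyΛ (h : LS g t s e Λ φ p Y kb) : Dy e Λ := by
  rw [h.eΛ]; exact h.hde.sub (dy_w le_rfl)

lemma LS.wfΛ (h : LS g t s e Λ φ p Y kb) : Wf Λ Y :=
  ⟨h.hY, by have := h.hY0; have := h.he; omega, h.dyΛ.mono (by have := h.hY0; omega)⟩

lemma LS.Rkt (h : LS g t s e Λ φ p Y kb) : Rk p t (sh φ 0 s) :=
  link_down p g t s φ h.hg h.wfg h.hF

lemma LS.RkΛ (h : LS g t s e Λ φ p Y kb) : Rk kb Λ Y := (T_iff ⟨_, h.hΛ⟩ h.wfΛ kb).mp h.hb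

lemma LS.tle (h : LS g t s e Λ φ p Y kb) : t ≤ Λ := by
  have h1 := h.hg.L_bound
  have h2 : w e ≤ 1 := by rw [← w_zero]; exact w_le h.he
  rw [h.eΛ]; linarith

/-- a single digit b -/
lemma LS.single (h : LS g t s e Λ φ p Y kb) (hk : kb = 0) (hle : w e - w (Y 0) ≤ S φ (p+1)) :
    T ((g - S φ (p+1) + (Λ + 1 - S Y (kb+1)) + 1)/2) := by
  subst hk
  have hb : S Y (0+1) = w (Y 0) := by rw [S_succ, S_zero, zero_add]
  rw [hb]
  have hFlt : S φ (p+1) < w e := S_lt h.hφ h.hφ0 _
  have hs0 := h.hg.L_shift_nonneg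
  set γ := (S φ (p+1) - (w e - w (Y 0)))/2 with hγ
  have hγ0 : 0 ≤ γ := by rw [hγ]; linarith
  have hγ2 : 2 * γ < w (Y 0) := by rw [hγ]; linarith
  have hYe : w (Y 0) ≤ w e := w_le h.hY0.le
  have hgoal : (g - S φ (p+1) + (Λ + 1 - w (Y 0)) + 1)/2 = Λ + 1 - γ := by
    rw [hγ, h.eΛ]; ring
  rw [hgoal]
  refine T_of_Rk (e := e) h.hg.T_type ⟨_, h.hΛ⟩ h.tle h.wft h.Rkt h.he h.dyΛ ?_ hγ0 (by linarith [w_pos e]) ?_
  · exact dyex_half (dyex_sub (S_dyex h.hφ _) (dyex_sub (dyex_w _) (dyex_w _)))
  · intro q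
    have hF : S φ (p+1) = (w e - w (Y 0)) + 2 * γ := by rw [hγ]; ring
    have h1 : cnt q (S (sh φ 0 s) (p+1)) = cnt (q + s) (S φ (p+1)) := by
      rw [S_shift, cnt_mul_w, sub_neg_eq_add]
    have h2 : cnt q (S φ (p+1)) ≤ cnt (q+s) (S φ (p+1)) := cnt_mono (S_nonneg _ _) (by omega)
    have h3 : cnt q (S φ (p+1)) = cnt q (w e - w (Y 0)) + cnt q (2 * γ) := by
      rw [hF]
      exact cnt_disj (n := Y 0) ((dy_w h.hY0.le).sub (dy_w le_rfl)) (by linarith) (by linarith) hγ2
    have h4 : cnt q γ = cnt (q-1) (2 * γ) := by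
      rw [← cnt_half]; congr 1; ring
    have h5 : cnt (q-1) (2 * γ) ≤ cnt q (2 * γ) := cnt_mono (by linarith) (by omega)
    omega

lemma crit_eq (hφ : StrictMono φ) (hφ0 : e < φ 0) {i : ℕ} {x : ℚ} (hx : x < w (φ i))
    (hle : w e ≤ S φ (i+1) + w (φ i) + x) : S φ (i+1) + w (φ i) = w e := by
  have h1 : S φ (i+1) < w e := S_lt hφ hφ0 _
  have hi : e < φ i := by have := hφ.monotone (Nat.zero_le i); omega
  have hd : Dy (φ i) (S φ (i+1)) := S_dy hφ _ fun j hj => hφ.monotone (by omega)
  have h2 : Dy (φ i) (w e - S φ (i+1)) := (dy_w hi.le).sub hd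
  have h3 := h2.le_of_pos (by linarith)
  have h4 : Dy (φ i) (w e - S φ (i+1) - w (φ i)) := h2.sub (dy_w le_rfl)
  by_contra hne
  have h5 : 0 < w e - S φ (i+1) - w (φ i) := by
    rcases lt_or_eq_of_le (show 0 ≤ w e - S φ (i+1) - w (φ i) by linarith) with h | h
    · exact h
    · exfalso; apply hne; linarith
  have := h4.le_of_pos h5
  linarith

theorem LS.main (h : LS g t s e Λ φ p Y kb) (ih : IH (g - S φ (p+1)) (Λ + 1 - S Y (kb+1))) :
    T ((g - S φ (p+1) + (Λ + 1 - S Y (kb+1)) + 1)/2) := by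
  have hpos := h.posi
  have hs0 := h.hg.L_shift_nonneg
  have hFlt : S φ (p+1) < w e := S_lt h.hφ h.hφ0 _
  have hblt : S Y (kb+1) < w e := S_lt h.hY h.hY0 _
  have hF0 := S_nonneg φ (p+1)
  have hb0 := S_nonneg Y (kb+1)
  have hwe1 : w e ≤ 1 := by rw [← w_zero]; exact w_le h.he
  have hwe2 : w (e-1) = 2 * w e := w_sub_one e
  have hwe0 := w_pos e
  have hgb := h.hg.L_bound
  have eΛ := h.eΛ
  obtain ⟨i, sv, zv, hi, hlim, hTi, hsum, hTs, hTz, hsv0, hsz, hsvle, hdata⟩ := splz h.ht h.wft h.Rkt
  obtain ⟨i', bs, qs, hi', hlim', hTi', hsum', hTs', hTz', hsv0', hsz', hsvle', hdata'⟩ :=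
    splz ⟨_, _, h.hΛ⟩ h.wfΛ h.RkΛ
  -- scaling
  have hcc : w (-s) * w s = 1 := by rw [← w_add, show -s + s = 0 by ring, w_zero]
  have hc1 : 1 ≤ w (-s) := by rw [← w_zero]; exact w_le (by omega)
  have hc0 := w_pos s
  have hSc : ∀ n, S (sh φ 0 s) n * w s = S φ n := by
    intro n; rw [S_shift, mul_assoc, hcc, mul_one]
  set s1 := sv * w s with hs1
  set z1 := zv * w s with hz1
  have hs1c : s1 * w (-s) = sv := by rw [hs1, mul_assoc, mul_comm (w s), hcc, mul_one]
  have hz1c : z1 * w (-s) = zv := by rw [hz1, mul_assoc, mul_comm (w s), hcc, mul_one]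
  have hsum1 : s1 + z1 = 2 * S φ (p+1) := by
    rw [hs1, hz1, ← add_mul, hsum, mul_assoc, hSc]
  have hs1z1 : s1 < z1 := mul_lt_mul_of_pos_right hsz hc0
  have hs10 : 0 ≤ s1 := mul_nonneg hsv0 hc0.le
  have hs1F : s1 ≤ S φ (i+1) := by
    rw [← hSc]; exact mul_le_mul_of_nonneg_right hsvle hc0.le
  have hs1e : s1 < w e := lt_of_le_of_lt hs1F (S_lt h.hφ h.hφ0 _)
  have hbse : bs < w e := lt_of_le_of_lt hsvle' (S_lt h.hY h.hY0 _)
  by_cases hbz : z1 < w e + bs
  · -- exchange
    have hTbs : T (g - (w e + bs)) := by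
      rw [show g - (w e + bs) = Λ - bs by rw [eΛ]; ring]; exact hTs'
    have hTbs2 : T (t + 1 - (w e + bs) * w (-s)) :=
      (h.iso _ (by linarith) (by rw [hwe2]; linarith)).mp hTbs
    have hbc : w e + bs ≤ (w e + bs) * w (-s) := by
      have : 0 ≤ w e + bs := by linarith
      nlinarith
    have hbc2 : (w e + bs) * w (-s) ≤ 2 := by
      have h1 : w (e - 1) * w (-s) ≤ 2 := by
        rw [← w_add]
        have : w (-1) = 2 := by have := w_sub_one 0; rw [w_zero] at this; simpa using this
        rw [← this]; exact w_le (by omega)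
      have h2 : (w e + bs) * w (-s) ≤ w (e-1) * w (-s) :=
        mul_le_mul_of_nonneg_right (by rw [hwe2]; linarith) (w_pos _).le
      linarith
    have hbc3 : (w e + bs) * w (-s) < 2 := by
      have h2 : (w e + bs) * w (-s) < w (e-1) * w (-s) :=
        mul_lt_mul_of_pos_right (by rw [hwe2]; linarith) (w_pos _)
      have h1 : w (e - 1) * w (-s) ≤ 2 := by
        rw [← w_add]
        have : w (-1) = 2 := by have := w_sub_one 0; rw [w_zero] at this; simpa using this
        rw [← this]; exact w_le (by omega)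
      linarith
    have hsvb : zv < (w e + bs) * w (-s) := by
      rw [← hz1c]; exact mul_lt_mul_of_pos_right hbz (w_pos _)
    have c1 := ih.one (t - sv) (t + 1 - (w e + bs) * w (-s)) hTs hTbs2
      (by rw [abs_lt]; constructor <;> linarith) (by rw [eΛ]; linarith)
    have e1 : (t - sv + (t + 1 - (w e + bs) * w (-s)) + 1) / 2 = t + 1 - ((s1 + (w e + bs))/2) * w (-s) := by
      rw [← hs1c]; ring
    rw [e1] at c1
    have hTa : T (g - (s1 + (w e + bs))/2) :=
      (h.iso _ (by linarith) (by rw [hwe2]; linarith)).mpr c1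
    have hTz1 : T (g - z1) := by
      refine (h.iso z1 (by linarith) (by rw [hwe2]; linarith)).mpr ?_
      rw [hz1c]; exact hTz
    have hTq : T (g + 1 - (w e + qs)) := by
      rw [show g + 1 - (w e + qs) = Λ + 1 - qs by rw [eΛ]; ring]; exact hTz'
    have hab := h.hab
    have c2 := ih.one (g - z1) (g + 1 - (w e + qs)) hTz1 hTq
      (by rw [abs_lt]; constructor <;> linarith) (by rw [eΛ]; linarith)
    have e2 : (g - z1 + (g + 1 - (w e + qs)) + 1) / 2 = g + 1 - (z1 + (w e + qs))/2 := by ring
    rw [e2] at c2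
    have hsumF : g - (s1 + (w e + bs))/2 + (g + 1 - (z1 + (w e + qs))/2) =
        g - S φ (p+1) + (Λ + 1 - S Y (kb+1)) := by
      rw [eΛ]; linarith
    have := ih.two _ _ hTa c2 hsumF (by linarith) (by linarith)
    rwa [hsumF] at this
  · -- critical situation
    have hbz' : w e + bs ≤ z1 := not_lt.mp hbz
    rcases hdata with ⟨hip, -, hzv⟩ | ⟨hip, hSt, -, hzv⟩
    · -- F consists of limit steps only
      subst hip
      have hz1' : z1 = S φ (i+1) + w (φ i) := by
        have hm0 : (sh φ 0 s) i = φ i - s := rfl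
        rw [hz1, hzv, hm0, add_mul, hSc, ← w_add, show φ i - s + s = φ i by ring]
      have hcrit := crit_eq (x := 0) h.hφ h.hφ0 (w_pos (φ i)) (by rw [add_zero, ← hz1']; linarith)
      have hbs : bs = 0 := by linarith
      have hkb : kb = 0 := by
        rcases hdata' with ⟨h1, h2, -⟩ | ⟨h1, -, h2, -⟩
        · by_contra hne
          obtain ⟨k, rfl⟩ := Nat.exists_eq_succ_of_ne_zero hne
          rw [hbs, Nat.succ_eq_add_one, S_succ] at h2
          have := S_nonneg Y k
          have := w_pos (Y k)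
          linarith
        · have := S_nonneg Y i'
          have := w_pos (Y (i'+1) - 1)
          linarith
      rcases le_or_gt (Y 0) (φ i) with hv | hv
      · exact h.single hkb (by have := w_le hv; linarith)
      · -- two digits
        subst hkb
        have hb : S Y (0+1) = w (Y 0) := by rw [S_succ, S_zero, zero_add]
        have hgoal : (g - S φ (i+1) + (Λ + 1 - S Y (0+1)) + 1)/2 =
            g - S φ (i+1) + 1 - S (cs (φ i + 1) (fun j => Y 0 + 1 + j)) 2 := by
          have : S (cs (φ i + 1) (fun j => Y 0 + 1 + j)) 2 = w (φ i + 1) + w (Y 0 + 1) := by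
            rw [S_cs, S_succ, S_zero, zero_add]; simp
          rw [this, hb, eΛ, w_add_one, w_add_one]
          linarith
        rw [hgoal]
        have hwf : Wf (g - S φ (i+1)) (cs (φ i + 1) (fun j => Y 0 + 1 + j)) := by
          refine ⟨cs_sm (by intro a b hab; simp only; omega)
            (by show φ i + 1 < Y 0 + 1 + ((0:ℕ):ℤ); push_cast; omega), ?_, ?_⟩
          · show 1 ≤ φ i + 1
            have := h.wfg.pos_i i; omega
          · show Dy (φ i + 1 - 1) _
            rw [show φ i + 1 - 1 = φ i by ring]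
            exact h.wfg.dyS' i
        refine (T_iff h.hF hwf 1).mpr (Rk_one h.hF ?_ _)
        intro h0
        have := h.hg.L_one_le
        linarith
    · -- general critical case
      have hm0 : (sh φ 0 s) i = φ i - s := by rw [sh_apply, Nat.add_zero]
      rw [hm0] at hSt hzv
      have hRe : S (sh (sh φ 0 s) (i+2) 0) (p-i-1) * w s = S (sh φ (i+2) 0) (p-i-1) := by
        have : sh (sh φ 0 s) (i+2) 0 = sh (sh φ (i+2) 0) 0 s := by
          rw [sh_sh, sh_sh]; congr 1 <;> ring
        rw [this, S_shift, mul_assoc, hcc, mul_one]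
      set R := S (sh φ (i+2) 0) (p-i-1) with hR
      have hR0 : 0 ≤ R := S_nonneg _ _
      have hφ1 := h.hφ (show i < i + 1 by omega)
      have hφ2 := h.hφ (show i + 1 < i + 2 by omega)
      have hRlt : R < w (φ (i+1)) := S_lt (sh_mono h.hφ _ _) (by
        simp only [sh_apply, Nat.zero_add]; omega) _
      have hR2 : 2 * R < w (φ i) := by
        have h1 : w (φ (i+1)) ≤ w (φ i + 1) := w_le (by omega)
        rw [w_add_one] at h1
        linarith
      have hz1' : z1 = S φ (i+1) + w (φ i) + 2 * R := by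
        rw [hz1, hzv, add_mul, add_mul, hSc, ← w_add, show φ i - s + s = φ i by ring, ← hRe]
        ring
      have hcrit := crit_eq (x := 2 * R) h.hφ h.hφ0 hR2 (by rw [← hz1']; linarith)
      have hbsR : bs ≤ 2 * R := by linarith
      have hg1 : St (g - S φ (i+1)) (Kd.L (t - S (sh φ 0 s) (i+1)) s) :=
        lim_st h.hg h.wfg (i+1) (fun j hj => hlim j (by omega))
      have hFs : S φ (p+1) = S φ (i+1) + S (sh φ (i+1) 0) (p-i-1+1) := by
        rw [S_split (show i+1 ≤ p+1 by omega)]; congr 2; omega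
      have hFs2 : S (sh φ (i+1) 0) (p-i-1+1) = w (φ (i+1)) + R := by
        rw [S_front, sh_sh, sh_apply, Nat.zero_add, sub_zero, hR]; rfl
      have hΛt : t - S (sh φ 0 s) (i+1) - w (φ i - s) = t - w (e - s) := by
        have : w (e - s) = S (sh φ 0 s) (i+1) + w (φ i - s) := by
          rw [sub_eq_add_neg, w_add, ← hcrit, add_mul, S_shift, sub_eq_add_neg, w_add]
        rw [this]; ring
      have hei : e < φ i := by
        have := h.hφ.monotone (Nat.zero_le i)
        have := h.hφ0
        omega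
      have he0 := h.he
      -- a US instance for any value of b below w (φ i)
      have mkUS : ∀ b', T (Λ + 1 - b') → 0 < b' → b' < w (φ i) →
          US (g - S φ (i+1)) (t - S (sh φ 0 s) (i+1)) s (φ i - s) (φ i) Λ s (sh φ (i+1) 0) (p-i-1) b' := by
        intro b' h1 h2 h3
        refine ⟨hg1, hSt, ?_, by omega, by omega, h.wfg.dyS' i, ?_, sh_mono h.hφ _ _, ?_, ?_, h1, h2, h3⟩
        · rw [hΛt]; exact h.hΛ
        · rw [eΛ, ← hcrit]; ring
        · simp only [sh_apply, Nat.zero_add]; omega
        · have := h.hF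
          rw [hFs] at this
          rwa [show g - S φ (i+1) - S (sh φ (i+1) 0) (p-i-1+1) = g - (S φ (i+1) + S (sh φ (i+1) 0) (p-i-1+1)) by ring]
      have hbpos : 0 < S Y (kb+1) := by
        rw [S_succ]
        have := S_nonneg Y kb
        have := w_pos (Y kb)
        linarith
      rcases lt_or_ge (S Y (kb+1)) (w (φ i)) with hbs | hbs
      · have hUS := mkUS _ h.hb hbpos hbs
        have e3 : g - S φ (p+1) = g - S φ (i+1) - S (sh φ (i+1) 0) (p-i-1+1) := by rw [hFs]; ring
        rw [e3] at ih ⊢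
        exact hUS.main ih
      · -- large b
        have hY0n : ¬ (φ i < Y 0) := by
          intro hc
          have := S_lt h.hY hc (kb+1)
          linarith
        have hno : ∀ k, S Y (k+1) ≤ bs → False := by
          intro k hk
          have h1 : w (Y 0) ≤ S Y (k+1) := by
            rw [S_front]; linarith [S_nonneg (sh Y 1 0) k]
          have h2 : w (Y 0) < w (φ i) := by linarith
          exact hY0n (w_lt_iff.mp h2)
        rcases hdata' with ⟨g1, g2, -⟩ | ⟨g1, gS, g2, -⟩
        · have hkb : kb = 0 := by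
            by_contra hne
            obtain ⟨k, rfl⟩ := Nat.exists_eq_succ_of_ne_zero hne
            exact hno k (le_of_eq g2.symm)
          refine h.single hkb ?_
          have : w (φ i) ≤ w (Y 0) := w_le (by omega)
          have := S_nonneg (sh φ (i+1) 0) (p-i-1+1)
          linarith
        · have hi0 : i' = 0 := by
            by_contra hne
            obtain ⟨k, rfl⟩ := Nat.exists_eq_succ_of_ne_zero hne
            apply hno k
            have := w_pos (Y (k+1+1) - 1)
            rw [g2]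
            rw [Nat.succ_eq_add_one]
            linarith
          subst hi0
          -- the type of Λ must be zero
          have hYpos := h.wfΛ.pos_i 0
          have hchild : St (Λ - w (Y 0)) (Kd.S (Y 0)) := by
            have e4 : Λ - S Y (0+1) = Λ - w (Y 0) := by rw [S_succ, S_zero, zero_add]
            rw [e4] at gS; exact gS
          have ht0 : t - w (e - s) = 0 := by
            by_contra hne
            obtain ⟨a, b, hL⟩ := child_L h.hΛ hne (n := Y 0) hYpos h.wfΛ.dy
            have := hchild.func hL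
            cases this
          obtain ⟨ta, tb, htL⟩ := h.ht
          have ht1 := htL.L_one_le
          have hes : e - s = 0 := by
            have h1 : w 0 ≤ w (e - s) := by rw [w_zero]; linarith
            have := w_le_iff.mp h1
            omega
          have hτ : t - S (sh φ 0 s) (i+1) = w (φ i - s) := by
            rw [ht0] at hΛt; linarith
          have hτ2 := hSt.S_half_le
          have hτ3 := hSt.S_one_le
          have hφi : φ i = e + 1 := by
            rw [hτ, ← w_one] at hτ2
            have := w_le_iff.mp hτ2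
            omega
          have hY0 : Y 0 = φ i := by
            have := h.hY0
            omega
          have hwφ : w e = 2 * w (φ i) := by rw [hφi, w_add_one]; ring
          have hfake := mkUS (w (φ i + 1)) (by
              have hd := h.dyΛ
              obtain ⟨κ, hκ⟩ : T Λ := ⟨_, h.hΛ⟩
              exact hκ.add_one.T_sub (by omega) ((hd.mono (by omega)).add (dy_one (by omega))))
            (w_pos _) (w_lt (by omega))
          have hTa : T (Λ - R) := by
            have := hfake.T_low (j := 1) le_rfl (by omega)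
            rw [sh_sh] at this
            rw [show p - i - 1 + 1 - 1 = p - i - 1 by omega] at this
            exact this
          have hbρ : S Y (kb+1) = w (φ i) + S (sh Y 1 0) kb := by rw [S_front, hY0]
          set ρ := S (sh Y 1 0) kb with hρ
          have hρ0 : 0 ≤ ρ := S_nonneg _ _
          have hρlt : ρ < w (φ i) := by
            rw [← hY0]
            exact S_lt (sh_mono h.hY _ _) (by
              have := h.hY (show 0 < 1 by omega)
              simp only [sh_apply, Nat.zero_add]; omega) _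
          have hwφ1 : w (φ (i+1)) ≤ w (φ i) / 2 := by rw [← w_add_one]; exact w_le (by omega)
          have hwφ1' := w_pos (φ (i+1))
          have hTb : T (Λ + 1 - (ρ + w (φ (i+1)))) := by
            refine T_mono (b := S Y (kb+1)) (e := e) ⟨_, h.hΛ⟩ ⟨_, h.hΛ⟩ le_rfl h.he h.dyΛ h.dyΛ h.hb hbpos.le hblt ?_
              (by linarith) (by linarith) ?_
            · exact dyex_add (S_dyex (sh_mono h.hY _ _) _) (dyex_w _)
            · intro q
              rw [hbρ, cnt_disj (dy_w le_rfl) (w_pos _).le hρ0 hρlt]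
              rcases le_or_gt (φ i) q with hq | hq
              · rw [cnt_w hq]
                have := cnt_add_w (q := q) (u := φ (i+1)) hρ0
                omega
              · have : ρ + w (φ (i+1)) < w q := by
                  have h4 : w (φ i - 1) ≤ w q := w_le (by omega)
                  rw [w_sub_one] at h4
                  linarith
                rw [cnt_eq_zero this]; omega
          have hsumF : Λ - R + (Λ + 1 - (ρ + w (φ (i+1)))) = g - S φ (p+1) + (Λ + 1 - S Y (kb+1)) := by
            rw [hFs, hFs2, hbρ, eΛ, ← hcrit]; ring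
          have hltR : Λ - R < g - S φ (p+1) := by
            rw [hFs, hFs2, eΛ, ← hcrit]; linarith
          have := ih.two _ _ hTa hTb hsumF hltR (by linarith)
          rwa [hsumF] at this

end Pool.Agent.Helper820
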