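import Pool.Agent.Helper820.FusU

set_option autoImplicit false

namespace Pool.Agent.Helper820

lemma Wf.dyS {x : ℚ} {X : ℕ → ℤ} (h : Wf x X) (i : ℕ) : Dy (X i - 1) (x - S X i) :=
  (h.dy.mono (by have := h.sm.monotone (Nat.zero_le i); omega)).sub (S_dy' h.sm i)

lemma Wf.dyS' {x : ℚ} {X : ℕ → ℤ} (h : Wf x X) (i : ℕ) : Dy (X i) (x - S X (i+1)) := by
  rw [S_succ, show x - (S X i + w (X i)) = x - S X i - w (X i) by ring]
  exact child_dy (h.dyS i)

lemma Wf.pos_i {x : ℚ} {X : ℕ → ℤ} (h : Wf x X) (i : ℕ) : 1 ≤ X i := by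
  have := h.sm.monotone (Nat.zero_le i)
  have := h.pos
  omega

lemma Wf.S_lt_one {x : ℚ} {X : ℕ → ℤ} (h : Wf x X) (k : ℕ) : S X k < 1 := by
  rw [← w_zero]; exact S_lt h.sm (by have := h.pos; omega) k

/-- reading by limit steps as long as possible -/
lemma spl {x : ℚ} {X : ℕ → ℤ} (hx : ∃ a b, St x (Kd.L a b)) (hw : Wf x X) (k : ℕ) :
    ∃ i, i ≤ k ∧ (∀ j, j ≤ i → ∃ a b, St (x - S X j) (Kd.L a b)) ∧ T (x - S X (i+1)) ∧
      (i = k ∨ ∃ m, St (x - S X (i+1)) (Kd.S m)) := by
  have step : ∀ i, (∃ a b, St (x - S X i) (Kd.L a b)) → T (x - S X (i+1)) := by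
    rintro i ⟨a, b, h⟩
    rw [S_succ, show x - (S X i + w (X i)) = x - S X i - w (X i) by ring]
    exact T_child h (hw.pos_i i) (hw.dyS i)
  induction k with
  | zero =>
    refine ⟨0, le_rfl, ?_, ?_, Or.inl rfl⟩
    · intro j hj
      have : j = 0 := by omega
      subst this
      rw [S_zero, sub_zero]; exact hx
    · apply step
      rw [S_zero, sub_zero]; exact hx
  | succ k ih =>
    obtain ⟨i, h1, h2, h3, h4⟩ := ih
    by_cases h5 : ∃ m, St (x - S X (i+1)) (Kd.S m)
    · exact ⟨i, by omega, h2, h3, Or.inr h5⟩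
    · rcases h4 with h4 | h4
      swap
      · exact absurd h4 h5
      subst h4
      rcases h3.cases with h6 | h6 | h6
      · exfalso
        obtain ⟨a, b, hx⟩ := hx
        have := hx.L_one_le
        have := hw.S_lt_one (i+1)
        linarith
      · exact absurd h6 h5
      · refine ⟨i+1, le_rfl, ?_, step _ h6, Or.inl rfl⟩
        intro j hj
        rcases Nat.lt_or_ge j (i+1) with h7 | h7
        · exact h2 j (by omega)
        · have : j = i+1 := by omega
          subst this; exact h6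

lemma run_lim {x : ℚ} {X : ℕ → ℤ} (n : ℕ) (h : ∀ j, j < n → ∃ a b, St (x - S X j) (Kd.L a b)) :
    Run x X (x - S X n) n n := by
  induction n generalizing x X with
  | zero => rw [S_zero, sub_zero]; exact Run.refl _ _
  | succ n ih =>
    obtain ⟨a, b, h0⟩ := h 0 (by omega)
    rw [S_zero, sub_zero] at h0
    refine Run.lim h0 ?_
    rw [S_front, show x - (w (X 0) + S (sh X 1 0) n) = x - w (X 0) - S (sh X 1 0) n by ring]
    apply ih
    intro j hj
    have := h (j+1) (by omega)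
    rwa [S_front, show x - (w (X 0) + S (sh X 1 0) j) = x - w (X 0) - S (sh X 1 0) j by ring] at this

/-- natural decomposition -/
lemma splz {x : ℚ} {X : ℕ → ℤ} {k : ℕ} (hx : ∃ a b, St x (Kd.L a b)) (hw : Wf x X) (hr : Rk k x X) :
    ∃ i sv zv, i ≤ k ∧ (∀ j, j ≤ i → ∃ a b, St (x - S X j) (Kd.L a b)) ∧ T (x - S X (i+1)) ∧
      sv + zv = 2 * S X (k+1) ∧ T (x - sv) ∧ T (x + 1 - zv) ∧ 0 ≤ sv ∧ sv < zv ∧ sv ≤ S X (i+1) ∧
      ((i = k ∧ sv = S X k ∧ zv = S X (k+1) + w (X k)) ∨
       (i < k ∧ St (x - S X (i+1)) (Kd.S (X i)) ∧ sv = S X i + w (X (i+1) - 1) ∧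
         zv = S X (i+1) + w (X i) + 2 * S (sh X (i+2) 0) (k-i-1))) := by
  obtain ⟨i, h1, h2, h3, h4⟩ := spl hx hw k
  by_cases h5 : i = k
  · subst h5
    refine ⟨i, S X i, S X (i+1) + w (X i), le_rfl, h2, h3, ?_, ?_, ?_, S_nonneg _ _, ?_, S_le_of_le (by omega), Or.inl ⟨rfl, rfl, rfl⟩⟩
    · rw [S_succ]; ring
    · obtain ⟨a, b, h⟩ := h2 i le_rfl
      exact ⟨_, h⟩
    · obtain ⟨κ, hκ⟩ := h3
      have := hκ.add_one.T_sub (p := X i) (by have := hw.pos_i i; omega)
        ((hw.dyS' i).add (dy_one (by have := hw.pos_i i; omega)))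
      rwa [show x - S X (i+1) + 1 - w (X i) = x + 1 - (S X (i+1) + w (X i)) by ring] at this
    · rw [S_succ]; linarith [w_pos (X i)]
  · have hik : i < k := by omega
    rcases h4 with h4 | ⟨m, hm⟩
    · omega
    have hmX : m = X i := by
      have e1 := hm.S_le (hw.dyS' i)
      have e2 : X i ≤ m := by
        have h6 := hm.S_dy
        rw [S_succ, show x - (S X i + w (X i)) = x - S X i - w (X i) by ring] at h6
        exact child_le_of_dy (hw.dyS i) h6
      omega
    subst hmX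
    have hX1 := hw.sm (show i < i + 1 by omega)
    have hX2 := hw.sm (show i + 1 < i + 2 by omega)
    have hsv : S X i + w (X (i+1) - 1) ≤ S X (i+1) := by
      rw [S_succ]
      have := w_le (show X i ≤ X (i+1) - 1 by omega)
      linarith
    have hspl : S X (k+1) = S X (i+1) + (w (X (i+1)) + S (sh X (i+2) 0) (k-i-1)) := by
      rw [S_split (show i+1 ≤ k+1 by omega), show k + 1 - (i+1) = (k-i-1) + 1 by omega,
        S_front (sh X (i+1) 0), sh_sh, sh_apply, Nat.zero_add, sub_zero]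
      rfl
    refine ⟨i, S X i + w (X (i+1) - 1), S X (i+1) + w (X i) + 2 * S (sh X (i+2) 0) (k-i-1), h1, h2, h3, ?_, ?_, ?_,
      ?_, ?_, hsv, Or.inr ⟨hik, hm, rfl, rfl⟩⟩
    · rw [hspl, w_sub_one, S_succ]; ring
    · obtain ⟨a, b, h⟩ := h2 i le_rfl
      rw [show x - (S X i + w (X (i+1) - 1)) = x - S X i - w (X (i+1) - 1) by ring]
      exact T_child h (by have := hw.pos_i i; omega) ((hw.dyS i).mono (by omega))
    · -- the second half
      have hrun := run_lim (x := x) (X := X) (i+1) (fun j hj => h2 j (by omega))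
      obtain ⟨k2, hk2⟩ : ∃ k2, k = (i+1) + k2 := ⟨k - (i+1), by omega⟩
      rw [hk2] at hr
      have hr2 := hrun.dropRk hr
      rw [sub_self] at hr2
      have hw2 : Wf (x - S X (i+1)) (sh X (i+1) 0) := by
        have := hrun.wf hw
        rwa [sub_self] at this
      have hk3 : k - i - 1 = k2 := by omega
      rw [hk3]
      cases k2 with
      | zero =>
        rw [S_zero, mul_zero, add_zero]
        have := hm.T_pred.add_one
        rwa [show x - S X (i+1) - w (X i) + 1 = x + 1 - (S X (i+1) + w (X i)) by ring] at this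
      | succ k2 =>
        rw [Rk_succ_iff hm, ← T_iff hm.T_pred (hw2.suc hm)] at hr2
        have e : S (sh (sh X (i+1) 0) 1 1) (k2+1) = 2 * S (sh X (i+2) 0) (k2+1) := by
          rw [sh_sh, show i + 1 + 1 = i + 2 by ring, show (0:ℤ) + 1 = 1 by ring]
          have : sh X (i+2) 1 = sh (sh X (i+2) 0) 0 1 := by rw [sh_sh]; rfl
          rw [this, S_shift]
          have : w (-1) = 2 := by have := w_sub_one 0; rw [w_zero] at this; simpa using this
          rw [this]; ring
        rw [e] at hr2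
        rwa [show x - S X (i+1) - w (X i) + 1 - 2 * S (sh X (i+2) 0) (k2+1) =
          x + 1 - (S X (i+1) + w (X i) + 2 * S (sh X (i+2) 0) (k2+1)) by ring] at hr2
    · have := S_nonneg X i
      have := w_pos (X (i+1) - 1)
      linarith
    · have := S_nonneg (sh X (i+2) 0) (k-i-1)
      have := w_pos (X i)
      linarith

lemma lim_st {g t : ℚ} {s : ℤ} {φ : ℕ → ℤ} (hg : St g (Kd.L t s)) (hw : Wf g φ) (n : ℕ)
    (h : ∀ j, j < n → ∃ a b, St (t - S (sh φ 0 s) j) (Kd.L a b)) :
    St (g - S φ n) (Kd.L (t - S (sh φ 0 s) n) s) := by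
  induction n with
  | zero => rw [S_zero, S_zero, sub_zero, sub_zero]; exact hg
  | succ n ih =>
    obtain ⟨a, b, h0⟩ := h n (by omega)
    have := St.cl (n := φ n) (ih fun j hj => h j (by omega)) h0 (hw.pos_i n) (hw.dyS n)
    rw [S_succ, S_succ, show g - (S φ n + w (φ n)) = g - S φ n - w (φ n) by ring, sh_apply, Nat.add_zero,
      show t - (S (sh φ 0 s) n + w (φ n - s)) = t - S (sh φ 0 s) n - w (φ n - s) by ring]
    exact this

end Pool.Agent.Helper820
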