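import Pool.Agent.Helper820.FusWF

set_option autoImplicit false

namespace Pool.Agent.Helper820

def sh (X : ℕ → ℤ) (n : ℕ) (c : ℤ) : ℕ → ℤ := fun i => X (i+n) - c

lemma sh_apply (X : ℕ → ℤ) (n : ℕ) (c : ℤ) (i : ℕ) : sh X n c i = X (i+n) - c := rfl

lemma sh_sh (X : ℕ → ℤ) (a b : ℕ) (c d : ℤ) : sh (sh X a c) b d = sh X (a+b) (c+d) := by
  funext i
  simp only [sh_apply]
  rw [show i + b + a = i + (a+b) by ring]
  ring

lemma sh_zero (X : ℕ → ℤ) : sh X 0 0 = X := by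
  funext i; simp [sh_apply]

lemma sh_mono {X : ℕ → ℤ} (h : StrictMono X) (n : ℕ) (c : ℤ) : StrictMono (sh X n c) := by
  intro i j hij
  have := h (show i + n < j + n by omega)
  simp only [sh_apply]; omega

lemma sm_add {X : ℕ → ℤ} (h : StrictMono X) (i n : ℕ) : X i + n ≤ X (i+n) := by
  induction n with
  | zero => simp
  | succ n ih =>
    have := h (show i + n < i + (n+1) by omega)
    push_cast; omega

/-- the machine survives k steps -/
def Rk : ℕ → ℚ → (ℕ → ℤ) → Prop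
  | 0, _, _ => True
  | k+1, x, X => (∃ m, St x (Kd.S m) ∧ Rk k (x - w m) (sh X 1 1)) ∨
      (∃ t s, St x (Kd.L t s) ∧ Rk k (x - w (X 0)) (sh X 1 0))

inductive Run : ℚ → (ℕ → ℤ) → ℚ → ℕ → ℕ → Prop
  | refl (x : ℚ) (X : ℕ → ℤ) : Run x X x 0 0
  | suc {x : ℚ} {m : ℤ} {X : ℕ → ℤ} {y : ℚ} {n l : ℕ} : St x (Kd.S m) → Run (x - w m) (sh X 1 1) y n l →
      Run x X y (n+1) l
  | lim {x t : ℚ} {s : ℤ} {X : ℕ → ℤ} {y : ℚ} {n l : ℕ} : St x (Kd.L t s) →
      Run (x - w (X 0)) (sh X 1 0) y n l → Run x X y (n+1) (l+1)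

lemma Run.le {x y : ℚ} {X : ℕ → ℤ} {n l : ℕ} (h : Run x X y n l) : l ≤ n := by
  induction h with
  | refl => exact le_rfl
  | suc _ _ ih => omega
  | lim _ _ ih => omega

lemma Run.trans {x y z : ℚ} {X : ℕ → ℤ} {n l n' l' : ℕ} (h : Run x X y n l)
    (h' : Run y (sh X n ((n:ℤ)-l)) z n' l') : Run x X z (n+n') (l+l') := by
  induction h with
  | refl x X => simpa [sh_zero] using h'
  | @suc x m X y n l h1 h2 ih =>
    have := Run.suc h1 (ih (by
      rw [sh_sh]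
      rw [show 1 + n = n + 1 by ring, show (1:ℤ) + ((n:ℤ) - l) = ((n+1:ℕ):ℤ) - l by push_cast; ring]
      exact h'))
    rw [show n + 1 + n' = n + n' + 1 by ring]
    exact this
  | @lim x t s X y n l h1 h2 ih =>
    have := Run.lim h1 (ih (by
      rw [sh_sh]
      rw [show 1 + n = n + 1 by ring, show (0:ℤ) + ((n:ℤ) - l) = ((n+1:ℕ):ℤ) - ((l+1:ℕ):ℤ) by push_cast; ring]
      exact h'))
    rw [show n + 1 + n' = n + n' + 1 by ring, show l + 1 + l' = l + l' + 1 by ring]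
    exact this

lemma Rk.pred {k : ℕ} : ∀ {x : ℚ} {X : ℕ → ℤ}, Rk (k+1) x X → Rk k x X := by
  induction k with
  | zero => intro x X _; trivial
  | succ k ih =>
    intro x X h
    rcases h with ⟨m, h1, h2⟩ | ⟨t, s, h1, h2⟩
    · exact Or.inl ⟨m, h1, ih h2⟩
    · exact Or.inr ⟨t, s, h1, ih h2⟩

lemma Rk.of_le {k k' : ℕ} {x : ℚ} {X : ℕ → ℤ} (h : Rk k x X) (hk : k' ≤ k) : Rk k' x X := by
  induction k with
  | zero => have : k' = 0 := by omega
            subst this; trivial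
  | succ k ih =>
    rcases Nat.lt_or_ge k' (k+1) with h1 | h1
    · exact ih h.pred (by omega)
    · have : k' = k+1 := by omega
      subst this; exact h

lemma Run.toRk {x y : ℚ} {X : ℕ → ℤ} {n l k : ℕ} (h : Run x X y n l)
    (h' : Rk k y (sh X n ((n:ℤ)-l))) : Rk (n+k) x X := by
  induction h with
  | refl x X => simpa [sh_zero] using h'
  | @suc x m X y n l h1 h2 ih =>
    have := ih (by
      rw [sh_sh]
      rw [show 1 + n = n + 1 by ring, show (1:ℤ) + ((n:ℤ) - l) = ((n+1:ℕ):ℤ) - l by push_cast; ring]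
      exact h')
    rw [show n + 1 + k = n + k + 1 by ring]
    exact Or.inl ⟨m, h1, this⟩
  | @lim x t s X y n l h1 h2 ih =>
    have := ih (by
      rw [sh_sh]
      rw [show 1 + n = n + 1 by ring, show (0:ℤ) + ((n:ℤ) - l) = ((n+1:ℕ):ℤ) - ((l+1:ℕ):ℤ) by push_cast; ring]
      exact h')
    rw [show n + 1 + k = n + k + 1 by ring]
    exact Or.inr ⟨t, s, h1, this⟩

lemma Run.dropRk {x y : ℚ} {X : ℕ → ℤ} {n l k : ℕ} (h : Run x X y n l)
    (h' : Rk (n+k) x X) : Rk k y (sh X n ((n:ℤ)-l)) := by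
  induction h with
  | refl x X => simpa [sh_zero] using h'
  | @suc x m X y n l h1 h2 ih =>
    rw [show n + 1 + k = n + k + 1 by ring] at h'
    rcases h' with ⟨m', g1, g2⟩ | ⟨t, s, g1, g2⟩
    · have := h1.S_inj g1
      subst this
      have := ih g2
      rw [sh_sh] at this
      rw [show 1 + n = n + 1 by ring, show (1:ℤ) + ((n:ℤ) - l) = ((n+1:ℕ):ℤ) - l by push_cast; ring] at this
      exact this
    · have := h1.func g1
      cases this
  | @lim x t s X y n l h1 h2 ih =>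
    rw [show n + 1 + k = n + k + 1 by ring] at h'
    rcases h' with ⟨m', g1, g2⟩ | ⟨t, s, g1, g2⟩
    · have := h1.func g1
      cases this
    · have := ih g2
      rw [sh_sh] at this
      rw [show 1 + n = n + 1 by ring, show (0:ℤ) + ((n:ℤ) - l) = ((n+1:ℕ):ℤ) - ((l+1:ℕ):ℤ) by push_cast; ring] at this
      exact this

lemma not_Rk_zero {k : ℕ} {X : ℕ → ℤ} : ¬ Rk (k+1) 0 X := by
  intro h
  rcases h with ⟨m, h1, h2⟩ | ⟨t, s, h1, h2⟩
  · have := h1.S_half_le; linarith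
  · have := h1.L_one_le; linarith

lemma Rk_zero_eq {k : ℕ} {X : ℕ → ℤ} (h : Rk k 0 X) : k = 0 := by
  cases k with
  | zero => rfl
  | succ k => exact absurd h not_Rk_zero

lemma Rk_one {x : ℚ} (hx : T x) (h0 : x ≠ 0) (X : ℕ → ℤ) : Rk 1 x X := by
  rcases hx.cases with h | ⟨m, h⟩ | ⟨t, s, h⟩
  · exact absurd h h0
  · exact Or.inl ⟨m, h, trivial⟩
  · exact Or.inr ⟨t, s, h, trivial⟩

/-- well-formed strings below x -/
structure Wf (x : ℚ) (X : ℕ → ℤ) : Prop where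
  sm : StrictMono X
  pos : 1 ≤ X 0
  dy : Dy (X 0 - 1) x

lemma Wf.lim {x : ℚ} {X : ℕ → ℤ} (h : Wf x X) : Wf (x - w (X 0)) (sh X 1 0) := by
  have h1 := h.sm (show 0 < 1 by omega)
  refine ⟨sh_mono h.sm _ _, ?_, ?_⟩
  · simp only [sh_apply, Nat.zero_add]; have := h.pos; omega
  · simp only [sh_apply, Nat.zero_add]
    exact (child_dy h.dy).mono (by omega)

lemma Wf.suc {x : ℚ} {m : ℤ} {X : ℕ → ℤ} (h : Wf x X) (hx : St x (Kd.S m)) :
    Wf (x - w m) (sh X 1 1) := by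
  have h1 := h.sm (show 0 < 1 by omega)
  have h2 := hx.S_le h.dy
  refine ⟨sh_mono h.sm _ _, ?_, ?_⟩
  · simp only [sh_apply, Nat.zero_add]; have := h.pos; omega
  · simp only [sh_apply, Nat.zero_add]
    exact ((hx.S_dy).sub (dy_w le_rfl)).mono (by omega)

lemma Wf.T_lim {x t : ℚ} {s : ℤ} {X : ℕ → ℤ} (h : Wf x X) (hx : St x (Kd.L t s)) : T (x - w (X 0)) :=
  T_child hx h.pos h.dy

/-- domination -/
theorem Rk_dom : ∀ (k : ℕ) (x1 x2 : ℚ) (X1 X2 : ℕ → ℤ), T x1 → T x2 → Wf x1 X1 → Wf x2 X2 → x1 ≤ x2 →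
    (∀ i, i < k → X1 i ≤ X2 i) → Rk k x1 X1 → Rk k x2 X2 := by
  intro k
  induction k with
  | zero => intros; trivial
  | succ k ih =>
    intro x1 x2 X1 X2 hx1 hx2 w1 w2 hle hdom h
    have hs : ∀ i, X2 i + 1 ≤ X2 (i+1) := fun i => by
      have := w2.sm (show i < i+1 by omega); omega
    rcases h with ⟨m, h1, h2⟩ | ⟨t, s, h1, h2⟩
    · rcases hx2.cases with g0 | ⟨m', g⟩ | ⟨t', s', g⟩
      · exfalso
        have := h1.S_half_le
        linarith
      · refine Or.inl ⟨m', g, ih _ _ _ _ h1.T_pred g.T_pred (w1.suc h1) (w2.suc g) ?_ ?_ h2⟩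
        · rcases eq_or_lt_of_le hle with he | hlt
          · subst he
            have := h1.S_inj g
            rw [this]
          · have := gap g hx1 hlt
            linarith [w_pos m]
        · intro i hi
          simp only [sh_apply]
          have := hdom (i+1) (by omega)
          omega
      · refine Or.inr ⟨t', s', g, ih _ _ _ _ h1.T_pred (w2.T_lim g) (w1.suc h1) w2.lim ?_ ?_ h2⟩
        · have h3 := h1.S_le w1.dy
          have h4 := hdom 0 (by omega)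
          have h5 : w (X2 0) ≤ w m := w_le (by omega)
          linarith
        · intro i hi
          simp only [sh_apply]
          have := hdom (i+1) (by omega)
          omega
    · rcases hx2.cases with g0 | ⟨m', g⟩ | ⟨t', s', g⟩
      · exfalso
        have := h1.L_one_le
        linarith
      · refine Or.inl ⟨m', g, ih _ _ _ _ hx1 g.T_pred w1 (w2.suc g) ?_ ?_ ?_⟩
        · rcases eq_or_lt_of_le hle with he | hlt
          · subst he
            have := h1.func g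
            cases this
          · exact gap g hx1 hlt
        · intro i hi
          simp only [sh_apply]
          have := hdom i (by omega)
          have := hs i
          omega
        · exact Rk.pred (Or.inr ⟨t, s, h1, h2⟩)
      · refine Or.inr ⟨t', s', g, ih _ _ _ _ (w1.T_lim h1) (w2.T_lim g) w1.lim w2.lim ?_ ?_ h2⟩
        · have h4 := hdom 0 (by omega)
          have h5 : w (X2 0) ≤ w (X1 0) := w_le (by omega)
          linarith
        · intro i hi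
          simp only [sh_apply]
          have := hdom (i+1) (by omega)
          omega

/-- the child type relation -/
def Ch (t : ℚ) (s d : ℤ) (t' : ℚ) (s' : ℤ) : Prop :=
  (∃ m, St t (Kd.S m) ∧ t' = t - w m ∧ s' = s + 1) ∨
  ((∃ u v, St t (Kd.L u v)) ∧ t' = t - w (d - s) ∧ s' = s)

lemma Ch.ne_zero {t t' : ℚ} {s d s' : ℤ} (h : Ch t s d t' s') : t ≠ 0 := by
  rcases h with ⟨m, h, -⟩ | ⟨⟨u, v, h⟩, -⟩
  · have := h.S_half_le; intro h0; linarith
  · have := h.L_one_le; intro h0; linarith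

lemma Ch.func {t t' t'' : ℚ} {s d s' s'' : ℤ} (h : Ch t s d t' s') (h' : Ch t s d t'' s'') :
    t' = t'' ∧ s' = s'' := by
  rcases h with ⟨m, h1, h2, h3⟩ | ⟨⟨u, v, h1⟩, h2, h3⟩ <;>
  rcases h' with ⟨m', g1, g2, g3⟩ | ⟨⟨u', v', g1⟩, g2, g3⟩
  · have := h1.S_inj g1
    subst this
    exact ⟨by rw [h2, g2], by rw [h3, g3]⟩
  · have := h1.func g1
    cases this
  · have := h1.func g1
    cases this
  · exact ⟨by rw [h2, g2], by rw [h3, g3]⟩

/-- position condition for types -/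
structure Pk (t : ℚ) (s x : ℤ) : Prop where
  tame : T t
  nn : 0 ≤ x - s
  dy : Dy (x - s) t

lemma Pk.mono {t : ℚ} {s x y : ℤ} (h : Pk t s x) (hxy : x ≤ y) : Pk t s y :=
  ⟨h.tame, by have := h.nn; omega, h.dy.mono (by omega)⟩

lemma Ch.pk {t t' : ℚ} {s d s' : ℤ} (h : Ch t s d t' s') (hp : Pk t s (d-1)) : Pk t' s' d := by
  rcases h with ⟨m, h1, h2, h3⟩ | ⟨⟨u, v, h1⟩, h2, h3⟩
  · subst h2; subst h3
    have := h1.S_le hp.dy
    exact ⟨h1.T_pred, by have := hp.nn; omega, ((h1.S_dy).sub (dy_w le_rfl)).mono (by omega)⟩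
  · subst h2; subst h3
    have h4 := hp.nn
    exact ⟨T_child h1 (by omega) (by have := hp.dy; rwa [show d - s' - 1 = d - 1 - s' by ring]), by omega,
      (hp.dy.mono (by omega)).sub (dy_w le_rfl)⟩

lemma Ch.exists {t : ℚ} (ht : T t) (h0 : t ≠ 0) (s d : ℤ) : ∃ t' s', Ch t s d t' s' := by
  rcases ht.cases with h | ⟨m, h⟩ | ⟨u, v, h⟩
  · exact absurd h h0
  · exact ⟨_, _, Or.inl ⟨m, h, rfl, rfl⟩⟩
  · exact ⟨_, _, Or.inr ⟨⟨u, v, h⟩, rfl, rfl⟩⟩

lemma Ch.shift {t t' : ℚ} {s d s' : ℤ} (h : Ch t s d t' s') (c : ℤ) : Ch t (s+c) (d+c) t' (s'+c) := by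
  rcases h with ⟨m, h1, h2, h3⟩ | ⟨⟨u, v, h1⟩, h2, h3⟩
  · exact Or.inl ⟨m, h1, h2, by omega⟩
  · exact Or.inr ⟨⟨u, v, h1⟩, by rw [h2]; congr 2; omega, by omega⟩

/-- running through regions with bases d, d-1, ..., x+1 of parent type (t,s) -/
inductive Lp : ℚ → ℤ → ℤ → ℤ → (ℕ → ℤ) → ℕ → ℕ → Prop
  | nil {t : ℚ} {s d x : ℤ} {X : ℕ → ℤ} : d = x → Lp t s d x X 0 0
  | suc {t : ℚ} {s d x : ℤ} {X : ℕ → ℤ} {n l : ℕ} : t = 0 → x < d → Lp t s (d-1) x (sh X 1 1) n l →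
      Lp t s d x X (n+1) l
  | lim {t : ℚ} {s d x : ℤ} {t' : ℚ} {s' : ℤ} {X : ℕ → ℤ} {n1 l1 n2 l2 : ℕ} : x < d → Ch t s d t' s' →
      Lp t' s' (X 0) d (sh X 1 0) n1 l1 → Lp t s (d-1) x (sh X (n1+1) ((n1:ℤ)-l1)) n2 l2 →
      Lp t s d x X (n1+1+n2) (l1+1+l2)

lemma Lp.le {t : ℚ} {s d x : ℤ} {X : ℕ → ℤ} {n l : ℕ} (h : Lp t s d x X n l) : l ≤ n := by
  induction h with
  | nil => exact le_rfl
  | suc _ _ _ ih => omega
  | lim _ _ _ _ ih1 ih2 => omega

lemma Lp.base_le {t : ℚ} {s d x : ℤ} {X : ℕ → ℤ} {n l : ℕ} (h : Lp t s d x X n l) : x ≤ d := by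
  cases h with
  | nil h => omega
  | suc _ h _ => omega
  | lim h _ _ _ => omega

lemma Lp.shift {t : ℚ} {s d x : ℤ} {X : ℕ → ℤ} {n l : ℕ} (h : Lp t s d x X n l) (c : ℤ) :
    Lp t (s+c) (d+c) (x+c) (sh X 0 (-c)) n l := by
  induction h with
  | nil h => exact Lp.nil (by omega)
  | @suc t s d x X n l h1 h2 h3 ih =>
    refine Lp.suc h1 (by omega) ?_
    rw [sh_sh] at ih ⊢
    rw [show d + c - 1 = d - 1 + c by ring, show 0 + 1 = 1 + 0 by ring, show -c + 1 = 1 + -c by ring]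
    exact ih
  | @lim t s d x t' s' X n1 l1 n2 l2 h1 h2 h3 h4 ih1 ih2 =>
    refine Lp.lim (by omega) (h2.shift c) ?_ ?_
    · rw [sh_sh] at ih1 ⊢
      rw [sh_apply, show X (0+0) - -c = X 0 + c by simp, show 0 + 1 = 1 + 0 by ring, show -c + 0 = 0 + -c by ring]
      exact ih1
    · rw [sh_sh] at ih2 ⊢
      rw [show d + c - 1 = d - 1 + c by ring, show 0 + (n1+1) = (n1 + 1) + 0 by ring,
        show -c + ((n1:ℤ) - l1) = ((n1:ℤ) - l1) + -c by ring]
      exact ih2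

/-- splitting a run through regions -/
lemma Lp.split {t : ℚ} {s d x : ℤ} {X : ℕ → ℤ} {n l : ℕ} (h : Lp t s d x X n l) :
    ∀ e, x ≤ e → e ≤ d → ∃ n1 l1 n2 l2, Lp t s d e X n1 l1 ∧ Lp t s e x (sh X n1 ((n1:ℤ)-l1)) n2 l2 ∧
      n = n1 + n2 ∧ l = l1 + l2 := by
  induction h with
  | @nil t s d x X h =>
    intro e h1 h2
    exact ⟨0, 0, 0, 0, Lp.nil (by omega), Lp.nil (by omega), rfl, rfl⟩
  | @suc t s d x X n l h1 h2 h3 ih =>
    intro e he1 he2
    rcases eq_or_lt_of_le he2 with h | h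
    · subst h
      refine ⟨0, 0, n+1, l, Lp.nil rfl, ?_, by omega, by omega⟩
      simpa [sh_zero] using Lp.suc h1 h2 h3
    · obtain ⟨n1, l1, n2, l2, g1, g2, g3, g4⟩ := ih e he1 (by omega)
      refine ⟨n1+1, l1, n2, l2, Lp.suc h1 h g1, ?_, by omega, by omega⟩
      rw [sh_sh] at g2
      rw [show n1 + 1 = 1 + n1 by ring, show ((1 + n1 : ℕ):ℤ) - l1 = 1 + ((n1:ℤ) - l1) by push_cast; ring]
      exact g2
  | @lim t s d x t' s' X n1 l1 n2 l2 h1 h2 h3 h4 ih1 ih2 =>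
    intro e he1 he2
    rcases eq_or_lt_of_le he2 with h | h
    · subst h
      refine ⟨0, 0, _, _, Lp.nil rfl, ?_, by rw [Nat.zero_add], by rw [Nat.zero_add]⟩
      simpa [sh_zero] using Lp.lim h1 h2 h3 h4
    · obtain ⟨m1, k1, m2, k2, g1, g2, g3, g4⟩ := ih2 e he1 (by omega)
      refine ⟨n1+1+m1, l1+1+k1, m2, k2, Lp.lim h h2 h3 g1, ?_, by omega, by omega⟩
      rw [sh_sh] at g2
      rw [show ((n1 + 1 + m1 : ℕ):ℤ) - ((l1 + 1 + k1 : ℕ):ℤ) = ((n1:ℤ) - l1) + ((m1:ℤ) - k1) by push_cast; ring]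
      exact g2

/-- link between region runs and machine runs -/
lemma Lp.toRun {t : ℚ} {s d x : ℤ} {X : ℕ → ℤ} {n l : ℕ} (h : Lp t s d x X n l) :
    ∀ P, St P (Kd.L t s) → 0 ≤ x → Dy x P → Run (P - w d) X (P - w x) n l := by
  induction h with
  | @nil t s d x X h =>
    intro P hP h0 hd
    subst h
    exact Run.refl _ _
  | @suc t s d x X n l h1 h2 h3 ih =>
    intro P hP h0 hd
    subst h1
    have hS : St (P - w d) (Kd.S d) := St.cz hP (by omega) (hd.mono (by omega))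
    refine Run.suc hS ?_
    have := ih P hP h0 hd
    rw [w_sub_one] at this
    rw [show P - w d - w d = P - 2 * w d by ring]
    exact this
  | @lim t s d x t' s' X n1 l1 n2 l2 h1 h2 h3 h4 ih1 ih2 =>
    intro P hP h0 hd
    have hdd : Dy (d-1) P := hd.mono (by omega)
    have hP' : St (P - w d) (Kd.L t' s') := by
      rcases h2 with ⟨m, g1, g2, g3⟩ | ⟨⟨u, v, g1⟩, g2, g3⟩
      · rw [g2, g3]; exact St.cs hP g1 (by omega) hdd
      · rw [g2, g3]; exact St.cl hP g1 (by omega) hdd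
    have r1 := Run.lim hP' (ih1 _ hP' (by omega) (child_dy hdd))
    have r2 := ih2 P hP h0 hd
    rw [w_sub_one, show P - 2 * w d = P - w d - w d by ring] at r2
    refine r1.trans ?_
    rw [show ((n1 + 1 : ℕ):ℤ) - ((l1 + 1 : ℕ):ℤ) = (n1:ℤ) - l1 by push_cast; ring]
    exact r2

/-- condition used for existence of region runs: positions fine after the first step -/
def Pw (t : ℚ) (s x : ℤ) : Prop := T t ∧ 0 ≤ x - s ∧ (Dy (x-s) t ∨ ∃ m, St t (Kd.S m) ∧ Dy (x-s) (t - w m))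

lemma Pk.pw {t : ℚ} {s x : ℤ} (h : Pk t s x) : Pw t s x := ⟨h.tame, h.nn, Or.inl h.dy⟩

theorem Lp_exists : ∀ t, T t → ∀ (k : ℕ) (s x : ℤ) (X : ℕ → ℤ), Pw t s x → StrictMono X → x + k < X 0 →
    ∃ n l, Lp t s (x+k) x X n l := by
  refine T_induct ?_
  intro t ht IH k
  induction k with
  | zero =>
    intro s x X _ _ _
    exact ⟨0, 0, Lp.nil (by simp)⟩
  | succ k ihk =>
    intro s x X hp hX hx
    have hk : x + ((k+1:ℕ):ℤ) - 1 = x + k := by push_cast; ring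
    have hx1 : x < x + ((k+1:ℕ):ℤ) := by push_cast; omega
    rcases ht.cases with h0 | ⟨m, hm⟩ | ⟨u, v, hL⟩
    · obtain ⟨n, l, h⟩ := ihk s x (sh X 1 1) hp (sh_mono hX _ _) (by
        have := hX (show 0 < 1 by omega)
        simp only [sh_apply, Nat.zero_add]; push_cast at hx; omega)
      exact ⟨n+1, l, Lp.suc h0 hx1 (by rw [hk]; exact h)⟩
    · -- successor type
      have hd1 : Dy (x - s) (t - w m) := by
        rcases hp.2.2 with h | ⟨m', h1, h2⟩
        · have := hm.S_le h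
          exact ((hm.S_dy).sub (dy_w le_rfl)).mono this
        · have := hm.S_inj h1
          rw [this]; exact h2
      have hX1 := hX (show 0 < 1 by omega)
      obtain ⟨kk, hkk⟩ : ∃ kk : ℕ, X 0 = x + ((k+1:ℕ):ℤ) + kk := by
        refine ⟨(X 0 - (x + ((k+1:ℕ):ℤ))).toNat, ?_⟩
        omega
      obtain ⟨n1, l1, h1⟩ := IH (t - w m) hm.T_pred (by linarith [w_pos m]) kk (s+1) (x + ((k+1:ℕ):ℤ)) (sh X 1 0)
        ⟨hm.T_pred, by have := hp.2.1; push_cast; omega, Or.inl (hd1.mono (by push_cast; omega))⟩ (sh_mono hX _ _)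
        (by simp only [sh_apply, Nat.zero_add]; omega)
      rw [← hkk] at h1
      obtain ⟨n2, l2, h2⟩ := ihk s x (sh X (n1+1) ((n1:ℤ)-l1)) hp (sh_mono hX _ _) (by
        have := sm_add hX 0 (n1+1)
        simp only [sh_apply]; push_cast at hx this ⊢; omega)
      exact ⟨_, _, Lp.lim hx1 (Or.inl ⟨m, hm, rfl, rfl⟩) h1 (by rw [hk]; exact h2)⟩
    · have hd1 : Dy (x - s) t := by
        rcases hp.2.2 with h | ⟨m', h1, h2⟩
        · exact h
        · have := hL.func h1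
          cases this
      have hX1 := hX (show 0 < 1 by omega)
      obtain ⟨kk, hkk⟩ : ∃ kk : ℕ, X 0 = x + ((k+1:ℕ):ℤ) + kk := by
        refine ⟨(X 0 - (x + ((k+1:ℕ):ℤ))).toNat, ?_⟩
        omega
      have hT : T (t - w (x + ((k+1:ℕ):ℤ) - s)) :=
        hL.T_sub (by have := hp.2.1; push_cast; omega) (hd1.mono (by push_cast; omega))
      obtain ⟨n1, l1, h1⟩ := IH (t - w (x + ((k+1:ℕ):ℤ) - s)) hT
        (by linarith [w_pos (x + ((k+1:ℕ):ℤ) - s)]) kk s (x + ((k+1:ℕ):ℤ)) (sh X 1 0)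
        ⟨hT, by have := hp.2.1; push_cast; omega,
          Or.inl ((hd1.mono (by push_cast; omega)).sub (dy_w le_rfl))⟩ (sh_mono hX _ _)
        (by simp only [sh_apply, Nat.zero_add]; omega)
      rw [← hkk] at h1
      obtain ⟨n2, l2, h2⟩ := ihk s x (sh X (n1+1) ((n1:ℤ)-l1)) hp (sh_mono hX _ _) (by
        have := sm_add hX 0 (n1+1)
        simp only [sh_apply]; push_cast at hx this ⊢; omega)
      exact ⟨_, _, Lp.lim hx1 (Or.inr ⟨⟨u, v, hL⟩, rfl, rfl⟩) h1 (by rw [hk]; exact h2)⟩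

lemma Lp_exists' {t : ℚ} {s x d : ℤ} {X : ℕ → ℤ} (hp : Pw t s x) (hxd : x ≤ d) (hX : StrictMono X) (hd : d < X 0) :
    ∃ n l, Lp t s d x X n l := by
  have := Lp_exists t hp.1 (d-x).toNat s x X hp hX (by omega)
  rwa [show x + ((d - x).toNat : ℤ) = d by omega] at this

end Pool.Agent.Helper820
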