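import Pool.Agent.Helper820.FusCnt

set_option autoImplicit false

namespace Pool.Agent.Helper820

/-- monotonicity of readability, by counting digits -/
lemma Rk_cnt {x1 x2 : ℚ} {Y Z : ℕ → ℤ} {k k' : ℕ} (h1 : T x1) (h2 : T x2) (w1 : Wf x1 Y) (w2 : Wf x2 Z)
    (hle : x1 ≤ x2) (hr : Rk k x1 Y) (hc : ∀ q, cnt q (S Z (k'+1)) ≤ cnt q (S Y (k+1))) : Rk k' x2 Z := by
  have hd := dom_of_cnt (c := 0) w1.sm w2.sm (k := k+1) (k' := k'+1) (fun q => by rw [Nat.add_zero]; exact hc q)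
  have hk := (hd k' (by omega)).1
  refine Rk_dom k' x1 x2 Y Z h1 h2 w1 w2 hle ?_ (hr.of_le (by omega))
  intro i hi
  exact (hd i (by omega)).2

/-- strings below a dyadic position -/
lemma exists_str {x r : ℚ} {e : ℤ} (he : 0 ≤ e) (hx : Dy e x) (hr : ∃ p, Dy p r) (h0 : 0 ≤ r) (h1 : r < w e) :
    ∃ (Y : ℕ → ℤ) (k : ℕ), Wf x Y ∧ e < Y 0 ∧ S Y k = r := by
  obtain ⟨p, hp⟩ := hr
  obtain ⟨Y, k, hY, hY0, hS⟩ := exists_seq h0 hp h1
  exact ⟨Y, k, ⟨hY, by omega, hx.mono (by omega)⟩, hY0, hS⟩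

lemma dyex_sub {x y : ℚ} (hx : ∃ p, Dy p x) (hy : ∃ p, Dy p y) : ∃ p, Dy p (x - y) := by
  obtain ⟨p, hp⟩ := hx
  obtain ⟨q, hq⟩ := hy
  exact ⟨max p q, (hp.mono (by omega)).sub (hq.mono (by omega))⟩

lemma dyex_add {x y : ℚ} (hx : ∃ p, Dy p x) (hy : ∃ p, Dy p y) : ∃ p, Dy p (x + y) := by
  obtain ⟨p, hp⟩ := hx
  obtain ⟨q, hq⟩ := hy
  exact ⟨max p q, (hp.mono (by omega)).add (hq.mono (by omega))⟩

lemma dyex_half {x : ℚ} (hx : ∃ p, Dy p x) : ∃ p, Dy p (x / 2) := by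
  obtain ⟨p, hp⟩ := hx
  exact ⟨p+1, hp.half⟩

lemma dyex_w (n : ℤ) : ∃ p, Dy p (w n) := ⟨n, dy_w le_rfl⟩

lemma dyex_one : ∃ p, Dy p (1:ℚ) := ⟨0, dy_one le_rfl⟩

lemma T.dyex {x : ℚ} (h : T x) : ∃ p, Dy p x := by
  obtain ⟨p, -, hp⟩ := h.dy
  exact ⟨p, hp⟩

lemma S_dyex {X : ℕ → ℤ} (hX : StrictMono X) (k : ℕ) : ∃ p, Dy p (S X k) := ⟨_, S_dy' hX k⟩

/-- monotonicity of membership -/
lemma T_mono {x1 x2 b β : ℚ} {e : ℤ} (h1 : T x1) (h2 : T x2) (hle : x1 ≤ x2) (he : 0 ≤ e) (hd1 : Dy e x1)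
    (hd2 : Dy e x2) (hb : T (x1 + 1 - b)) (hb0 : 0 ≤ b) (hbe : b < w e) (hβd : ∃ p, Dy p β) (hβ0 : 0 ≤ β)
    (hβe : β < w e) (hc : ∀ q, cnt q β ≤ cnt q b) : T (x2 + 1 - β) := by
  have hbd : ∃ p, Dy p b := by
    have := dyex_sub (dyex_add h1.dyex dyex_one) hb.dyex
    rwa [show x1 + 1 - (x1 + 1 - b) = b by ring] at this
  obtain ⟨Y, k, wY, hY0, hSY⟩ := exists_str he hd1 hbd hb0 hbe
  obtain ⟨Z, k', wZ, hZ0, hSZ⟩ := exists_str he hd2 hβd hβ0 hβe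
  cases k' with
  | zero =>
    rw [S_zero] at hSZ
    rw [← hSZ, sub_zero]; exact h2.add_one
  | succ k' =>
    cases k with
    | zero =>
      exfalso
      have hd := dom_of_cnt (c := 0) wY.sm wZ.sm (k := 0) (k' := k'+1) (fun q => by
        rw [Nat.add_zero, hSY, hSZ]; exact hc q)
      have := (hd 0 (by omega)).1
      omega
    | succ k =>
      rw [← hSY] at hb
      rw [T_iff h1 wY] at hb
      rw [← hSZ, T_iff h2 wZ]
      exact Rk_cnt h1 h2 wY wZ hle hb (fun q => by rw [hSY, hSZ]; exact hc q)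

/-- membership from a run of a smaller pointer -/
lemma T_of_Rk {t x2 β : ℚ} {e : ℤ} {Y : ℕ → ℤ} {k : ℕ} (h1 : T t) (h2 : T x2) (hle : t ≤ x2) (w1 : Wf t Y)
    (hr : Rk k t Y) (he : 0 ≤ e) (hd2 : Dy e x2) (hβd : ∃ p, Dy p β) (hβ0 : 0 ≤ β)
    (hβe : β < w e) (hc : ∀ q, cnt q β ≤ cnt q (S Y (k+1))) : T (x2 + 1 - β) := by
  obtain ⟨Z, k', wZ, hZ0, hSZ⟩ := exists_str he hd2 hβd hβ0 hβe
  cases k' with
  | zero =>
    rw [S_zero] at hSZ
    rw [← hSZ, sub_zero]; exact h2.add_one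
  | succ k' =>
    rw [← hSZ, T_iff h2 wZ]
    exact Rk_cnt h1 h2 w1 wZ hle hr (fun q => by rw [hSZ]; exact hc q)

lemma Run.wf {x y : ℚ} {X : ℕ → ℤ} {n l : ℕ} (h : Run x X y n l) (hw : Wf x X) : Wf y (sh X n ((n:ℤ)-l)) := by
  induction h with
  | refl x X => simpa [sh_zero] using hw
  | @suc x m X y n l h1 h2 ih =>
    have := ih (hw.suc h1)
    rw [sh_sh] at this
    rw [show 1 + n = n + 1 by ring, show (1:ℤ) + ((n:ℤ) - l) = ((n+1:ℕ):ℤ) - l by push_cast; ring] at this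
    exact this
  | @lim x t s X y n l h1 h2 ih =>
    have := ih hw.lim
    rw [sh_sh] at this
    rw [show 1 + n = n + 1 by ring, show (0:ℤ) + ((n:ℤ) - l) = ((n+1:ℕ):ℤ) - ((l+1:ℕ):ℤ) by push_cast; ring] at this
    exact this

/-- travelling from P to Λ -/
lemma travel {P Λ : ℚ} {X Y : ℕ → ℤ} {kX kb n l : ℕ} (hP : T P) (hΛ : T Λ) (wX : Wf P X) (wY : Wf Λ Y)
    (hrun : Run P X Λ n l) (hb : T (Λ + 1 - S Y kb))
    (hc : ∀ i, i + n < kX → i < kb ∧ Y i ≤ X (i+n) - ((n:ℤ) - l)) : T (P + 1 - S X kX) := by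
  cases kX with
  | zero => rw [S_zero, sub_zero]; exact hP.add_one
  | succ k =>
    rw [T_iff hP wX]
    rcases Nat.lt_or_ge n k with hk | hk
    · obtain ⟨k2, rfl⟩ : ∃ k2, k = n + k2 := ⟨k - n, by omega⟩
      have h1 := (hc k2 (by omega)).1
      cases kb with
      | zero => omega
      | succ kb' =>
        rw [T_iff hΛ wY] at hb
        refine hrun.toRk ?_
        refine Rk_dom k2 Λ Λ Y _ hΛ hΛ wY (hrun.wf wX) le_rfl ?_ (hb.of_le (by omega))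
        intro i hi
        have := (hc i (by omega)).2
        rw [sh_apply]; exact this
    · have : Rk (n + 0) P X := hrun.toRk (by trivial)
      exact this.of_le (by omega)

lemma Lp.sigma_pos {t : ℚ} {s d x : ℤ} {X : ℕ → ℤ} {n l : ℕ} (h : Lp t s d x X n l) :
    StrictMono X → d < X 0 → x < d → l < n := by
  induction h with
  | nil h => intro _ _ h'; omega
  | suc _ _ h ih =>
    intro _ _ _
    have := h.le
    omega
  | @lim t s d x t' s' X n1 l1 n2 l2 h1 h2 h3 h4 ih1 ih2 =>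
    intro hX hd hx
    have := ih1 (sh_mono hX _ _) (by
      have := hX (show 0 < 1 by omega)
      simp only [sh_apply, Nat.zero_add]; omega) hd
    have := h4.le
    omega

/-- the run through the last region before Λ, with the growth bound -/
lemma trav_run {g0 t : ℚ} {s m0 e : ℤ} {X : ℕ → ℤ} (hg : St g0 (Kd.L t s)) (ht : St t (Kd.S m0)) (he : 0 ≤ e)
    (hde : Dy e g0) (hX : StrictMono X) (hX0 : e + 1 < X 0) :
    ∃ n l, Run (g0 - w (e+1)) X (g0 - w e) n l ∧ 1 ≤ l ∧ l + 1 ≤ n ∧ ∀ k, Rk k t (sh X 0 (1+s)) → k ≤ l := by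
  have hpos := hg.L_pos he hde
  have hpk : Pk t s e := ⟨⟨_, ht⟩, hpos.1, hpos.2⟩
  have hc : Ch t s (e+1) (t - w m0) (s+1) := Or.inl ⟨m0, ht, rfl, rfl⟩
  have hpk' : Pk (t - w m0) (s+1) (e+1) := hc.pk (by rw [show e + 1 - 1 = e by ring]; exact hpk)
  have hX1 := hX (show 0 < 1 by omega)
  obtain ⟨n, l, hL⟩ := Lp_exists' (d := X 0) (X := sh X 1 0) hpk'.pw (by omega) (sh_mono hX _ _)
    (by simp only [sh_apply, Nat.zero_add]; omega)
  have hP : St (g0 - w (e+1)) (Kd.L (t - w m0) (s+1)) :=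
    St.cs hg ht (by omega) (by rw [show e + 1 - 1 = e by ring]; exact hde)
  have hrun := hL.toRun _ hP (by omega) (child_dy (by rw [show e + 1 - 1 = e by ring]; exact hde))
  have hrun2 := Run.lim hP hrun
  have e1 : g0 - w (e+1) - w (e+1) = g0 - w e := by rw [w_add_one]; ring
  rw [e1] at hrun2
  refine ⟨n+1, l+1, hrun2, by omega, ?_, ?_⟩
  · have := hL.sigma_pos (sh_mono hX _ _) (by simp only [sh_apply, Nat.zero_add]; omega) (by omega)
    omega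
  · exact LL7 t ⟨_, ht⟩ s (e+1) X _ _ n l (by rw [show e + 1 - 1 = e by ring]; exact hpk) hX hX0 hc hL

end Pool.Agent.Helper820
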