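import Pool.Agent.Helper820.FusTools

set_option autoImplicit false

namespace Pool.Agent.Helper820

/-- induction hypotheses for the pair (a,b) -/
structure IH (a b : ℚ) : Prop where
  one : ∀ a' b', T a' → T b' → |a' - b'| < 1 → a' + b' < a + b → T ((a' + b' + 1)/2)
  two : ∀ a' b', T a' → T b' → a' + b' = a + b → a' < a → b' < a' + 1 → T ((a' + b' + 1)/2)

/-- the situation where the type of g0 is a successor -/
structure US (g0 t : ℚ) (s m0 e : ℤ) (Λ : ℚ) (s' : ℤ) (φ : ℕ → ℤ) (p : ℕ) (b : ℚ) : Prop where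
  hg : St g0 (Kd.L t s)
  ht : St t (Kd.S m0)
  hΛ : St Λ (Kd.L (t - w m0) s')
  hs : s' ≤ s + 1
  he : 0 ≤ e
  hde : Dy e g0
  eΛ : Λ = g0 - w e
  hφ : StrictMono φ
  hφ0 : e < φ 0
  hF : T (g0 - S φ (p+1))
  hb : T (Λ + 1 - b)
  hb0 : 0 < b
  hbe : b < w e

variable {g0 t : ℚ} {s m0 e : ℤ} {Λ : ℚ} {s' : ℤ} {φ : ℕ → ℤ} {p : ℕ} {b : ℚ}

lemma US.posi (h : US g0 t s m0 e Λ s' φ p b) : 0 ≤ e - s ∧ Dy (e-s) t := h.hg.L_pos h.he h.hde

lemma US.dyp (h : US g0 t s m0 e Λ s' φ p b) : Dy (e-s) (t - w m0) := by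
  have h1 := h.ht.S_le h.posi.2
  exact ((h.ht.S_dy).sub (dy_w le_rfl)).mono h1

lemma US.wfp (h : US g0 t s m0 e Λ s' φ p b) {j : ℕ} {c : ℤ} (hj : 1 ≤ j) (hc : c ≤ s + 1) :
    Wf (t - w m0) (sh φ j c) := by
  have h1 := sm_add h.hφ 0 j
  have h2 := h.hφ0
  have h3 := h.posi.1
  refine ⟨sh_mono h.hφ _ _, ?_, ?_⟩
  · simp only [sh_apply]; omega
  · simp only [sh_apply]; exact h.dyp.mono (by omega)

lemma US.wfg (h : US g0 t s m0 e Λ s' φ p b) : Wf g0 φ :=
  ⟨h.hφ, by have := h.hφ0; have := h.he; omega, h.hde.mono (by have := h.hφ0; omega)⟩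

lemma US.Rkt (h : US g0 t s m0 e Λ s' φ p b) : Rk p t (sh φ 0 s) :=
  link_down p g0 t s φ h.hg h.wfg h.hF

lemma US.Rkp (h : US g0 t s m0 e Λ s' φ p b) {k : ℕ} (hk : k + 1 ≤ p) :
    Rk k (t - w m0) (sh φ 1 (s+1)) := by
  have := h.Rkt.of_le hk
  rw [Rk_succ_iff h.ht, sh_sh] at this
  rwa [show 0 + 1 = 1 by rfl] at this

lemma US.dyΛ (h : US g0 t s m0 e Λ s' φ p b) : Dy e Λ := by
  rw [h.eΛ]; exact h.hde.sub (dy_w le_rfl)

lemma US.T_low (h : US g0 t s m0 e Λ s' φ p b) {j : ℕ} (hj : 1 ≤ j) (hjp : j ≤ p + 1) :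
    T (Λ - S (sh φ j 0) (p+1-j)) := by
  obtain ⟨k, hk⟩ : ∃ k, p + 1 - j = k := ⟨_, rfl⟩
  rw [hk]
  cases k with
  | zero => rw [S_zero, sub_zero]; exact ⟨_, h.hΛ⟩
  | succ k =>
    have h1 := sm_add h.hφ 0 j
    have h2 := h.hφ0
    have h3 := h.posi.1
    have he := h.he
    refine link_up k Λ _ s' (sh φ j 0) h.hΛ ⟨sh_mono h.hφ _ _, ?_, ?_⟩ ?_
    · simp only [sh_apply]; omega
    · simp only [sh_apply]; exact h.dyΛ.mono (by omega)
    · rw [sh_sh]
      have hr := h.Rkp (k := k) (by omega)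
      refine Rk_dom k _ _ _ _ h.ht.T_pred h.ht.T_pred (h.wfp le_rfl le_rfl) ?_ le_rfl ?_ hr
      · have := h.wfp (j := j) (c := s') hj h.hs
        rw [Nat.add_zero, zero_add]; exact this
      · intro i _
        simp only [sh_apply]
        have := h.hs
        have := h.hφ.monotone (show i + 1 ≤ i + (j + 0) by omega)
        omega

lemma US.stP (h : US g0 t s m0 e Λ s' φ p b) : St (g0 - w (e+1)) (Kd.L (t - w m0) (s+1)) :=
  St.cs h.hg h.ht (by have := h.he; omega) (by rw [show e + 1 - 1 = e by ring]; exact h.hde)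

lemma US.dyP (h : US g0 t s m0 e Λ s' φ p b) : Dy (e+1) (g0 - w (e+1)) :=
  child_dy (by rw [show e + 1 - 1 = e by ring]; exact h.hde)

lemma US.T_P (h : US g0 t s m0 e Λ s' φ p b) : T (g0 - w (e+1) - S (sh φ 1 0) p) := by
  cases p with
  | zero => rw [S_zero, sub_zero]; exact ⟨_, h.stP⟩
  | succ p =>
    have h1 := h.hφ (show 0 < 1 by omega)
    have h2 := h.hφ0
    have he := h.he
    refine link_up p _ _ (s+1) (sh φ 1 0) h.stP ⟨sh_mono h.hφ _ _, ?_, ?_⟩ ?_
    · simp only [sh_apply, Nat.zero_add]; omega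
    · simp only [sh_apply, Nat.zero_add]; exact h.dyP.mono (by omega)
    · rw [sh_sh, Nat.add_zero, zero_add]
      exact h.Rkp (k := p) (by omega)

lemma US.Flt (h : US g0 t s m0 e Λ s' φ p b) : S φ (p+1) < w e := S_lt h.hφ h.hφ0 _

lemma US.wφ0 (h : US g0 t s m0 e Λ s' φ p b) : w (φ 0) ≤ w (e+1) := w_le (by have := h.hφ0; omega)

lemma US.bdy (h : US g0 t s m0 e Λ s' φ p b) : ∃ q, Dy q b := by
  have := dyex_sub (dyex_add (T.dyex ⟨_, h.hΛ⟩) dyex_one) h.hb.dyex
  rwa [show Λ + 1 - (Λ + 1 - b) = b by ring] at this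

/-- High case -/
lemma US.high (h : US g0 t s m0 e Λ s' φ p b) (ih : IH (g0 - S φ (p+1)) (Λ + 1 - b))
    (hh : w e < S φ (p+1) + b) : T ((g0 - S φ (p+1) + (Λ + 1 - b) + 1)/2) := by
  classical
  have hex : ∃ m, m ≤ p ∧ S (sh φ (m+1) 0) (p-m) < b + S φ (m+1) - w e :=
    ⟨p, le_rfl, by rw [Nat.sub_self, S_zero]; linarith⟩
  obtain ⟨hm1, hm2⟩ := Nat.find_spec hex
  have hmin := @Nat.find_min _ _ hex
  set m := Nat.find hex with hm
  have hsplit : S φ (p+1) = S φ (m+1) + S (sh φ (m+1) 0) (p-m) := by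
    rw [S_split (show m+1 ≤ p+1 by omega)]; congr 2; omega
  set R := S (sh φ (m+1) 0) (p-m) with hR
  set β := b + S φ (m+1) - w e with hβ
  have hR0 : 0 ≤ R := S_nonneg _ _
  have hRlt : R < w (φ m) := S_lt (sh_mono h.hφ _ _) (by
    have := h.hφ (show m < m+1 by omega)
    simp only [sh_apply, Nat.zero_add]; omega) _
  have hFe := h.Flt
  have hwm := w_pos (φ m)
  have hbe := h.hbe
  have hb0 := h.hb0
  -- bound on β
  have hβ3 : β < 3 * w (φ m) := by
    rcases Nat.eq_zero_or_pos m with h0 | h0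
    · have : β = b + w (φ 0) - w e := by rw [hβ, h0, S_succ, S_zero, zero_add]
      rw [this, h0]
      rw [h0] at hwm
      linarith
    · have := hmin (show m - 1 < m by omega)
      push Not at this
      have h1 := this (by omega)
      rw [show m - 1 + 1 = m by omega] at h1
      have h2 : S (sh φ m 0) (p - (m-1)) = w (φ m) + R := by
        rw [show p - (m-1) = (p - m) + 1 by omega, S_front, sh_sh, sh_apply, Nat.zero_add, sub_zero]
        rfl
      rw [h2] at h1
      have h3 : S φ (m+1) = S φ m + w (φ m) := S_succ _ _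
      linarith
  have hεd : Dy (φ m) (w e - S φ (m+1)) := by
    refine (dy_w ?_).sub (S_dy h.hφ _ fun i hi => h.hφ.monotone (by omega))
    have := h.hφ.monotone (Nat.zero_le m)
    have := h.hφ0
    omega
  have hε0 : 0 < w e - S φ (m+1) := by linarith
  have hβb : β < b := by linarith
  have hTb : T (Λ + 1 - β) := by
    refine T_mono (b := b) (e := e) ⟨_, h.hΛ⟩ ⟨_, h.hΛ⟩ le_rfl h.he h.dyΛ h.dyΛ h.hb hb0.le hbe ?_ (by linarith)
      (by linarith) ?_
    · exact dyex_sub (dyex_add h.bdy (S_dyex h.hφ _)) (dyex_w _)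
    · intro q
      have := cnt_small (q := q) hεd hε0 (by linarith : 0 ≤ β) hβ3
      rwa [show w e - S φ (m+1) + β = b by rw [hβ]; ring] at this
  have hTa : T (Λ - R) := by
    have := h.T_low (j := m+1) (by omega) (by omega)
    rwa [show p + 1 - (m+1) = p - m by omega] at this
  have hsum : Λ - R + (Λ + 1 - β) = g0 - S φ (p+1) + (Λ + 1 - b) := by
    rw [hsplit, hβ, h.eΛ]; ring
  have := ih.two (Λ - R) (Λ + 1 - β) hTa hTb hsum (by rw [h.eΛ]; linarith) (by linarith)
  rwa [hsum] at this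

/-- first low case -/
lemma US.low1 (h : US g0 t s m0 e Λ s' φ p b) (ih : IH (g0 - S φ (p+1)) (Λ + 1 - b))
    (hl : S φ (p+1) + b ≤ w e) (hf : e + 1 < φ 0) : T ((g0 - S φ (p+1) + (Λ + 1 - b) + 1)/2) := by
  have hF : S φ (p+1) = w (φ 0) + S (sh φ 1 0) p := S_front _ _
  have hR : S (sh φ 1 0) p < w (φ 0) := S_lt (sh_mono h.hφ _ _) (by
    have := h.hφ (show 0 < 1 by omega)
    simp only [sh_apply, Nat.zero_add]; omega) _
  have hR0 := S_nonneg (sh φ 1 0) p
  have hwf : w (φ 0) < w (e+1) := w_lt hf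
  have hwf2 : w (φ 0) ≤ w (e+1) / 2 := by rw [← w_add_one]; exact w_le (by omega)
  have hwe : w e = 2 * w (e+1) := by rw [w_add_one]; ring
  have hb0 := h.hb0
  have hw0 := w_pos (φ 0)
  set β := w (φ 0) + b with hβ
  have hβd : ∃ q, Dy q β := dyex_add (dyex_w _) h.bdy
  have hΛP : Λ = g0 - w (e+1) - w (e+1) := by rw [h.eΛ, hwe]; ring
  have hTb : T (g0 - w (e+1) + 1 - β) := by
    by_cases h1 : β < w (e+1)
    · -- travel
      obtain ⟨X, kX, wX, hX0, hSX⟩ := exists_str (x := g0 - w (e+1)) (e := e+1) (by have := h.he; omega) h.dyP hβd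
        (by linarith) h1
      obtain ⟨Y, kb, wY, hY0, hSY⟩ := exists_str h.he h.dyΛ h.bdy hb0.le h.hbe
      obtain ⟨n, l, hrun, hl1, hl2, -⟩ := trav_run h.hg h.ht h.he h.hde wX.sm hX0
      rw [← h.eΛ] at hrun
      have hd := dom_of_cnt (c := 1) wY.sm wX.sm (k := kb) (k' := kX) (fun q => by
        rw [hSX, hSY, hβ, add_comm]; exact cnt_add_w hb0.le)
      rw [← hSX]
      refine travel ⟨_, h.stP⟩ ⟨_, h.hΛ⟩ wX wY hrun (by rw [hSY]; exact h.hb) ?_
      intro i hi
      obtain ⟨g1, g2⟩ := hd i (by omega)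
      refine ⟨g1, ?_⟩
      have := sm_add wX.sm (i+1) (n-1)
      rw [show i + 1 + (n-1) = i + n by omega] at this
      have : ((n-1 : ℕ):ℤ) = (n:ℤ) - 1 := by omega
      omega
    · rw [show g0 - w (e+1) + 1 - β = Λ + 1 - (β - w (e+1)) by rw [hΛP]; ring]
      have h2 : 0 ≤ β - w (e+1) := by linarith
      refine T_mono (b := b) (e := e) ⟨_, h.hΛ⟩ ⟨_, h.hΛ⟩ le_rfl h.he h.dyΛ h.dyΛ h.hb hb0.le h.hbe
        (dyex_sub hβd (dyex_w _)) h2 (by linarith) ?_
      intro q
      by_cases h3 : w (e+1) ≤ b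
      · -- b = w (e+1) + ρ
        have e1 : b = w (e+1) + (b - w (e+1)) := by ring
        have e2 : β - w (e+1) = (b - w (e+1)) + w (φ 0) := by rw [hβ]; ring
        rcases le_or_gt (e+1) q with hq | hq
        · rw [e2]
          conv_rhs => rw [e1]
          rw [cnt_disj (dy_w le_rfl) (w_pos _).le (by linarith) (by linarith [h.hbe]), cnt_w hq]
          have := cnt_add_w (q := q) (u := φ 0) (show 0 ≤ b - w (e+1) by linarith)
          omega
        · have : β - w (e+1) < w q := by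
            have h4 : w e ≤ w q := w_le (by omega)
            have := h.hbe
            linarith
          rw [cnt_eq_zero this]; omega
      · have e1 : b = (w (e+1) - w (φ 0)) + (β - w (e+1)) := by rw [hβ]; ring
        conv_rhs => rw [e1]
        rw [cnt_disj (n := φ 0) ((dy_w (by omega)).sub (dy_w le_rfl)) (by linarith) h2 (by linarith)]
        omega
  have hsum : g0 - w (e+1) - S (sh φ 1 0) p + (g0 - w (e+1) + 1 - β) = g0 - S φ (p+1) + (Λ + 1 - b) := by
    rw [hF, hβ, hΛP]; ring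
  have := ih.two _ _ h.T_P hTb hsum (by linarith) (by linarith)
  rwa [hsum] at this

/-- second low case -/
lemma US.low2 (h : US g0 t s m0 e Λ s' φ p b) (ih : IH (g0 - S φ (p+1)) (Λ + 1 - b))
    (hl : S φ (p+1) + b ≤ w e) (hf : φ 0 = e + 1) : T ((g0 - S φ (p+1) + (Λ + 1 - b) + 1)/2) := by
  classical
  have hwe : w e = 2 * w (e+1) := by rw [w_add_one]; ring
  have hb0 := h.hb0
  have he := h.he
  rcases eq_or_lt_of_le hl with hl' | hl'
  · have : (g0 - S φ (p+1) + (Λ + 1 - b) + 1)/2 = Λ + 1 := by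
      have := h.eΛ
      linarith
    rw [this]
    exact T.add_one ⟨_, h.hΛ⟩
  have hex : ∃ j, j ≤ p ∧ S (sh φ (j+1) 0) (p-j) < b :=
    ⟨p, le_rfl, by rw [Nat.sub_self, S_zero]; linarith⟩
  obtain ⟨hj1, hj2⟩ := Nat.find_spec hex
  have hmin := @Nat.find_min _ _ hex
  set j := Nat.find hex with hj
  have hsplit : S φ (p+1) = S φ (j+1) + S (sh φ (j+1) 0) (p-j) := by
    rw [S_split (show j+1 ≤ p+1 by omega)]; congr 2; omega
  set R := S (sh φ (j+1) 0) (p-j) with hR
  have hR0 : 0 ≤ R := S_nonneg _ _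
  have hRlt : R < w (φ j) := S_lt (sh_mono h.hφ _ _) (by
    have := h.hφ (show j < j+1 by omega)
    simp only [sh_apply, Nat.zero_add]; omega) _
  set D := b + R with hD
  have hW : S φ (p+1) + b = S φ (j+1) + D := by rw [hsplit, hD]; ring
  have hbe := h.hbe
  have hFe := h.Flt
  have hbd := h.bdy
  have hDd : ∃ q, Dy q D := dyex_add hbd (S_dyex (sh_mono h.hφ _ _) _)
  have hprev : 1 ≤ j → b ≤ w (φ j) + R := by
    intro h0
    have := hmin (show j - 1 < j by omega)
    push Not at this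
    have h1 := this (by omega)
    rw [show j - 1 + 1 = j by omega] at h1
    have h2 : S (sh φ j 0) (p - (j-1)) = w (φ j) + R := by
      rw [show p - (j-1) = (p - j) + 1 by omega, S_front, sh_sh, sh_apply, Nat.zero_add, sub_zero]
      rfl
    rw [h2] at h1
    exact h1
  have hD0 : j = 0 → D < w (φ j) := by
    intro h0
    have e1 : S φ (0+1) = w (φ 0) := by rw [S_succ, S_zero, zero_add]
    rw [h0, e1] at hW
    rw [h0]
    rw [hf] at hW ⊢
    linarith
  have hgoal : (g0 - S φ (p+1) + (Λ + 1 - b) + 1)/2 = g0 - w (e+1) + 1 - (S φ (p+1) + b)/2 := by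
    rw [h.eΛ, hwe]; ring
  rw [hgoal, hW]
  have hw1 : w (1:ℤ) = 1/2 := w_one
  -- the induction hypothesis for j < p
  have hIH1 : T (Λ + 1 - D/2) := by
    have hTa : T (Λ - R) := by
      have := h.T_low (j := j+1) (by omega) (by omega)
      rwa [show p + 1 - (j+1) = p - j by omega] at this
    have hw0 : w e ≤ 1 := by rw [← w_zero]; exact w_le he
    have := ih.one (Λ - R) (Λ + 1 - b) hTa h.hb (by rw [abs_lt]; constructor <;> linarith)
      (by rw [h.eΛ]; linarith)
    rwa [show (Λ - R + (Λ + 1 - b) + 1) / 2 = Λ + 1 - D/2 by rw [hD]; ring] at this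
  have hwfX : ∀ X : ℕ → ℤ, StrictMono X → X 0 = e + 2 → Wf (g0 - w (e+1)) X := by
    intro X hX hX0
    exact ⟨hX, by omega, by rw [hX0, show e + 2 - 1 = e + 1 by ring]; exact h.dyP⟩
  have hwfY : ∀ Y : ℕ → ℤ, StrictMono Y → e < Y 0 → Wf Λ Y := by
    intro Y hY hY0
    exact ⟨hY, by omega, h.dyΛ.mono (by omega)⟩
  by_cases hc : D < w (φ j)
  · -- no carry
    obtain ⟨pD, hpD⟩ := hDd
    obtain ⟨D', kD, hD', hD'0, hSD⟩ := exists_seq (n := φ j) (by linarith) hpD hc
    have hφD : ∀ i, i < j + 1 → φ i < D' 0 := fun i hi => by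
      have := h.hφ.monotone (show i ≤ j by omega)
      omega
    have hWs : StrictMono (app φ (j+1) D') := app_sm h.hφ hD' hφD
    have hSW : S (app φ (j+1) D') (j+1+kD) = S φ (j+1) + D := by rw [S_app, hSD]
    set X := sh (app φ (j+1) D') 0 (-1) with hX
    have hXs : StrictMono X := sh_mono hWs _ _
    have hX0 : X 0 = e + 2 := by
      rw [hX, sh_apply, Nat.add_zero, app_lt (by omega), hf]; ring
    have hSX : S X (j+1+kD) = (S φ (j+1) + D)/2 := by
      rw [hX, S_shift, hSW, neg_neg, hw1]; ring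
    have hXge : ∀ i, X (i + (j+1)) = D' i + 1 := by
      intro i
      show app φ (j+1) D' (i + (j+1)) - -1 = D' i + 1
      rw [app_ge]; ring
    obtain ⟨n, l, hrun, hl1, hl2, hl3⟩ := trav_run h.hg h.ht h.he h.hde hXs (by omega)
    rw [← h.eΛ] at hrun
    have hD'e : e < D' 0 := by
      have := hφD 0 (by omega)
      omega
    rw [← hSX]
    by_cases hjp : j < p
    · have hlj : j + 1 ≤ l := by
        apply hl3
        rw [hX, sh_sh, show -1 + (1 + s) = s by ring]
        refine Rk_congr _ _ _ _ ?_ (h.Rkt.of_le (by omega))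
        intro i hi
        simp only [sh_apply, Nat.add_zero]
        rw [app_lt (by omega)]
      refine travel ⟨_, h.stP⟩ ⟨_, h.hΛ⟩ (hwfX X hXs hX0) (hwfY (sh D' 0 (-1)) (sh_mono hD' _ _) ?_) hrun (kb := kD) ?_ ?_
      · simp only [sh_apply, Nat.add_zero]; omega
      · rw [S_shift, hSD, neg_neg, hw1]
        rwa [show D * (1/2) = D/2 by ring]
      · intro i hi
        refine ⟨by omega, ?_⟩
        have h1 := hXge (i + (n - (j+1)))
        rw [show i + (n - (j+1)) + (j+1) = i + n by omega] at h1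
        have h2 := sm_add hD' i (n - (j+1))
        rw [h1]
        simp only [sh_apply, Nat.add_zero]
        have : ((n - (j+1) : ℕ):ℤ) = (n:ℤ) - (j+1) := by omega
        omega
    · have hjp' : j = p := by omega
      have hRz : R = 0 := by rw [hR, hjp', Nat.sub_self, S_zero]
      have hlj : p ≤ l := by
        apply hl3
        rw [hX, sh_sh, show -1 + (1 + s) = s by ring]
        refine Rk_congr _ _ _ _ ?_ h.Rkt
        intro i hi
        simp only [sh_apply, Nat.add_zero]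
        rw [app_lt (by omega)]
      refine travel ⟨_, h.stP⟩ ⟨_, h.hΛ⟩ (hwfX X hXs hX0) (hwfY D' hD' hD'e) hrun (kb := kD) ?_ ?_
      · rw [hSD, hD, hRz, add_zero]; exact h.hb
      · intro i hi
        refine ⟨by omega, ?_⟩
        have h1 := hXge (i + (n - (j+1)))
        rw [show i + (n - (j+1)) + (j+1) = i + n by omega] at h1
        have h2 := sm_add hD' i (n - (j+1))
        rw [h1]
        have : ((n - (j+1) : ℕ):ℤ) = (n:ℤ) - (j+1) := by omega
        omega
  · -- carry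
    have hj0 : 1 ≤ j := by
      by_contra hc'
      exact hc (hD0 (by omega))
    have hp1 := hprev hj0
    obtain ⟨l0, hl0, hcar, hl0'⟩ := exists_carry j h.hφ
    have hρ0 : 0 ≤ D - w (φ j) := by linarith
    have hρ1 : D - w (φ j) < w (φ j - 1) := by rw [w_sub_one]; linarith
    have hl01 : 1 ≤ l0 := by
      by_contra hc'
      have : l0 = 0 := by omega
      rw [this, S_zero, hf, show e + 1 - 1 = e by ring] at hcar
      linarith
    have hl02 : φ (l0-1) < φ l0 - 1 := by
      rcases hl0' with h1 | h1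
      · omega
      · exact h1
    have hρ2 : D - w (φ j) < w (φ l0 - 1) :=
      lt_of_lt_of_le hρ1 (w_le (by have := h.hφ.monotone hl0; omega))
    obtain ⟨pD, hpD⟩ := dyex_sub hDd (dyex_w (φ j))
    obtain ⟨R', kR, hR', hR'0, hSR⟩ := exists_seq (n := φ l0 - 1) hρ0 hpD hρ2
    have hWs : StrictMono (app φ l0 (cs (φ l0 - 1) R')) := by
      refine app_sm h.hφ (cs_sm hR' hR'0) ?_
      intro i hi
      have := h.hφ.monotone (show i ≤ l0 - 1 by omega)
      show φ i < φ l0 - 1
      omega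
    set X := sh (app φ l0 (cs (φ l0 - 1) R')) 0 (-1) with hX
    have hXs : StrictMono X := sh_mono hWs _ _
    have hX0 : X 0 = e + 2 := by
      rw [hX, sh_apply, Nat.add_zero, app_lt (by omega), hf]; ring
    obtain ⟨n, l, hrun, hl1, hl2, hl3⟩ := trav_run h.hg h.ht h.he h.hde hXs (by omega)
    rw [← h.eΛ] at hrun
    by_cases hjp : j < p
    · have hSX : S X (l0+(kR+1)) = (S φ (j+1) + D)/2 := by
        rw [hX, S_shift, S_app, S_cs, hSR, neg_neg, hw1]
        linarith
      have hlj : l0 + 1 ≤ l := by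
        apply hl3
        rw [hX, sh_sh, show -1 + (1 + s) = s by ring]
        refine Rk_congr _ _ _ _ ?_ (h.Rkt.of_le (by omega))
        intro i hi
        simp only [sh_apply, Nat.add_zero]
        rw [app_lt (by omega)]
      obtain ⟨Y, kD, wY, hY0, hSY⟩ := exists_str (x := Λ) (r := D/2) h.he h.dyΛ (dyex_half hDd) (by linarith) (by
        have := S_nonneg φ (j+1)
        linarith)
      rw [← hSX]
      have hdom := dom_of_cnt (c := l0+1) wY.sm hXs (k := kD) (k' := l0+(kR+1)) (fun q => by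
        rw [hSX, hSY, cnt_half, cnt_half]
        have e1 : S φ (j+1) + D = (S φ l0 + w (φ l0 - 1)) + (D - w (φ j)) := by linarith
        have hdA : Dy (φ l0 - 1) (S φ l0 + w (φ l0 - 1)) := (S_dy' h.hφ l0).add (dy_w le_rfl)
        rw [e1, cnt_disj hdA (by linarith [S_nonneg φ l0, w_pos (φ l0 - 1)]) hρ0 hρ2]
        have h1 := cnt_add_w (q := q-1) (u := φ l0 - 1) (S_nonneg φ l0)
        have h2 := cnt_S_le_k (X := φ) (q-1) l0
        have h3 := cnt_small (n := φ j) (q := q-1) (ε := w (φ j)) (β := D - w (φ j)) (dy_w le_rfl) (w_pos _) hρ0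
          (by linarith [w_pos (φ j)])
        rw [show w (φ j) + (D - w (φ j)) = D by ring] at h3
        omega)
      refine travel ⟨_, h.stP⟩ ⟨_, h.hΛ⟩ (hwfX X hXs hX0) wY hrun (kb := kD) (by rw [hSY]; exact hIH1) ?_
      intro i hi
      obtain ⟨g1, g2⟩ := hdom i (by omega)
      refine ⟨g1, ?_⟩
      have := sm_add hXs (i+(l0+1)) (n-(l0+1))
      rw [show i + (l0+1) + (n-(l0+1)) = i + n by omega] at this
      have : ((n-(l0+1) : ℕ):ℤ) = (n:ℤ) - (l0+1) := by omega
      omega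
    · have hjp' : j = p := by omega
      have hRz : R = 0 := by rw [hR, hjp', Nat.sub_self, S_zero]
      have hbw : D = w (φ j) := by
        rw [hD, hRz, add_zero]
        rw [hD, hRz, add_zero] at hc
        rw [hRz, add_zero] at hp1
        exact le_antisymm hp1 (not_lt.mp hc)
      have hSX : S X (l0+1) = (S φ (j+1) + D)/2 := by
        rw [hX, S_shift, S_app, S_cs, S_zero, neg_neg, hw1]
        linarith
      have hlj : l0 ≤ l := by
        apply hl3
        rw [hX, sh_sh, show -1 + (1 + s) = s by ring]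
        refine Rk_congr _ _ _ _ ?_ (h.Rkt.of_le (by omega))
        intro i hi
        simp only [sh_apply, Nat.add_zero]
        rw [app_lt (by omega)]
      rw [← hSX]
      refine travel ⟨_, h.stP⟩ ⟨_, h.hΛ⟩ (hwfX X hXs hX0) (hwfY X hXs (by omega)) hrun (kb := 0) ?_ ?_
      · rw [S_zero, sub_zero]; exact T.add_one ⟨_, h.hΛ⟩
      · intro i hi
        omega

theorem US.main (h : US g0 t s m0 e Λ s' φ p b) (ih : IH (g0 - S φ (p+1)) (Λ + 1 - b)) :
    T ((g0 - S φ (p+1) + (Λ + 1 - b) + 1)/2) := by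
  rcases lt_or_ge (w e) (S φ (p+1) + b) with h1 | h1
  · exact h.high ih h1
  · rcases lt_or_ge (e+1) (φ 0) with h2 | h2
    · exact h.low1 ih h1 h2
    · exact h.low2 ih h1 (by have := h.hφ0; omega)

end Pool.Agent.Helper820
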