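import Pool.Agent.Helper820.FusBase

set_option autoImplicit false

namespace Pool.Agent.Helper820

lemma exists_w_lt (p : ℤ) {δ : ℚ} (h : 0 < δ) : ∃ n : ℕ, w (p + n) < δ := by
  obtain ⟨n, hn⟩ := exists_pow_lt_of_lt_one (y := (1/2:ℚ)) (show 0 < δ / w p from div_pos h (w_pos p)) (by norm_num)
  refine ⟨n, ?_⟩
  have e : w (p + n) = (1/2:ℚ)^n * w p := by
    rw [w_add, mul_comm]
    unfold w
    rw [zpow_neg, zpow_natCast, one_div, inv_pow]
  rw [e]
  rwa [lt_div_iff₀ (w_pos p)] at hn

/-- order on tame elements -/
def rT (a b : ℚ) : Prop := T a ∧ a < b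

lemma acc_lim {t : ℚ} (ht : Acc rT t) : ∀ (z : ℚ) (s p : ℤ), St z (Kd.L t s) → 0 ≤ p → Dy p z →
    (∀ y, T y → y ≤ z - w p → Acc rT y) → Acc rT z := by
  induction ht with
  | intro t _ ih =>
    intro z s p hz hp hd hlow
    have key : ∀ n : ℕ, ∀ y, T y → y ≤ z - w (p + n) → Acc rT y := by
      intro n
      induction n with
      | zero => intro y hy hle; exact hlow y hy (by simpa using hle)
      | succ n ihn =>
        intro y hy hle
        set q : ℤ := p + n + 1 with hq
        have hq' : p + ((n+1 : ℕ) : ℤ) = q := by push_cast; ring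
        rw [hq'] at hle
        have hw2 : w (p + n) = 2 * w q := by
          rw [← w_sub_one]; congr 1; omega
        have hdz : Dy (q-1) z := hd.mono (by omega)
        have hz' : T (z - w q) := T_child hz (by omega) hdz
        have hacc : Acc rT (z - w q) := by
          rcases hz'.cases with h0 | ⟨m, hm⟩ | ⟨t', s', hL⟩
          · rw [h0]
            refine Acc.intro _ fun y' hy' => ?_
            have := hy'.1.nonneg
            have := hy'.2
            exfalso; linarith
          · refine Acc.intro _ fun y' hy' => ?_
            have hmq : m = q := by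
              have h1 := hm.S_le (child_dy hdz)
              have h2 := child_le_of_dy hdz hm.S_dy
              omega
            subst hmq
            have := gap hm hy'.1 hy'.2
            exact ihn y' hy'.1 (by linarith)
          · have hlt : T t' ∧ t' < t := by
              refine ⟨hL.T_type, ?_⟩
              rcases hL.inv with ⟨-, h⟩ | ⟨k, h, h0⟩ | ⟨x', s', n', g1, g2, g3, g4, g5⟩ |
                ⟨x', t1, s1, m', n', g1, g2, g3, g4, g5, g6⟩ | ⟨x', t1, s1, t2, s2, n', g1, g2, g3, g4, g5, g6⟩
              · cases h
              · exfalso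
                exact child_not_dy hdz (by omega : (0:ℤ) < q) (by rw [h]; exact (dy_nat le_rfl k).add (dy_one le_rfl))
              · cases g5
              · obtain ⟨e1, e2⟩ := child_inj hdz g4 g5
                subst e2
                obtain ⟨e3, e4⟩ := hz.L_inj g1
                cases g6
                rw [e3]
                linarith [w_pos m']
              · obtain ⟨e1, e2⟩ := child_inj hdz g4 g5
                subst e2
                obtain ⟨e3, e4⟩ := hz.L_inj g1
                cases g6
                rw [e3]
                linarith [w_pos (n' - s')]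
            refine ih t' hlt (z - w q) s' q hL (by omega) (child_dy hdz) ?_
            intro y' hy' hle'
            exact ihn y' hy' (by linarith)
        rcases eq_or_lt_of_le hle with h | h
        · rw [h]; exact hacc
        · exact hacc.inv ⟨hy, h⟩
    refine Acc.intro _ fun y hy => ?_
    obtain ⟨n, hn⟩ := exists_w_lt p (show 0 < z - y by linarith [hy.2])
    exact key n y hy.1 (by linarith)

lemma acc_nat (k : ℕ) : Acc rT (k:ℚ) := by
  induction k with
  | zero =>
    refine Acc.intro _ fun y' hy' => ?_
    have := hy'.1.nonneg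
    have := hy'.2
    exfalso; push_cast at this; linarith
  | succ k ih =>
    have := acc_lim ih ((k:ℚ)+1) 0 0 (St.root k) le_rfl ((dy_nat le_rfl k).add (dy_one le_rfl)) (by
      intro y hy hle
      rw [w_zero] at hle
      rcases eq_or_lt_of_le (show y ≤ (k:ℚ) by linarith) with h | h
      · rw [h]; exact ih
      · exact ih.inv ⟨hy, h⟩)
    push_cast
    exact this

lemma T.acc {x : ℚ} (h : T x) : Acc rT x := by
  obtain ⟨k, hk⟩ := exists_nat_gt x
  exact (acc_nat k).inv ⟨h, hk⟩

theorem T_induct {P : ℚ → Prop} (h : ∀ x, T x → (∀ y, T y → y < x → P y) → P x) : ∀ x, T x → P x := by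
  intro x hx
  have hacc := hx.acc
  induction hacc with
  | intro x _ ih => exact h x hx fun y hy hyx => ih y ⟨hy, hyx⟩ hy

/-- existence of the next tame element -/
lemma exists_next {v : ℚ} (hv : T v) : ∃ u m, St u (Kd.S m) ∧ u - w m = v := by
  have key : ∀ z, T z → v < z → ∃ u m, St u (Kd.S m) ∧ u - w m = v := by
    intro z hz
    refine T_induct (P := fun z => v < z → ∃ u m, St u (Kd.S m) ∧ u - w m = v) ?_ z hz
    intro z hz ih hvz
    rcases hz.cases with h0 | ⟨m, hm⟩ | ⟨t, s, hL⟩
    · have := hv.nonneg
      exfalso; linarith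
    · have h1 := gap hm hv hvz
      rcases eq_or_lt_of_le h1 with h | h
      · exact ⟨z, m, hm, h.symm⟩
      · exact ih _ hm.T_pred (by linarith [w_pos m]) h
    · obtain ⟨p, hp, hd⟩ := hz.dy
      obtain ⟨n, hn⟩ := exists_w_lt p (show 0 < z - v by linarith)
      exact ih (z - w (p+n)) (hL.T_sub (by omega) (hd.mono (by omega))) (by linarith [w_pos (p+n)]) (by linarith)
  exact key (v+1) hv.add_one (by linarith)

lemma next_unique {u u' : ℚ} {m m' : ℤ} (h : St u (Kd.S m)) (h' : St u' (Kd.S m'))
    (e : u - w m = u' - w m') : u = u' := by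
  rcases lt_trichotomy u u' with hlt | heq | hlt
  · have := gap h' ⟨_, h⟩ hlt
    linarith [w_pos m]
  · exact heq
  · have := gap h ⟨_, h'⟩ hlt
    linarith [w_pos m']

lemma next_le {u v z : ℚ} {m : ℤ} (h : St u (Kd.S m)) (e : u - w m = v) (hz : T z) (hvz : v < z) : u ≤ z := by
  by_contra hc
  have := gap h hz (not_le.mp hc)
  linarith

end Pool.Agent.Helper820
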